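import Pool.Agent.Helper68.WA.Mod

set_option autoImplicit false
set_option linter.unusedSectionVars false

/-!
# Block triangular representations, and finitely generated semigroups of scalars
-/

namespace Pool.Agent.Helper68.WA

open Matrix Module

universe u v

variable {K : Type u} {L : Type v} {A : Type*} [Field K] [Field L] [Algebra K L]

lemma fg_fin (S : Finset L) (N : ℕ) (hN : 1 ≤ N)
    (hS : ∀ s ∈ S, ∃ c : K, algebraMap K L c = s ^ N) :
    ∃ R1 : Set L, R1.Finite ∧ ∀ g ∈ Subsemigroup.closure (S : Set L),
      ∃ c : K, ∃ r ∈ R1, g = algebraMap K L c * r := by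
  classical
  choose! cc hcc using hS
  let R1 : Set L := Set.range fun e : S → Fin N => ∏ s : S, (s : L) ^ (e s : ℕ)
  refine ⟨R1, Set.finite_range _, fun g hg => ?_⟩
  have h1 : ∃ c : K, ∃ n : L → ℕ, g = algebraMap K L c * ∏ s ∈ S, s ^ n s := by
    induction hg using Subsemigroup.closure_induction with
    | mem s hs =>
      refine ⟨1, fun t => if t = s then 1 else 0, ?_⟩
      rw [map_one, one_mul, Finset.prod_eq_single s]
      · simp
      · intro t _ ht
        simp [ht]
      · intro hs'
        exact absurd hs hs'
    | mul x y _ _ ihx ihy =>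
      obtain ⟨c, n, hx⟩ := ihx
      obtain ⟨c', n', hy⟩ := ihy
      refine ⟨c * c', n + n', ?_⟩
      rw [hx, hy, map_mul]
      simp only [Pi.add_apply, pow_add, Finset.prod_mul_distrib]
      ring
  obtain ⟨c, n, rfl⟩ := h1
  refine ⟨c * ∏ s ∈ S, cc s ^ (n s / N), ∏ s ∈ S, s ^ (n s % N), ?_, ?_⟩
  · refine ⟨fun s => ⟨n s % N, Nat.mod_lt _ hN⟩, ?_⟩
    simp only
    exact Finset.prod_coe_sort S (fun s => s ^ (n s % N))
  · rw [map_mul, mul_assoc, map_prod, ← Finset.prod_mul_distrib]
    congr 1
    refine Finset.prod_congr rfl fun s hs => ?_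
    rw [map_pow, hcc s hs, ← pow_mul, ← pow_add, Nat.div_add_mod]

section block

variable {m : Type*} [Fintype m] [DecidableEq m] {b : m → ℕ}

lemma blockTri_prod {T : A → Matrix m m L} (hT : ∀ a, (T a).BlockTriangular b) (w : List A) :
    ((w.map T).prod).BlockTriangular b := by
  induction w with
  | nil => simpa using Matrix.blockTriangular_one
  | cons a w ih => rw [List.map_cons, List.prod_cons]; exact (hT a).mul ih

lemma toSquareBlock_mul {M N : Matrix m m L} (hM : M.BlockTriangular b)
    (hN : N.BlockTriangular b) (k : ℕ) :
    (M * N).toSquareBlock b k = M.toSquareBlock b k * N.toSquareBlock b k := by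
  ext i j
  have h0 : ∑ l with ¬ b l = k, M i l * N l j = 0 := by
    refine Finset.sum_eq_zero fun l hl => ?_
    have hl' : b l ≠ k := by simpa using hl
    rcases lt_or_gt_of_ne hl' with h | h
    · rw [hM (by rw [i.2]; exact h), zero_mul]
    · rw [hN (by rw [j.2]; exact h), mul_zero]
  have h1 : (M * N) i j = ∑ l : {l // b l = k}, M i l * N l j := by
    rw [Matrix.mul_apply, ← Finset.sum_filter_add_sum_filter_not Finset.univ (fun l => b l = k)
      (fun l => M i l * N l j), h0, add_zero]
    exact Finset.sum_subtype (Finset.univ.filter fun l => b l = k) (by simp)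
      (fun l => M i l * N l j)
  exact h1

lemma toSquareBlock_prod {T : A → Matrix m m L} (hT : ∀ a, (T a).BlockTriangular b)
    (k : ℕ) (w : List A) : ((w.map T).prod).toSquareBlock b k =
      (w.map fun a => (T a).toSquareBlock b k).prod := by
  induction w with
  | nil =>
    ext i j
    simp [Matrix.toSquareBlock_def, Matrix.one_apply, Subtype.ext_iff]
  | cons a w ih =>
    rw [List.map_cons, List.prod_cons, List.map_cons, List.prod_cons, ← ih]
    exact toSquareBlock_mul (hT a) (blockTri_prod hT w) k

lemma act_toLin' {n : Type*} [Fintype n] [DecidableEq n] (T : A → Matrix n n L) (w : List A)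
    (x : n → L) : act (fun a => Matrix.toLin' (T a)) w x = (w.map T).prod *ᵥ x := by
  induction w generalizing x with
  | nil => simp
  | cons a w ih =>
    rw [act_cons, Module.End.mul_apply, ih, Matrix.toLin'_apply, List.map_cons, List.prod_cons,
      Matrix.mulVec_mulVec]

/-- eigenvalues of diagonal blocks are eigenvalues -/
lemma EigIn.block {T : A → Matrix m m L} (hT : ∀ a, (T a).BlockTriangular b) {G : Set L}
    (hG : EigIn (fun a => Matrix.toLin' (T a)) G) (k : ℕ) :
    EigIn (fun a => Matrix.toLin' ((T a).toSquareBlock b k)) G := by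
  intro w μ x hx hw
  rw [act_toLin', ← toSquareBlock_prod hT] at hw
  set W := (w.map T).prod with hW
  have hWt : W.BlockTriangular b := blockTri_prod hT w
  have h1 : (W - μ • (1 : Matrix m m L)).BlockTriangular b := by
    intro i j hij
    have h2 : i ≠ j := by rintro rfl; exact lt_irrefl _ hij
    rw [Matrix.sub_apply, hWt hij, Matrix.smul_apply, Matrix.one_apply_ne h2]
    simp
  have h2 : ((W - μ • (1 : Matrix m m L)).toSquareBlock b k).det = 0 := by
    rw [← Matrix.exists_mulVec_eq_zero_iff]
    refine ⟨x, hx, ?_⟩
    have h3 : (W - μ • (1 : Matrix m m L)).toSquareBlock b k =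
        W.toSquareBlock b k - μ • 1 := by
      ext i j
      simp [Matrix.toSquareBlock_def, Matrix.one_apply, Subtype.ext_iff]
    rw [h3, Matrix.sub_mulVec, hw, Matrix.smul_mulVec, Matrix.one_mulVec, sub_self]
  have hk : k ∈ Finset.univ.image b := by
    by_contra hk
    apply hx
    funext i
    exact absurd (Finset.mem_image.mpr ⟨i.1, Finset.mem_univ _, i.2⟩) hk
  have h3 : (W - μ • (1 : Matrix m m L)).det = 0 := by
    rw [h1.det]
    exact Finset.prod_eq_zero hk h2
  rw [← Matrix.exists_mulVec_eq_zero_iff] at h3
  obtain ⟨y, hy, hy'⟩ := h3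
  rw [Matrix.sub_mulVec, Matrix.smul_mulVec, Matrix.one_mulVec, sub_eq_zero] at hy'
  refine hG w μ y hy ?_
  rw [act_toLin']
  exact hy'

/-- block triangular representations with good diagonal blocks are good -/
lemma Good.block [Finite A] {T : A → Matrix m m L} (hT : ∀ a, (T a).BlockTriangular b)
    (h : ∀ k, Good K (fun a => Matrix.toLin' ((T a).toSquareBlock b k))) :
    Good K (fun a => Matrix.toLin' (T a)) := by
  classical
  intro x
  set X : List A → m → L := fun w => act (fun a => Matrix.toLin' (T a)) w x with hX
  have hXc : ∀ a w i, X (a :: w) i = ∑ j, T a i j * X w j := by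
    intro a w i
    simp only [hX]
    rw [act_cons, Module.End.mul_apply, Matrix.toLin'_apply]
    rfl
  have step : ∀ k, (∀ j, k < b j → (fun w => X w j) ∈ Spn K L A) →
      ∀ j, b j = k → (fun w => X w j) ∈ Spn K L A := by
    intro k hk
    have hZ : VS K L (fun w => (fun i : {i // b i = k} => X w i)) := by
      refine VS.solve (fun a => Matrix.toLin' ((T a).toSquareBlock b k)) (h k) _
        (fun a w => fun i : {i // b i = k} => ∑ j ∈ Finset.univ.filter (fun j => k < b j),
          T a i j * X w j) ?_ ?_
      · intro a w
        funext i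
        rw [Pi.add_apply, hXc, Matrix.toLin'_apply, Matrix.mulVec, dotProduct]
        rw [← Finset.sum_filter_add_sum_filter_not Finset.univ (fun l => b l = k)]
        congr 1
        · simp only [Matrix.toSquareBlock_def, Matrix.of_apply]
          exact Finset.sum_subtype (Finset.univ.filter fun l => b l = k) (by simp)
            (fun l => T a i l * X w l)
        · symm
          refine Finset.sum_subset (fun j hj => ?_) (fun j hj hj' => ?_)
          · simp only [Finset.mem_filter, Finset.mem_univ, true_and] at hj ⊢
            omega
          · simp only [Finset.mem_filter, Finset.mem_univ, true_and] at hj hj'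
            have h5 : b j < b i := by rw [i.2]; omega
            rw [hT a h5, zero_mul]
      · intro a μ
        have h6 : (fun w => μ (fun i : {i // b i = k} =>
            ∑ j ∈ Finset.univ.filter (fun j => k < b j), T a i j * X w j)) =
            ∑ j ∈ Finset.univ.filter (fun j => k < b j),
              μ (fun i : {i // b i = k} => T a i j) • (fun w => X w j) := by
          funext w
          have h7 : (fun i : {i // b i = k} =>
              ∑ j ∈ Finset.univ.filter (fun j => k < b j), T a i j * X w j) =
              ∑ j ∈ Finset.univ.filter (fun j => k < b j),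
                X w j • (fun i : {i // b i = k} => T a i j) := by
            funext i
            simp only [Finset.sum_apply, Pi.smul_apply, smul_eq_mul]
            exact Finset.sum_congr rfl fun j _ => mul_comm _ _
          rw [h7, map_sum]
          simp only [map_smul, Finset.sum_apply, Pi.smul_apply, smul_eq_mul]
          exact Finset.sum_congr rfl fun j _ => mul_comm _ _
        rw [h6]
        refine Submodule.sum_mem _ fun j hj => Submodule.smul_mem _ _ (hk j ?_)
        simpa using hj
    intro j hj
    exact hZ (LinearMap.proj (⟨j, hj⟩ : {i // b i = k}))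
  have all : ∀ n k, (Finset.univ.sup b) < k + n → ∀ j, b j = k →
      (fun w => X w j) ∈ Spn K L A := by
    intro n
    induction n with
    | zero =>
      intro k hk j hj
      have : b j ≤ Finset.univ.sup b := Finset.le_sup (Finset.mem_univ j)
      omega
    | succ n ih =>
      intro k hk
      refine step k fun j hj => ih (b j) (by omega) j rfl
  intro μ
  have h8 : (fun w => μ (X w)) = ∑ j, μ (Pi.single j 1) • (fun w => X w j) := by
    funext w
    have h9 : X w = ∑ j, X w j • (Pi.single j (1 : L) : m → L) := by
      funext i
      simp [Finset.sum_apply, Pi.single_apply]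
    conv_lhs => rw [h9]
    simp only [map_sum, map_smul, Finset.sum_apply, Pi.smul_apply, smul_eq_mul]
    exact Finset.sum_congr rfl fun j _ => mul_comm _ _
  rw [h8]
  exact Submodule.sum_mem _ fun j _ => Submodule.smul_mem _ _
    (all (Finset.univ.sup b + 1) (b j) (by omega) j rfl)

end block

end Pool.Agent.Helper68.WA
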