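import Pool.Agent.Helper68.WA.Orbit
import Pool.Agent.Helper68.WA.Block

set_option autoImplicit false
set_option linter.unusedSectionVars false

/-!
# Polynomially ambiguous blocks over the closure
-/

namespace Pool.Agent.Helper68.WA

open Matrix Module

universe u v

variable {K : Type u} {L : Type v} {A : Type*} [Field K] [Field L] [Algebra K L]

section

variable {n : Type*} [Fintype n] [DecidableEq n]

/-- paths with intermediate states in `S` along nonzero entries, with their weights -/
inductive PW (T : A → Matrix n n L) (S : Set n) : n → List A → n → L → Prop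
  | nil (p : n) : PW T S p [] p 1
  | single (p q : n) (a : A) (h : T a p q ≠ 0) : PW T S p [a] q (T a p q)
  | cons (p p' q : n) (a : A) (w : List A) (κ : L) (h : T a p p' ≠ 0) (hp : p' ∈ S)
      (hw : PW T S p' w q κ) : PW T S p (a :: w) q (T a p p' * κ)

lemma PW.mono {T : A → Matrix n n L} {S S' : Set n} (hS : S ⊆ S') {p q : n} {w : List A} {κ : L}
    (h : PW T S p w q κ) : PW T S' p w q κ := by
  induction h with
  | nil p => exact PW.nil p
  | single p q a h => exact PW.single p q a h
  | cons p p' q a w κ h hp _ ih => exact PW.cons p p' q a w κ h (hS hp) ih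

lemma PW.append {T : A → Matrix n n L} {p q r : n} {u w : List A} {κ κ' : L}
    (h : PW T Set.univ p u q κ) (h' : PW T Set.univ q w r κ') :
    PW T Set.univ p (u ++ w) r (κ * κ') := by
  induction h with
  | nil p => simpa using h'
  | single p q a h => exact PW.cons p q r a w κ' h trivial h'
  | cons p p' q a w κ h hp _ ih =>
    rw [mul_assoc]
    exact PW.cons p p' r a _ _ h trivial (ih h')

lemma PW.ne_zero {T : A → Matrix n n L} {S : Set n} {p q : n} {w : List A} {κ : L}
    (h : PW T S p w q κ) : κ ≠ 0 := by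
  induction h with
  | nil p => exact one_ne_zero
  | single p q a h => exact h
  | cons p p' q a w κ h hp _ ih => exact mul_ne_zero h ih

lemma PW.kleene {T : A → Matrix n n L} {S : Set n} {s : n} {p q : n} {w : List A} {κ : L}
    (h : PW T (insert s S) p w q κ) : PW T S p w q κ ∨ ∃ κ1 κ2 κ3 : L, κ = κ1 * κ2 * κ3 ∧
      (∃ u, PW T S p u s κ1) ∧ (∃ x, PW T Set.univ s x s κ2) ∧ (∃ v, PW T S s v q κ3) := by
  induction h with
  | nil p => exact Or.inl (PW.nil p)
  | single p q a h => exact Or.inl (PW.single p q a h)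
  | cons p p' q a w κ h hp hw ih =>
    rcases hp with rfl | hp
    · right
      rcases ih with ih | ⟨κ1, κ2, κ3, rfl, ⟨u, hu⟩, ⟨x, hx⟩, ⟨v, hv⟩⟩
      · exact ⟨T a p p', 1, κ, by ring, ⟨[a], PW.single p p' a h⟩, ⟨[], PW.nil p'⟩, ⟨w, ih⟩⟩
      · exact ⟨T a p p', κ1 * κ2, κ3, by ring, ⟨[a], PW.single p p' a h⟩,
          ⟨u ++ x, (hu.mono (Set.subset_univ _)).append hx⟩, ⟨v, hv⟩⟩
    · rcases ih with ih | ⟨κ1, κ2, κ3, rfl, ⟨u, hu⟩, ⟨x, hx⟩, ⟨v, hv⟩⟩
      · exact Or.inl (PW.cons p p' q a w κ h hp ih)
      · exact Or.inr ⟨T a p p' * κ1, κ2, κ3, by ring,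
          ⟨a :: u, PW.cons p p' s a u κ1 h hp hu⟩, ⟨x, hx⟩, ⟨v, hv⟩⟩

/-- finitely many classes of path weights -/
lemma finite_classes [Finite A] (T : A → Matrix n n L)
    (R1 : Set L) (hR1 : R1.Finite)
    (hcyc : ∀ s x κ, PW T Set.univ s x s κ → ∃ c : K, ∃ r ∈ R1, κ = algebraMap K L c * r)
    (S : Finset n) : ∃ R : Set L, R.Finite ∧ ∀ p q w κ, PW T (S : Set n) p w q κ →
      ∃ c : K, ∃ r ∈ R, κ = algebraMap K L c * r := by
  classical
  induction S using Finset.induction_on with
  | empty =>
    refine ⟨insert 1 (Set.range fun t : A × n × n => T t.1 t.2.1 t.2.2),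
      (Set.finite_range _).insert 1, ?_⟩
    intro p q w κ h
    rw [Finset.coe_empty] at h
    cases h
    · exact ⟨1, 1, Set.mem_insert _ _, by simp⟩
    · rename_i a _
      exact ⟨1, T a p q, Set.mem_insert_of_mem _ ⟨(a, p, q), rfl⟩, by simp⟩
    · rename_i hp _ _
      exact absurd hp (Set.notMem_empty _)
  | insert s S _ ih =>
    obtain ⟨R, hR, h⟩ := ih
    refine ⟨R ∪ (fun t : L × L × L => t.1 * t.2.1 * t.2.2) '' (R ×ˢ (R1 ×ˢ R)),
      hR.union ((hR.prod (hR1.prod hR)).image _), ?_⟩
    intro p q w κ hw
    rw [Finset.coe_insert] at hw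
    rcases hw.kleene with h1 | ⟨κ1, κ2, κ3, rfl, ⟨u, hu⟩, ⟨x, hx⟩, ⟨v, hv⟩⟩
    · obtain ⟨c, r, hr, h2⟩ := h _ _ _ _ h1
      exact ⟨c, r, Or.inl hr, h2⟩
    · obtain ⟨c1, r1, hr1, h1⟩ := h _ _ _ _ hu
      obtain ⟨c2, r2, hr2, h2⟩ := hcyc _ _ _ hx
      obtain ⟨c3, r3, hr3, h3⟩ := h _ _ _ _ hv
      refine ⟨c1 * c2 * c3, r1 * r2 * r3, Or.inr ⟨(r1, r2, r3), ⟨hr1, hr2, hr3⟩, rfl⟩, ?_⟩
      rw [h1, h2, h3]
      simp only [map_mul]
      ring

/-- path counts -/
noncomputable def cntM (T : A → Matrix n n L) (w : List A) : Matrix n n ℕ :=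
  (w.map fun a => Matrix.of fun p q => ind (T a p q)).prod

lemma cntM_cons (T : A → Matrix n n L) (a : A) (w : List A) (p q : n) :
    cntM T (a :: w) p q = ∑ p', ind (T a p p') * cntM T w p' q := by
  simp [cntM, Matrix.mul_apply]

lemma cntM_append (T : A → Matrix n n L) (u w : List A) :
    cntM T (u ++ w) = cntM T u * cntM T w := by
  simp [cntM]

lemma PW.cnt_pos {T : A → Matrix n n L} {S : Set n} {p q : n} {w : List A} {κ : L}
    (h : PW T S p w q κ) : 1 ≤ cntM T w p q := by
  induction h with
  | nil p => simp [cntM]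
  | single p q a h =>
    rw [cntM_cons]
    refine le_trans ?_ (Finset.single_le_sum (f := fun p' => ind (T a p p') * cntM T [] p' q)
      (fun _ _ => Nat.zero_le _) (Finset.mem_univ q))
    simp [cntM, ind_of_ne h]
  | cons p p' q a w κ h hp _ ih =>
    rw [cntM_cons]
    refine le_trans ?_ (Finset.single_le_sum (f := fun p' => ind (T a p p') * cntM T w p' q)
      (fun _ _ => Nat.zero_le _) (Finset.mem_univ p'))
    simpa [ind_of_ne h] using ih

lemma entry_zero_of_cnt {T : A → Matrix n n L} (w : List A) : ∀ p q,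
    cntM T w p q = 0 → (w.map T).prod p q = 0 := by
  induction w with
  | nil =>
    intro p q h
    simp only [cntM, List.map_nil, List.prod_nil] at h ⊢
    by_cases hpq : p = q
    · subst hpq; simp at h
    · exact Matrix.one_apply_ne hpq
  | cons a w ih =>
    intro p q h
    rw [cntM_cons, Finset.sum_eq_zero_iff] at h
    rw [List.map_cons, List.prod_cons, Matrix.mul_apply]
    refine Finset.sum_eq_zero fun p' _ => ?_
    rcases Nat.mul_eq_zero.mp (h p' (Finset.mem_univ _)) with h1 | h1
    · have h2 : T a p p' = 0 := by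
        by_contra h3
        rw [ind_of_ne h3] at h1
        exact one_ne_zero h1
      rw [h2, zero_mul]
    · rw [ih p' q h1, mul_zero]

lemma PW.entry_eq {T : A → Matrix n n L} {S : Set n} {p q : n} {w : List A} {κ : L}
    (h : PW T S p w q κ) (hc : cntM T w p q = 1) : (w.map T).prod p q = κ := by
  induction h with
  | nil p => simp
  | single p q a h => simp
  | cons p p' q a w κ h hp hw ih =>
    rw [cntM_cons] at hc
    have h1 : 1 ≤ ind (T a p p') * cntM T w p' q := by
      rw [ind_of_ne h, one_mul]; exact hw.cnt_pos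
    rw [← Finset.add_sum_erase _ _ (Finset.mem_univ p')] at hc
    have h2 : ind (T a p p') * cntM T w p' q = 1 := by omega
    have h3 : ∑ x ∈ Finset.univ.erase p', ind (T a p x) * cntM T w x q = 0 := by omega
    rw [ind_of_ne h, one_mul] at h2
    rw [List.map_cons, List.prod_cons, Matrix.mul_apply,
      ← Finset.add_sum_erase _ _ (Finset.mem_univ p'), ih h2]
    rw [Finset.sum_eq_zero_iff] at h3
    have h4 : ∑ x ∈ Finset.univ.erase p', T a p x * (w.map T).prod x q = 0 := by
      refine Finset.sum_eq_zero fun x hx => ?_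
      rcases Nat.mul_eq_zero.mp (h3 x hx) with h5 | h5
      · have h6 : T a p x = 0 := by
          by_contra h7
          rw [ind_of_ne h7] at h5
          exact one_ne_zero h5
        rw [h6, zero_mul]
      · rw [entry_zero_of_cnt w x q h5, mul_zero]
    rw [h4, add_zero]

/-- `v` repeated `k` times -/
def rep (v : List A) (k : ℕ) : List A := (List.replicate k v).flatten

lemma rep_zero (v : List A) : rep v 0 = [] := rfl
lemma rep_succ (v : List A) (k : ℕ) : rep v (k + 1) = v ++ rep v k := by
  simp [rep, List.replicate_succ]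

lemma rep_length (v : List A) (k : ℕ) : (rep v k).length = k * v.length := by
  simp [rep]

lemma rep_prod {M : Type*} [Monoid M] (f : A → M) (v : List A) (k : ℕ) :
    ((rep v k).map f).prod = ((v.map f).prod) ^ k := by
  induction k with
  | zero => simp [rep_zero]
  | succ k ih => rw [rep_succ, List.map_append, List.prod_append, ih, pow_succ']

lemma PW.rep {T : A → Matrix n n L} {p : n} {v : List A} {κ : L}
    (h : PW T Set.univ p v p κ) (k : ℕ) : PW T Set.univ p (rep v k) p (κ ^ k) := by
  induction k with
  | zero => simpa [rep_zero] using PW.nil (T := T) (S := Set.univ) p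
  | succ k ih => rw [rep_succ, pow_succ']; exact h.append ih

lemma pow_le_entry (N : Matrix n n ℕ) (p : n) (k : ℕ) : (N p p) ^ k ≤ (N ^ k) p p := by
  induction k with
  | zero => simp
  | succ k ih =>
    rw [pow_succ', pow_succ', Matrix.mul_apply]
    exact le_trans (Nat.mul_le_mul_left _ ih) (Finset.single_le_sum
      (f := fun x => N p x * (N ^ k) x p) (fun _ _ => Nat.zero_le _) (Finset.mem_univ p))

lemma exists_poly_lt (C l k : ℕ) : ∃ m : ℕ, C * (m * l + 1) ^ k < 2 ^ m := by
  have h1 := (isLittleO_pow_const_const_pow_of_one_lt (R := ℝ) k (r := 2) one_lt_two)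
  have hpos : (0 : ℝ) < 1 / ((C + 1) * (l + 1) ^ k * 2 ^ k) := by positivity
  have h2 := (h1.def hpos).exists_forall_of_atTop
  obtain ⟨m0, hm0⟩ := h2
  refine ⟨m0 + 1, ?_⟩
  have h3 := hm0 (m0 + 1) (Nat.le_succ _)
  rw [Real.norm_of_nonneg (by positivity), Real.norm_of_nonneg (by positivity)] at h3
  have h4 : ((C + 1) * (l + 1) ^ k * 2 ^ k : ℝ) * ((m0 + 1 : ℕ) : ℝ) ^ k ≤ 2 ^ (m0 + 1) := by
    have h5 : (0 : ℝ) < (C + 1) * (l + 1) ^ k * 2 ^ k := by positivity
    calc ((C + 1) * (l + 1) ^ k * 2 ^ k : ℝ) * ((m0 + 1 : ℕ) : ℝ) ^ k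
        ≤ ((C + 1) * (l + 1) ^ k * 2 ^ k : ℝ) *
          (1 / ((C + 1) * (l + 1) ^ k * 2 ^ k) * 2 ^ (m0 + 1)) :=
          mul_le_mul_of_nonneg_left h3 h5.le
      _ = 2 ^ (m0 + 1) := by field_simp
  have h6 : (C + 1) * (l + 1) ^ k * 2 ^ k * (m0 + 1) ^ k ≤ 2 ^ (m0 + 1) := by
    exact_mod_cast h4
  have h7 : ((m0 + 1) * l + 1) ^ k ≤ ((l + 1) * 2 * (m0 + 1)) ^ k :=
    Nat.pow_le_pow_left (by nlinarith) k
  have h8 : 0 < ((l + 1) * 2 * (m0 + 1)) ^ k := by positivity
  calc C * ((m0 + 1) * l + 1) ^ k ≤ C * ((l + 1) * 2 * (m0 + 1)) ^ k :=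
        Nat.mul_le_mul_left _ h7
    _ < (C + 1) * ((l + 1) * 2 * (m0 + 1)) ^ k := by
        exact Nat.mul_lt_mul_of_pos_right (Nat.lt_succ_self C) h8
    _ = (C + 1) * (l + 1) ^ k * 2 ^ k * (m0 + 1) ^ k := by rw [mul_pow, mul_pow]; ring
    _ ≤ 2 ^ (m0 + 1) := h6

/-- weights of cycles are eigenvalues -/
lemma cycle_mem {T : A → Matrix n n L} {G : Set L}
    (hG : EigIn (fun a => Matrix.toLin' (T a)) G) (C k : ℕ)
    (hamb : ∀ w p q, cntM T w p q ≤ C * (w.length + 1) ^ k)
    {p : n} {v : List A} {κ : L} (h : PW T Set.univ p v p κ) : κ ∈ G := by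
  have h1 : ∀ v : List A, ∀ κ : L, PW T Set.univ p v p κ → cntM T v p p = 1 := by
    intro v κ h
    have h2 := h.cnt_pos
    by_contra h3
    have h4 : 2 ≤ cntM T v p p := by omega
    obtain ⟨m, hm⟩ := exists_poly_lt C v.length k
    have h5 := hamb (WA.rep v m) p p
    rw [rep_length, cntM, rep_prod] at h5
    have h6 := pow_le_entry (cntM T v) p m
    have h7 : 2 ^ m ≤ cntM T v p p ^ m := Nat.pow_le_pow_left h4 m
    have h8 : (cntM T v ^ m) p p ≤ C * (m * v.length + 1) ^ k := h5
    omega
  have h2 : ∀ m, ((v.map T).prod ^ m) p p = κ ^ m := by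
    intro m
    have h3 := h.rep m
    have h4 := h3.entry_eq (h1 _ _ h3)
    rwa [rep_prod] at h4
  set W := (v.map T).prod with hW
  have h3 : W.charpoly.eval κ = 0 := by
    have h4 := Matrix.aeval_self_charpoly W
    have h5 := congrFun (congrFun h4 p) p
    rw [Polynomial.aeval_eq_sum_range, Matrix.sum_apply] at h5
    rw [Polynomial.eval_eq_sum_range]
    simpa [h2] using h5
  have h4 : (Matrix.scalar n κ - W).det = 0 := by
    rw [← Matrix.eval_charpoly]; exact h3
  rw [← Matrix.exists_mulVec_eq_zero_iff] at h4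
  obtain ⟨y, hy, hy'⟩ := h4
  refine hG v κ y hy ?_
  rw [act_toLin', ← hW]
  rw [Matrix.sub_mulVec, sub_eq_zero] at hy'
  rw [← hy']
  simp

/-- a polynomially ambiguous block over the closure, with controlled eigenvalues, is good -/
theorem Good.of_amb [Finite A] (T : A → Matrix n n L) {G : Set L}
    (hG : EigIn (fun a => Matrix.toLin' (T a)) G) (R1 : Set L) (hR1 : R1.Finite)
    (hGR : ∀ g ∈ G, ∃ c : K, ∃ r ∈ R1, g = algebraMap K L c * r) (C k : ℕ)
    (hamb : ∀ w p q, cntM T w p q ≤ C * (w.length + 1) ^ k) :
    Good K (fun a => Matrix.toLin' (T a)) := by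
  classical
  obtain ⟨R, hR, hcl⟩ := finite_classes (K := K) T R1 hR1
    (fun s x κ h => hGR κ (cycle_mem hG C k hamb h)) Finset.univ
  rw [Finset.coe_univ] at hcl
  have entry : ∀ p0 qf : n, (fun w => (w.map T).prod p0 qf) ∈ Spn K L A := by
    intro p0 qf
    -- the class `1`
    obtain ⟨k0, r0, hr0, h0⟩ := hcl p0 p0 [] 1 (PW.nil p0)
    have : Fintype R := hR.fintype
    let e : R ≃ Fin (Fintype.card R) := Fintype.equivFin R
    let en : n ≃ Fin (Fintype.card n) := Fintype.equivFin n
    -- choice of representatives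
    let P : L → Prop := fun t => ∃ c : K, ∃ r ∈ R, t = algebraMap K L c * r
    have hch : ∀ t : L, ∃ c : K, ∃ r : R, (P t → t = algebraMap K L c * (r : L)) ∧
        (t = 0 → c = 0) := by
      intro t
      by_cases ht : t = 0
      · exact ⟨0, ⟨r0, hr0⟩, fun _ => by rw [ht]; simp, fun _ => rfl⟩
      · by_cases hP : P t
        · obtain ⟨c, r, hr, h⟩ := hP
          exact ⟨c, ⟨r, hr⟩, fun _ => h, fun h => absurd h ht⟩
        · exact ⟨0, ⟨r0, hr0⟩, fun h => absurd h hP, fun _ => rfl⟩
    choose cf rf hcr hcz using hch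
    let X : R → WAut K A (n × R) := fun s =>
      { init := fun x => if x = (p0, ⟨r0, hr0⟩) then k0 else 0
        tr := fun a => Matrix.of fun x y => if y.2 = rf ((x.2 : L) * T a x.1 y.1) then
          cf ((x.2 : L) * T a x.1 y.1) else 0
        fin := fun x => if x = (qf, s) then 1 else 0 }
    have good : ∀ w (x : n × R), (∃ u κ, PW T Set.univ p0 u x.1 κ ∧ ∃ c : K, c ≠ 0 ∧
        κ = algebraMap K L c * (x.2 : L)) →
        ∑ s, algebraMap K L ((X s).vec w x) * (s : L) = (x.2 : L) * (w.map T).prod x.1 qf := by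
      intro w
      induction w with
      | nil =>
        rintro ⟨q, r⟩ _
        simp only [WAut.vec_nil, X, List.map_nil, List.prod_nil, Prod.mk.injEq]
        by_cases hq : q = qf
        · subst hq
          rw [Finset.sum_eq_single r]
          · simp
          · intro s _ hs
            simp [Ne.symm hs]
          · simp
        · simp [hq, Matrix.one_apply_ne hq]
      | cons a w ih =>
        rintro ⟨q, r⟩ ⟨u, κ, hu, c, hc, hκ⟩
        have hr0' : (r : L) ≠ 0 := by
          intro h
          apply hu.ne_zero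
          rw [hκ]
          simp [h]
        have step : ∀ q' : n, ∑ s, algebraMap K L
            (∑ r' : R, (X s).tr a (q, r) (q', r') * (X s).vec w (q', r')) * (s : L) =
            (r : L) * T a q q' * (w.map T).prod q' qf := by
          intro q'
          have e1 : ∀ s : R, ∑ r' : R, (X s).tr a (q, r) (q', r') * (X s).vec w (q', r') =
              cf ((r : L) * T a q q') * (X s).vec w (q', rf ((r : L) * T a q q')) := by
            intro s
            rw [Finset.sum_eq_single (rf ((r : L) * T a q q'))]
            · simp [X]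
            · intro r' _ hr'
              simp [X, hr']
            · simp
          simp only [e1]
          by_cases ht : T a q q' = 0
          · simp [ht, hcz 0 rfl]
          · have hPW : PW T Set.univ p0 (u ++ [a]) q' (κ * T a q q') :=
              hu.append (PW.single q q' a ht)
            obtain ⟨c', r', hr', h'⟩ := hcl _ _ _ _ hPW
            have hcL : algebraMap K L c ≠ 0 := by rw [Ne, map_eq_zero]; exact hc
            have hPt : P ((r : L) * T a q q') := by
              refine ⟨c⁻¹ * c', r', hr', ?_⟩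
              rw [map_mul, map_inv₀, mul_assoc, ← h', hκ]
              field_simp
            have e3 := hcr _ hPt
            have hcf : cf ((r : L) * T a q q') ≠ 0 := by
              intro h
              rw [h, map_zero, zero_mul] at e3
              exact (mul_ne_zero hr0' ht) e3
            have e4 := ih (q', rf ((r : L) * T a q q')) ⟨u ++ [a], κ * T a q q', hPW,
              c * cf ((r : L) * T a q q'), mul_ne_zero hc hcf, by
                rw [hκ, map_mul, mul_assoc, mul_assoc, ← e3]⟩
            simp only at e4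
            simp only [map_mul, mul_assoc]
            rw [← Finset.mul_sum]
            have e5 : ∑ i : R, algebraMap K L ((X i).vec w (q', rf ((r : L) * T a q q'))) *
                (i : L) = (rf ((r : L) * T a q q') : L) * (w.map T).prod q' qf := e4
            rw [e5, ← mul_assoc, ← e3, mul_assoc]
        have e6 : ∀ s : R, (X s).vec (a :: w) (q, r) =
            ∑ q', ∑ r' : R, (X s).tr a (q, r) (q', r') * (X s).vec w (q', r') := by
          intro s
          rw [WAut.vec_cons, Matrix.mulVec, dotProduct, Fintype.sum_prod_type]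
        simp only [e6, map_sum, Finset.sum_mul]
        rw [Finset.sum_comm]
        rw [List.map_cons, List.prod_cons, Matrix.mul_apply, Finset.mul_sum]
        refine Finset.sum_congr rfl fun q' _ => ?_
        have e7 := step q'
        simp only [map_sum, Finset.sum_mul] at e7
        rw [e7]
        ring
    have hcnt : ∀ (s : R) w (x : n × R), (X s).supp.vec w x ≤ cntM T w x.1 qf := by
      intro s w
      induction w with
      | nil =>
        rintro ⟨q, r⟩
        by_cases hq : q = qf
        · subst hq
          refine (ind_le_one _).trans ?_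
          simp [cntM]
        · have : (X s).supp.vec [] (q, r) = 0 := by
            simp [WAut.supp, X, hq]
          rw [this]
          exact Nat.zero_le _
      | cons a w ih =>
        rintro ⟨q, r⟩
        rw [WAut.vec_cons, Matrix.mulVec, dotProduct, Fintype.sum_prod_type, cntM_cons]
        refine Finset.sum_le_sum fun q' _ => ?_
        rw [Finset.sum_eq_single (rf ((r : L) * T a q q'))]
        · refine Nat.mul_le_mul ?_ (ih _)
          by_cases ht : T a q q' = 0
          · have e2 : cf ((r : L) * T a q q') = 0 := hcz _ (by rw [ht, mul_zero])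
            simp [WAut.supp, X, e2]
          · rw [ind_of_ne ht]
            exact ind_le_one _
        · intro r' _ hr'
          simp [WAut.supp, X, hr']
        · simp
    have hPA : ∀ s : R, PA (X s).val := by
      intro s
      let en : n × R ≃ Fin (Fintype.card (n × R)) := Fintype.equivFin (n × R)
      let Y : WAut K A (Fin (Fintype.card (n × R))) :=
        ⟨fun i => (X s).init (en.symm i), fun a => ((X s).tr a).submatrix en.symm en.symm,
          fun i => (X s).fin (en.symm i)⟩
      have hv : ∀ w i, Y.vec w i = (X s).vec w (en.symm i) := by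
        intro w
        induction w with
        | nil => intro i; rfl
        | cons a w ih =>
          intro i
          rw [WAut.vec_cons, WAut.vec_cons, Matrix.mulVec, Matrix.mulVec, dotProduct,
            dotProduct]
          refine Fintype.sum_equiv en.symm _ _ fun j => ?_
          rw [ih]
          rfl
      have hs : ∀ w i, Y.supp.vec w i = (X s).supp.vec w (en.symm i) := by
        intro w
        induction w with
        | nil => intro i; rfl
        | cons a w ih =>
          intro i
          rw [WAut.vec_cons, WAut.vec_cons, Matrix.mulVec, Matrix.mulVec, dotProduct,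
            dotProduct]
          refine Fintype.sum_equiv en.symm _ _ fun j => ?_
          rw [ih]
          rfl
      refine ⟨Fin (Fintype.card (n × R)), inferInstance, Y, fun w => ?_, C, k, fun w => ?_⟩
      · rw [WAut.val, WAut.val, dotProduct, dotProduct]
        refine Fintype.sum_equiv en.symm _ _ fun j => ?_
        rw [hv]
      · have h1 : Y.supp.val w = (X s).supp.val w := by
          rw [WAut.val, WAut.val, dotProduct, dotProduct]
          refine Fintype.sum_equiv en.symm _ _ fun j => ?_
          rw [hs]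
          rfl
        rw [h1, WAut.val, dotProduct, Finset.sum_eq_single (p0, ⟨r0, hr0⟩)]
        · calc _ ≤ 1 * cntM T w p0 qf := Nat.mul_le_mul (ind_le_one _) (hcnt s w _)
            _ ≤ C * (w.length + 1) ^ k := by rw [one_mul]; exact hamb w p0 qf
        · intro x _ hx
          simp [WAut.supp, X, hx]
        · simp
    have hk0 : k0 ≠ 0 := by
      rintro rfl
      rw [map_zero, zero_mul] at h0
      exact one_ne_zero h0
    have fin1 : (fun w => (w.map T).prod p0 qf) =
        ∑ s : R, (s : L) • fun w => algebraMap K L ((X s).val w) := by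
      funext w
      have h1 := good w (p0, ⟨r0, hr0⟩) ⟨[], 1, PW.nil p0, k0, hk0, h0⟩
      have h2 : ∀ s : R, (X s).val w = k0 * (X s).vec w (p0, ⟨r0, hr0⟩) := by
        intro s
        rw [WAut.val, dotProduct, Finset.sum_eq_single (p0, ⟨r0, hr0⟩)]
        · simp [X]
        · intro x _ hx
          simp [X, hx]
        · simp
      simp only [Finset.sum_apply, Pi.smul_apply, smul_eq_mul, h2, map_mul]
      have h3 : (w.map T).prod p0 qf = algebraMap K L k0 * (r0 * (w.map T).prod p0 qf) := by
        rw [← mul_assoc, ← h0, one_mul]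
      simp only at h1
      rw [h3, ← h1, Finset.mul_sum]
      exact Finset.sum_congr rfl fun s _ => by ring
    rw [fin1]
    exact Submodule.sum_mem _ fun s _ => Submodule.smul_mem _ _ (Spn.of_PA (hPA s))
  intro x μ
  have h8 : (fun w => μ (act (fun a => Matrix.toLin' (T a)) w x)) =
      ∑ p, ∑ q, (μ (Pi.single p 1) * x q) • (fun w => (w.map T).prod p q) := by
    funext w
    rw [act_toLin']
    have h9 : (w.map T).prod *ᵥ x =
        ∑ p, ((w.map T).prod *ᵥ x) p • (Pi.single p (1 : L) : n → L) := by
      funext i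
      simp [Finset.sum_apply, Pi.single_apply]
    rw [h9, map_sum]
    simp only [map_smul, Finset.sum_apply, Pi.smul_apply, smul_eq_mul, Matrix.mulVec, dotProduct,
      Finset.sum_mul]
    exact Finset.sum_congr rfl fun p _ => Finset.sum_congr rfl fun q _ => by ring
  rw [h8]
  exact Submodule.sum_mem _ fun p _ => Submodule.sum_mem _ fun q _ =>
    Submodule.smul_mem _ _ (entry p q)

end

end Pool.Agent.Helper68.WA
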