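import Mathlib

set_option autoImplicit false
set_option linter.unusedSectionVars false

/-!
# Weighted automata and polynomial ambiguity: closure properties
-/

namespace Pool.Agent.Helper68.WA

open Matrix

/-- A weighted automaton with weights in `R`, alphabet `A` and set of states `Q`. -/
structure WAut (R A Q : Type*) where
  init : Q → R
  tr : A → Matrix Q Q R
  fin : Q → R

section semiring

variable {R A : Type*} [CommSemiring R] {Q Q' : Type*} [Fintype Q] [Fintype Q']

/-- vector of values of the suffix `w` -/
def WAut.vec (X : WAut R A Q) : List A → Q → R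
  | [] => X.fin
  | a :: w => X.tr a *ᵥ X.vec w

/-- value on a word, recursive form -/
def WAut.val (X : WAut R A Q) (w : List A) : R := X.init ⬝ᵥ X.vec w

@[simp] lemma WAut.vec_nil (X : WAut R A Q) : X.vec [] = X.fin := rfl
@[simp] lemma WAut.vec_cons (X : WAut R A Q) (a : A) (w : List A) :
    X.vec (a :: w) = X.tr a *ᵥ X.vec w := rfl

lemma WAut.vec_eq [DecidableEq Q] (X : WAut R A Q) (w : List A) :
    X.vec w = (w.map X.tr).prod *ᵥ X.fin := by
  induction w with
  | nil => simp
  | cons a w ih => rw [WAut.vec_cons, ih, List.map_cons, List.prod_cons, Matrix.mulVec_mulVec]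

/-- disjoint union -/
def WAut.sum (X : WAut R A Q) (Y : WAut R A Q') : WAut R A (Q ⊕ Q') where
  init := Sum.elim X.init Y.init
  tr a := Matrix.fromBlocks (X.tr a) 0 0 (Y.tr a)
  fin := Sum.elim X.fin Y.fin

lemma WAut.sum_vec (X : WAut R A Q) (Y : WAut R A Q') (w : List A) :
    (X.sum Y).vec w = Sum.elim (X.vec w) (Y.vec w) := by
  induction w with
  | nil => rfl
  | cons a w ih =>
    rw [WAut.vec_cons, ih]
    simp [WAut.sum, Matrix.fromBlocks_mulVec]

lemma WAut.sum_val (X : WAut R A Q) (Y : WAut R A Q') (w : List A) :
    (X.sum Y).val w = X.val w + Y.val w := by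
  rw [WAut.val, WAut.sum_vec, WAut.val, WAut.val]
  simp [WAut.sum]

/-- marked Cauchy product -/
def mc [DecidableEq A] (b : A) (f g : List A → R) : List A → R
  | [] => 0
  | a :: w => (if a = b then f [] * g w else 0) + mc b (fun u => f (a :: u)) g w

variable [DecidableEq A]

lemma mc_add_left (b : A) (g : List A → R) (w : List A) : ∀ f f' : List A → R,
    mc b (f + f') g w = mc b f g w + mc b f' g w := by
  induction w with
  | nil => intro f f'; simp [mc]
  | cons a w ih =>
    intro f f'
    have h := ih (fun u => f (a :: u)) (fun u => f' (a :: u))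
    have h2 : (fun u => (f + f') (a :: u)) =
        (fun u => f (a :: u)) + (fun u => f' (a :: u)) := rfl
    simp only [mc]
    rw [h2, h]
    split_ifs <;> simp [add_mul] <;> abel

lemma mc_smul_left (b : A) (g : List A → R) (c : R) (w : List A) : ∀ f : List A → R,
    mc b (c • f) g w = c * mc b f g w := by
  induction w with
  | nil => intro f; simp [mc]
  | cons a w ih =>
    intro f
    have h := ih (fun u => f (a :: u))
    have h2 : (fun u => (c • f) (a :: u)) = c • (fun u => f (a :: u)) := rfl
    simp only [mc]
    rw [h2, h]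
    split_ifs <;> simp [mul_add, mul_assoc]

lemma mc_add_right (b : A) (w : List A) : ∀ f g g' : List A → R,
    mc b f (g + g') w = mc b f g w + mc b f g' w := by
  induction w with
  | nil => intro f g g'; simp [mc]
  | cons a w ih =>
    intro f g g'
    simp only [mc]
    rw [ih]
    split_ifs <;> simp [mul_add] <;> abel

lemma mc_smul_right (b : A) (c : R) (w : List A) : ∀ f g : List A → R,
    mc b f (c • g) w = c * mc b f g w := by
  induction w with
  | nil => intro f g; simp [mc]
  | cons a w ih =>
    intro f g
    simp only [mc]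
    rw [ih]
    split_ifs <;> simp [mul_add, mul_left_comm]

lemma mc_map {S : Type*} [CommSemiring S] (φ : R →+* S) (b : A) (w : List A) :
    ∀ f g : List A → R,
    mc b (fun u => φ (f u)) (fun u => φ (g u)) w = φ (mc b f g w) := by
  induction w with
  | nil => intro f g; simp [mc]
  | cons a w ih =>
    intro f g
    simp only [mc]
    have h := ih (fun u => f (a :: u)) g
    rw [h]
    split_ifs <;> simp

/-- automaton for the marked Cauchy product -/
def WAut.mcAut (b : A) (X : WAut R A Q) (Y : WAut R A Q') : WAut R A (Q ⊕ Q') where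
  init := Sum.elim X.init 0
  tr a := Matrix.fromBlocks (X.tr a) (if a = b then vecMulVec X.fin Y.init else 0) 0 (Y.tr a)
  fin := Sum.elim 0 Y.fin

lemma WAut.mcAut_vec_inr (b : A) (X : WAut R A Q) (Y : WAut R A Q') (w : List A) (q : Q') :
    (WAut.mcAut b X Y).vec w (Sum.inr q) = Y.vec w q := by
  induction w generalizing q with
  | nil => rfl
  | cons a w ih =>
    rw [WAut.vec_cons, WAut.vec_cons]
    simp only [Matrix.mulVec, dotProduct, Fintype.sum_sum_type, ih]
    simp [WAut.mcAut]

lemma WAut.mcAut_vec_inl (b : A) (X : WAut R A Q) (Y : WAut R A Q') (w : List A) (x : Q → R) :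
    x ⬝ᵥ (fun q => (WAut.mcAut b X Y).vec w (Sum.inl q)) =
      mc b (fun u => x ⬝ᵥ X.vec u) Y.val w := by
  induction w generalizing x with
  | nil => simp [mc, WAut.mcAut, dotProduct]
  | cons a w ih =>
    have h1 : (fun q => (WAut.mcAut b X Y).vec (a :: w) (Sum.inl q)) =
        X.tr a *ᵥ (fun q => (WAut.mcAut b X Y).vec w (Sum.inl q)) +
          (if a = b then Y.val w • X.fin else 0) := by
      funext q
      rw [WAut.vec_cons]
      simp only [Matrix.mulVec, dotProduct, Fintype.sum_sum_type, Pi.add_apply,
        WAut.mcAut_vec_inr]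
      congr 1
      by_cases hab : a = b
      · simp only [WAut.mcAut, hab, Matrix.fromBlocks_apply₁₂, if_true, vecMulVec_apply,
          Pi.smul_apply, smul_eq_mul, WAut.val, dotProduct]
        rw [Finset.sum_mul]
        exact Finset.sum_congr rfl fun i _ => by ring
      · simp [WAut.mcAut, hab]
    rw [h1, dotProduct_add, Matrix.dotProduct_mulVec, ih]
    have h2 : (fun u => (x ᵥ* X.tr a) ⬝ᵥ X.vec u) = fun u => x ⬝ᵥ X.vec (a :: u) := by
      funext u
      rw [WAut.vec_cons, Matrix.dotProduct_mulVec]
    rw [h2]
    simp only [mc]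
    rw [add_comm]
    congr 1
    split_ifs with h
    · rw [dotProduct_smul, smul_eq_mul, mul_comm]
      rfl
    · simp

lemma WAut.mcAut_val (b : A) (X : WAut R A Q) (Y : WAut R A Q') (w : List A) :
    (WAut.mcAut b X Y).val w = mc b X.val Y.val w := by
  have h := WAut.mcAut_vec_inl b X Y w X.init
  have h2 : (WAut.mcAut b X Y).val w =
      X.init ⬝ᵥ (fun q => (WAut.mcAut b X Y).vec w (Sum.inl q)) := by
    rw [WAut.val, dotProduct, Fintype.sum_sum_type]
    simp [WAut.mcAut, dotProduct]
  rw [h2, h]
  rfl

end semiring

lemma mc_le {A : Type*} [DecidableEq A] (b : A) (g : List A → ℕ) (G : ℕ) (w : List A) :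
    ∀ (f : List A → ℕ) (F : ℕ), (∀ u : List A, u.length < w.length → f u ≤ F) →
      (∀ v : List A, v.length < w.length → g v ≤ G) → mc b f g w ≤ w.length * (F * G) := by
  induction w with
  | nil => intro f F _ _; simp [mc]
  | cons a w ih =>
    intro f F hf hg
    have h1 := ih (fun u => f (a :: u)) F (fun u hu => hf _ (by simpa using hu))
      (fun v hv => hg _ (by simp; omega))
    have h2 : (if a = b then f [] * g w else 0) ≤ F * G := by
      split_ifs
      · exact Nat.mul_le_mul (hf _ (by simp)) (hg _ (by simp))
      · exact Nat.zero_le _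
    calc mc b f g (a :: w) ≤ F * G + w.length * (F * G) := by
          simp only [mc]; exact Nat.add_le_add h2 h1
      _ = (a :: w).length * (F * G) := by rw [List.length_cons]; ring

end Pool.Agent.Helper68.WA
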