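import Pool.Agent.Helper68.WA.UnitR1

set_option autoImplicit false
set_option linter.unusedSectionVars false

/-!
# Irreducible matrix semigroups with eigenvalues in `{0} ∪ Φ g^ℤ`
-/

namespace Pool.Agent.Helper68.WA

open Matrix Module

section Eig

variable {n : Type*} [Fintype n] [DecidableEq n]

lemma exists_eigvec (Y : Matrix n n ℂ) {μ : ℂ} (h : (μ • (1 : Matrix n n ℂ) - Y).det = 0) :
    ∃ v, v ≠ 0 ∧ Y *ᵥ v = μ • v := by
  obtain ⟨v, hv, h1⟩ := Matrix.exists_mulVec_eq_zero_iff.mpr h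
  refine ⟨v, hv, ?_⟩
  rw [sub_mulVec, smul_mulVec, one_mulVec] at h1
  exact (sub_eq_zero.mp h1).symm

lemma det_of_eigvec (Y : Matrix n n ℂ) {μ : ℂ} {v : n → ℂ} (hv : v ≠ 0) (h : Y *ᵥ v = μ • v) :
    (μ • (1 : Matrix n n ℂ) - Y).det = 0 := by
  refine Matrix.exists_mulVec_eq_zero_iff.mp ⟨v, hv, ?_⟩
  rw [sub_mulVec, smul_mulVec, one_mulVec, h, sub_self]

lemma det_eq_roots (Y : Matrix n n ℂ) (μ : ℂ) :
    (μ • (1 : Matrix n n ℂ) - Y).det = (Y.charpoly.roots.map (fun a => μ - a)).prod := by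
  have h := Matrix.eval_charpoly Y μ
  rw [(IsAlgClosed.splits _).eval_eq_prod_roots, (charpoly_monic Y).leadingCoeff, one_mul] at h
  rw [h, Matrix.scalar_apply, Matrix.smul_one_eq_diagonal]

lemma root_eigvec (Y : Matrix n n ℂ) {a : ℂ} (ha : a ∈ Y.charpoly.roots) :
    ∃ v, v ≠ 0 ∧ Y *ᵥ v = a • v := by
  apply exists_eigvec
  rw [det_eq_roots]
  exact Multiset.prod_eq_zero (Multiset.mem_map.mpr ⟨a, ha, sub_self a⟩)

lemma mem_roots_of_eigvec (Y : Matrix n n ℂ) {a : ℂ} {v : n → ℂ} (hv : v ≠ 0)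
    (h : Y *ᵥ v = a • v) : a ∈ Y.charpoly.roots := by
  rw [Polynomial.mem_roots (charpoly_monic Y).ne_zero, Polynomial.IsRoot, Matrix.eval_charpoly,
    Matrix.scalar_apply, ← Matrix.smul_one_eq_diagonal]
  exact det_of_eigvec Y hv h

lemma card_roots (Y : Matrix n n ℂ) : Multiset.card Y.charpoly.roots = Fintype.card n := by
  rw [← charpoly_natDegree_eq_dim Y]
  exact Polynomial.splits_iff_card_roots.mp (IsAlgClosed.splits _)

lemma pow_le_norm_prod (s : Multiset ℂ) (δ : ℝ) (hδ : 0 ≤ δ) :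
    (∀ a ∈ s, δ ≤ ‖a‖) → δ ^ Multiset.card s ≤ ‖s.prod‖ := by
  induction s using Multiset.induction with
  | empty => intro _; simp
  | cons a s ih =>
    intro h
    rw [Multiset.card_cons, Multiset.prod_cons, norm_mul, pow_succ, mul_comm]
    exact mul_le_mul (h a (Multiset.mem_cons_self a s))
      (ih fun b hb => h b (Multiset.mem_cons_of_mem hb)) (by positivity) (norm_nonneg _)

lemma norm_prod_pow_le (s : Multiset ℂ) (ρ : ℕ) (b : ℝ) (hb : 0 ≤ b) :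
    (∀ a ∈ s, ‖a‖ ^ ρ ≤ b) → ‖s.prod‖ ^ ρ ≤ b ^ Multiset.card s := by
  induction s using Multiset.induction with
  | empty => intro _; simp
  | cons a s ih =>
    intro h
    rw [Multiset.card_cons, Multiset.prod_cons, norm_mul, mul_pow, pow_succ b, mul_comm (b ^ _)]
    exact mul_le_mul (h a (Multiset.mem_cons_self a s))
      (ih fun c hc => h c (Multiset.mem_cons_of_mem hc)) (by positivity) hb

end Eig

lemma Gam.zpow_smul {Φ : Set ℂ} {g z : ℂ} (hg0 : g ≠ 0) (hz : z ∈ Gam Φ g) (m : ℤ) :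
    g ^ m * z ∈ Gam Φ g := by
  rcases hz with rfl | ⟨ζ, hζ, k, rfl⟩
  · left; simp
  · right
    refine ⟨ζ, hζ, m + k, ?_⟩
    rw [zpow_add₀ hg0]
    ring

/-- closed multiplicative sets of matrices, stable under scaling by `g`, with eigenvalues in
`Gam Φ g` -/
structure Sys {n : Type*} [Fintype n] [DecidableEq n] (Φ : Set ℂ) (g : ℂ)
    (S : Set (Matrix n n ℂ)) : Prop where
  closed : IsClosed S
  mul : ∀ x ∈ S, ∀ y ∈ S, x * y ∈ S
  sc : ∀ m : ℤ, ∀ x ∈ S, g ^ m • x ∈ S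
  eig : ∀ x ∈ S, ∀ (μ : ℂ) (v : n → ℂ), v ≠ 0 → x *ᵥ v = μ • v → μ ∈ Gam Φ g

lemma exists_sys {n : Type*} [Fintype n] [DecidableEq n] {Φ : Set ℂ} (hΦ : Φ.Finite)
    (hΦ0 : (0 : ℂ) ∉ Φ) {g : ℂ} (hg : 1 < ‖g‖) (T : Submonoid (Matrix n n ℂ))
    (heig : ∀ M ∈ T, ∀ (μ : ℂ) (v : n → ℂ), v ≠ 0 → M *ᵥ v = μ • v → μ ∈ Gam Φ g) :
    ∃ S : Set (Matrix n n ℂ), Sys Φ g S ∧ (T : Set (Matrix n n ℂ)) ⊆ S := by
  have hg0 : g ≠ 0 := by
    rintro rfl
    rw [norm_zero] at hg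
    linarith
  set S0 : Set (Matrix n n ℂ) := {Y | ∃ m : ℤ, ∃ M ∈ T, Y = g ^ m • M} with hS0
  have hS0eig : ∀ x ∈ S0, ∀ (μ : ℂ) (v : n → ℂ), v ≠ 0 → x *ᵥ v = μ • v → μ ∈ Gam Φ g := by
    rintro x ⟨m, M, hM, rfl⟩ μ v hv h
    rw [smul_mulVec] at h
    have h1 : M *ᵥ v = (g ^ (-m) * μ) • v := by
      rw [mul_smul, ← h, smul_smul, ← zpow_add₀ hg0]
      simp
    have h2 := Gam.zpow_smul hg0 (heig M hM _ v hv h1) m
    rwa [← mul_assoc, ← zpow_add₀ hg0, add_neg_cancel, zpow_zero, one_mul] at h2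
  refine ⟨closure S0, ⟨isClosed_closure, ?_, ?_, ?_⟩, ?_⟩
  · intro x hx y hy
    refine map_mem_closure₂ (f := fun a b : Matrix n n ℂ => a * b) (by
      exact continuous_mul) hx hy ?_
    rintro a ⟨m, M, hM, rfl⟩ b ⟨m', M', hM', rfl⟩
    exact ⟨m + m', M * M', T.mul_mem hM hM', by rw [smul_mul_smul_comm, ← zpow_add₀ hg0]⟩
  · intro m x hx
    refine map_mem_closure (f := fun a : Matrix n n ℂ => g ^ m • a) (by
      exact continuous_const_smul _) hx ?_
    rintro a ⟨m', M, hM, rfl⟩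
    exact ⟨m + m', M, hM, by
      change g ^ m • g ^ m' • M = _
      rw [smul_smul, ← zpow_add₀ hg0]⟩
  · intro x hx μ v hv h
    by_contra hμ
    have hμ0 : μ ≠ 0 := fun h0 => hμ (Or.inl h0)
    obtain ⟨δ, hδ, hgap⟩ := exists_gap hΦ hΦ0 hg μ hμ0
    have hsub : closure S0 ⊆ {Y : Matrix n n ℂ | δ ^ Fintype.card n ≤
        ‖(μ • (1 : Matrix n n ℂ) - Y).det‖} := by
      refine closure_minimal ?_ (isClosed_le continuous_const (continuous_norm.comp
        (Continuous.matrix_det (continuous_const.sub continuous_id))))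
      intro Y hY
      rw [Set.mem_setOf, det_eq_roots, ← card_roots Y, ← Multiset.card_map (fun a => μ - a)]
      apply pow_le_norm_prod _ _ hδ.le
      intro a ha
      obtain ⟨α, hα, rfl⟩ := Multiset.mem_map.mp ha
      obtain ⟨u, hu, hu'⟩ := root_eigvec Y hα
      have h1 := hS0eig Y hY α u hu hu'
      have h2 := hgap α h1 (fun h => hμ (h ▸ h1))
      rwa [norm_sub_rev] at h2
    have h1 := hsub hx
    rw [Set.mem_setOf, det_of_eigvec x hv h, norm_zero] at h1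
    have h2 : 0 < δ ^ Fintype.card n := by positivity
    linarith
  · intro M hM
    exact subset_closure ⟨0, M, hM, by simp⟩

lemma rank_factor {r : ℕ} (c : Matrix (Fin r) (Fin r) ℂ) :
    ∃ (B B' : Matrix (Fin r) (Fin c.rank) ℂ) (Q Q' : Matrix (Fin c.rank) (Fin r) ℂ),
      B * Q = c ∧ Q' * B = 1 ∧ Q * B' = 1 := by
  classical
  let W : Submodule ℂ (Fin r → ℂ) := LinearMap.range (Matrix.toLin' c)
  have hW : finrank ℂ W = c.rank := by
    rw [Matrix.rank_eq_finrank_range_toLin c (Pi.basisFun ℂ (Fin r)) (Pi.basisFun ℂ (Fin r)),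
      Matrix.toLin_eq_toLin']
  let bW : Basis (Fin c.rank) ℂ W := finBasisOfFinrankEq ℂ W hW
  let bR := Pi.basisFun ℂ (Fin r)
  let ι : W →ₗ[ℂ] (Fin r → ℂ) := W.subtype
  let π : (Fin r → ℂ) →ₗ[ℂ] W := (Matrix.toLin' c).rangeRestrict
  obtain ⟨ι', hι'⟩ := LinearMap.exists_leftInverse_of_injective ι (Submodule.ker_subtype W)
  obtain ⟨π', hπ'⟩ := LinearMap.exists_rightInverse_of_surjective π
    (LinearMap.range_rangeRestrict _)
  refine ⟨LinearMap.toMatrix bW bR ι, LinearMap.toMatrix bW bR π', LinearMap.toMatrix bR bW π,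
    LinearMap.toMatrix bR bW ι', ?_, ?_, ?_⟩
  · rw [← LinearMap.toMatrix_comp]
    have h1 : ι ∘ₗ π = Matrix.toLin' c := by
      ext1
      rfl
    rw [h1]
    change LinearMap.toMatrix' (Matrix.toLin' c) = c
    exact LinearMap.toMatrix'_toLin' c
  · rw [← LinearMap.toMatrix_comp, hι', LinearMap.toMatrix_id]
  · rw [← LinearMap.toMatrix_comp, hπ', LinearMap.toMatrix_id]

end Pool.Agent.Helper68.WA
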