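import Pool.Agent.Helper68.WA.Coeff

set_option autoImplicit false
set_option linter.unusedSectionVars false

/-!
# Irreducible matrix semigroups with eigenvalues in `{0} ∪ Φ g^ℤ`: a controlled coefficient
-/

namespace Pool.Agent.Helper68.WA

open Matrix Module

attribute [local instance] Matrix.normedAddCommGroup Matrix.normedSpace

lemma eig_le_norm {ρ : ℕ} (Y : Matrix (Fin ρ) (Fin ρ) ℂ) {μ : ℂ} {v : Fin ρ → ℂ} (hv : v ≠ 0)
    (h : Y *ᵥ v = μ • v) : ‖μ‖ ≤ ρ * ‖Y‖ := by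
  have hne : Nonempty (Fin ρ) := by
    by_contra hcon
    rw [not_nonempty_iff] at hcon
    exact hv (Subsingleton.elim _ _)
  obtain ⟨i, hi⟩ := Finite.exists_max fun i => ‖v i‖
  have hvi : 0 < ‖v i‖ := by
    rw [norm_pos_iff]
    intro h0
    apply hv
    funext j
    have := hi j
    rw [h0, norm_zero] at this
    exact norm_le_zero_iff.mp this
  have h1 : μ * v i = ∑ j, Y i j * v j := by
    have := congrFun h i
    rw [Pi.smul_apply, smul_eq_mul] at this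
    rw [← this]
    rfl
  have h2 : ‖μ‖ * ‖v i‖ ≤ (ρ * ‖Y‖) * ‖v i‖ := by
    rw [← norm_mul, h1]
    refine (norm_sum_le _ _).trans ?_
    calc ∑ j, ‖Y i j * v j‖ ≤ ∑ _j : Fin ρ, ‖Y‖ * ‖v i‖ := by
          refine Finset.sum_le_sum fun j _ => ?_
          rw [norm_mul]
          exact mul_le_mul (Matrix.norm_entry_le_entrywise_sup_norm Y) (hi j) (norm_nonneg _)
            (norm_nonneg _)
      _ = (ρ * ‖Y‖) * ‖v i‖ := by
          rw [Finset.sum_const, Finset.card_univ, Fintype.card_fin, nsmul_eq_mul]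
          ring
  exact le_of_mul_le_mul_right h2 hvi

lemma det_lower {ρ : ℕ} (S : Set (Matrix (Fin ρ) (Fin ρ) ℂ)) (hcl : IsClosed S) {g : ℂ}
    (hg : 1 < ‖g‖) (hsc : ∀ m : ℤ, ∀ t ∈ S, g ^ m • t ∈ S)
    (hdet : ∀ t ∈ S, t ≠ 0 → t.det ≠ 0) :
    ∃ c0 : ℝ, 0 < c0 ∧ ∀ t ∈ S, t ≠ 0 → c0 * ‖t‖ ^ ρ ≤ ‖t.det‖ := by
  have hg0 : 0 < ‖g‖ := by linarith
  set Kc : Set (Matrix (Fin ρ) (Fin ρ) ℂ) := S ∩ {t | 1 ≤ ‖t‖ ∧ ‖t‖ ≤ ‖g‖} with hKc
  have hcomp : IsCompact Kc := by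
    refine Metric.isCompact_of_isClosed_isBounded ?_ ?_
    · refine hcl.inter ?_
      exact (isClosed_le continuous_const continuous_norm).inter
        (isClosed_le continuous_norm continuous_const)
    · refine (Metric.isBounded_closedBall (x := (0 : Matrix (Fin ρ) (Fin ρ) ℂ))
        (r := ‖g‖)).subset ?_
      rintro t ⟨_, _, h⟩
      rw [Metric.mem_closedBall, dist_zero_right]
      exact h
  have hnorm : ∀ t ∈ S, t ≠ 0 → ∃ n : ℤ, g ^ (-n) • t ∈ Kc ∧ ‖t‖ ≤ ‖g‖ ^ (n + 1) := by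
    intro t ht ht0
    obtain ⟨n, h1, h2⟩ := exists_mem_Ico_zpow (norm_pos_iff.mpr ht0) hg
    refine ⟨n, ⟨hsc _ t ht, ?_, ?_⟩, h2.le⟩
    · rw [norm_smul, norm_zpow, _root_.zpow_neg, ← div_eq_inv_mul, le_div_iff₀ (by positivity),
        one_mul]
      exact h1
    · rw [norm_smul, norm_zpow, _root_.zpow_neg, ← div_eq_inv_mul, div_le_iff₀ (by positivity),
        mul_comm, ← zpow_add_one₀ hg0.ne']
      exact h2.le
  by_cases hK : Kc.Nonempty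
  · obtain ⟨t0, ht0, hmin⟩ := hcomp.exists_isMinOn hK
      (f := fun t : Matrix (Fin ρ) (Fin ρ) ℂ => ‖t.det‖)
      (continuous_norm.comp (Continuous.matrix_det continuous_id)).continuousOn
    have ht00 : t0 ≠ 0 := by
      rintro rfl
      have := ht0.2.1
      rw [norm_zero] at this
      linarith
    have hd0 : 0 < ‖t0.det‖ := norm_pos_iff.mpr (hdet t0 ht0.1 ht00)
    refine ⟨‖t0.det‖ / ‖g‖ ^ ρ, by positivity, fun t ht htne => ?_⟩
    obtain ⟨n, h1, h2⟩ := hnorm t ht htne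
    have h3 : ‖t0.det‖ ≤ ‖(g ^ (-n) • t).det‖ := hmin h1
    rw [det_smul, norm_mul, norm_pow, norm_zpow, Fintype.card_fin] at h3
    calc ‖t0.det‖ / ‖g‖ ^ ρ * ‖t‖ ^ ρ ≤
        ((‖g‖ ^ (-n)) ^ ρ * ‖t.det‖) / ‖g‖ ^ ρ * (‖g‖ ^ (n + 1)) ^ ρ := by
          refine mul_le_mul ?_ (pow_le_pow_left₀ (norm_nonneg _) h2 _) (by positivity)
            (by positivity)
          exact div_le_div_of_nonneg_right h3 (by positivity)
      _ = ‖t.det‖ := by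
          rw [zpow_add_one₀ hg0.ne', mul_pow, _root_.zpow_neg, inv_pow]
          have h4 : (‖g‖ ^ n) ^ ρ ≠ 0 := by positivity
          have h5 : ‖g‖ ^ ρ ≠ 0 := by positivity
          field_simp
  · refine ⟨1, one_pos, fun t ht htne => ?_⟩
    obtain ⟨n, h1, _⟩ := hnorm t ht htne
    exact absurd ⟨_, h1⟩ hK

lemma eig_norm {ρ : ℕ} {S P : Set (Matrix (Fin ρ) (Fin ρ) ℂ)} {c0 : ℝ} (hc0 : 0 < c0)
    (hc : ∀ t ∈ S, t ≠ 0 → c0 * ‖t‖ ^ ρ ≤ ‖t.det‖) (hPS : P ⊆ S)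
    (hPmul : ∀ x ∈ P, ∀ y ∈ P, x * y ∈ P) (hdet : ∀ t ∈ S, t ≠ 0 → t.det ≠ 0)
    {t : Matrix (Fin ρ) (Fin ρ) ℂ} (ht : t ∈ P) (ht0 : t ≠ 0) {α : ℂ} {v : Fin ρ → ℂ}
    (hv : v ≠ 0) (h : t *ᵥ v = α • v) : ‖α‖ ^ ρ = ‖t.det‖ := by
  have hρ : 0 < ρ := by
    rcases Nat.eq_zero_or_pos ρ with h0 | h0
    · subst h0
      exact absurd (Subsingleton.elim _ _) hv
    · exact h0
  have hd : 0 < ‖t.det‖ := norm_pos_iff.mpr (hdet t (hPS ht) ht0)
  have hpow : ∀ k : ℕ, t ^ (k + 1) ∈ P := by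
    intro k
    induction k with
    | zero => simpa using ht
    | succ k ih => rw [pow_succ]; exact hPmul _ ih _ ht
  have hle : ∀ (β : ℂ) (u : Fin ρ → ℂ), u ≠ 0 → t *ᵥ u = β • u → ‖β‖ ^ ρ ≤ ‖t.det‖ := by
    intro β u hu hβ
    have hpe : ∀ k : ℕ, (t ^ k) *ᵥ u = β ^ k • u := by
      intro k
      induction k with
      | zero => simp
      | succ k ih =>
        rw [pow_succ', ← mulVec_mulVec, ih, mulVec_smul, hβ, smul_smul, pow_succ]
    by_contra hcon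
    push Not at hcon
    set q : ℝ := ‖β‖ ^ ρ / ‖t.det‖ with hq
    have hq1 : 1 < q := by rw [hq, one_lt_div hd]; exact hcon
    obtain ⟨k, hk⟩ := pow_unbounded_of_one_lt ((ρ : ℝ) ^ ρ / c0) hq1
    have hk' : (ρ : ℝ) ^ ρ / c0 < q ^ (k + 1) :=
      hk.trans_le (pow_le_pow_right₀ hq1.le (Nat.le_succ k))
    have hne : t ^ (k + 1) ≠ 0 := by
      intro h0
      have h1 : (t ^ (k + 1)).det ≠ 0 := by
        rw [det_pow]
        exact pow_ne_zero _ (norm_pos_iff.mp hd)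
      apply h1
      rw [h0]
      have : Nonempty (Fin ρ) := ⟨⟨0, hρ⟩⟩
      exact det_zero
    have h1 := hc _ (hPS (hpow k)) hne
    have h2 := eig_le_norm (t ^ (k + 1)) hu (hpe (k + 1))
    rw [norm_pow] at h2
    rw [det_pow, norm_pow] at h1
    have h3 : (‖β‖ ^ (k + 1)) ^ ρ ≤ (ρ * ‖t ^ (k + 1)‖) ^ ρ :=
      pow_le_pow_left₀ (by positivity) h2 _
    rw [mul_pow] at h3
    have h4 : c0 * (‖β‖ ^ (k + 1)) ^ ρ ≤ (ρ : ℝ) ^ ρ * ‖t.det‖ ^ (k + 1) := by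
      calc c0 * (‖β‖ ^ (k + 1)) ^ ρ ≤ c0 * ((ρ : ℝ) ^ ρ * ‖t ^ (k + 1)‖ ^ ρ) :=
            mul_le_mul_of_nonneg_left h3 hc0.le
        _ = (ρ : ℝ) ^ ρ * (c0 * ‖t ^ (k + 1)‖ ^ ρ) := by ring
        _ ≤ _ := mul_le_mul_of_nonneg_left h1 (by positivity)
    rw [div_lt_iff₀ hc0, hq, div_pow, div_mul_eq_mul_div, lt_div_iff₀ (by positivity)] at hk'
    have h5 : (‖β‖ ^ ρ) ^ (k + 1) = (‖β‖ ^ (k + 1)) ^ ρ := by
      rw [← pow_mul, ← pow_mul, mul_comm]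
    rw [h5] at hk'
    linarith
  refine le_antisymm (hle α v hv h) ?_
  -- the product of all the eigenvalues
  obtain ⟨s, hs⟩ := Multiset.exists_cons_of_mem (mem_roots_of_eigvec t hv h)
  have hcard := card_roots t
  rw [hs, Multiset.card_cons, Fintype.card_fin] at hcard
  have hprod : t.det = α * s.prod := by
    rw [Matrix.det_eq_prod_roots_charpoly, hs, Multiset.prod_cons]
  have h1 : ‖s.prod‖ ^ ρ ≤ ‖t.det‖ ^ Multiset.card s := by
    apply norm_prod_pow_le _ _ _ hd.le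
    intro a ha
    obtain ⟨u, hu, hu'⟩ := root_eigvec t (a := a) (by rw [hs]; exact Multiset.mem_cons_of_mem ha)
    exact hle a u hu hu'
  have h2 : ‖t.det‖ ^ ρ ≤ ‖α‖ ^ ρ * ‖t.det‖ ^ Multiset.card s := by
    calc ‖t.det‖ ^ ρ = ‖α‖ ^ ρ * ‖s.prod‖ ^ ρ := by
          rw [← mul_pow, ← norm_mul, ← hprod]
      _ ≤ _ := mul_le_mul_of_nonneg_left h1 (by positivity)
  have h3 : ‖t.det‖ ^ ρ = ‖t.det‖ * ‖t.det‖ ^ Multiset.card s := by
    rw [← pow_succ', hcard]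
  rw [h3] at h2
  exact le_of_mul_le_mul_right h2 (by positivity)

end Pool.Agent.Helper68.WA
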