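import Pool.Agent.Helper68.WA.Coeff2

set_option autoImplicit false
set_option linter.unusedSectionVars false

/-!
# Irreducible matrix semigroups with eigenvalues in `{0} ∪ Φ g^ℤ`: conclusion
-/

namespace Pool.Agent.Helper68.WA

open Matrix Module

lemma finite_traces {ρ : ℕ} {E : Set ℂ} (hE : E.Finite) :
    {z : ℂ | ∃ Y : Matrix (Fin ρ) (Fin ρ) ℂ, Y.trace = z ∧
      ∀ (μ : ℂ) (v : Fin ρ → ℂ), v ≠ 0 → Y *ᵥ v = μ • v → μ ∈ E}.Finite := by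
  classical
  have h1 : {s : Multiset ℂ | Multiset.card s = ρ ∧ ∀ μ ∈ s, μ ∈ E}.Finite := by
    let Gf := hE.toFinset
    refine ((Finset.sym Gf ρ).finite_toSet.image
      (fun s : Sym ℂ ρ => (s : Multiset ℂ))).subset ?_
    rintro s ⟨hs1, hs2⟩
    refine ⟨Sym.mk s hs1, ?_, rfl⟩
    have h2 : ∀ μ ∈ Sym.mk s hs1, μ ∈ Gf := fun μ hμ => hE.mem_toFinset.mpr (hs2 μ hμ)
    exact Finset.mem_coe.mpr (Finset.mem_sym_iff.mpr h2)
  refine (h1.image Multiset.sum).subset ?_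
  rintro z ⟨Y, rfl, hY⟩
  refine ⟨Y.charpoly.roots, ⟨?_, fun μ hμ => ?_⟩, (Matrix.trace_eq_sum_roots_charpoly Y).symm⟩
  · rw [card_roots, Fintype.card_fin]
  · obtain ⟨v, hv, h⟩ := root_eigvec Y hμ
    exact hY μ v hv h

lemma finite_norm_pow {Φ : Set ℂ} (hΦ : Φ.Finite) (hΦ0 : (0 : ℂ) ∉ Φ) {g : ℂ} (hg : 1 < ‖g‖)
    {ρ : ℕ} (hρ : 0 < ρ) (c1 c2 : ℝ) (hc1 : 0 < c1) :
    {z | z ∈ Gam Φ g ∧ c1 ≤ ‖z‖ ^ ρ ∧ ‖z‖ ^ ρ ≤ c2}.Finite := by
  refine (finite_annulus hΦ hΦ0 hg (min 1 c1) (max 1 c2) (by positivity)).subset ?_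
  rintro z ⟨hz, h1, h2⟩
  refine ⟨hz, ?_, ?_⟩
  · by_contra h
    push Not at h
    rw [lt_min_iff] at h
    have h3 : ‖z‖ ^ ρ ≤ ‖z‖ := pow_le_of_le_one (norm_nonneg _) h.1.le hρ.ne'
    linarith [h.2]
  · by_contra h
    push Not at h
    rw [max_lt_iff] at h
    have h3 : ‖z‖ ≤ ‖z‖ ^ ρ := le_self_pow₀ h.1.le hρ.ne'
    linarith [h.2]

/-- the nonzero elements, normalised, form a finite set -/
lemma finite_normalised {ρ : ℕ} (hρ : 0 < ρ) {Φ : Set ℂ} (hΦ : Φ.Finite) (hΦ0 : (0 : ℂ) ∉ Φ)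
    {g : ℂ} (hg : 1 < ‖g‖) {P : Set (Matrix (Fin ρ) (Fin ρ) ℂ)}
    (hPmul : ∀ x ∈ P, ∀ y ∈ P, x * y ∈ P) (hPsc : ∀ m : ℤ, ∀ t ∈ P, g ^ m • t ∈ P)
    (hdet : ∀ t ∈ P, t ≠ 0 → t.det ≠ 0)
    (heig : ∀ x ∈ P, ∀ (μ : ℂ) (v : Fin ρ → ℂ), v ≠ 0 → x *ᵥ v = μ • v → μ ∈ Gam Φ g)
    (hnorm : ∀ x ∈ P, x ≠ 0 → ∀ (μ : ℂ) (v : Fin ρ → ℂ), v ≠ 0 → x *ᵥ v = μ • v →
      ‖μ‖ ^ ρ = ‖x.det‖)
    (hspan : Submodule.span ℂ P = ⊤) :
    ∃ F : Set (Matrix (Fin ρ) (Fin ρ) ℂ), F.Finite ∧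
      ∀ t ∈ P, t ≠ 0 → ∃ m : ℤ, g ^ m • t ∈ F := by
  classical
  have hg0 : 0 < ‖g‖ := by linarith
  have hgρ : 1 < ‖g‖ ^ ρ := one_lt_pow₀ hg hρ.ne'
  refine ⟨{t | t ∈ P ∧ 1 ≤ ‖t.det‖ ∧ ‖t.det‖ ≤ ‖g‖ ^ ρ}, ?_, ?_⟩
  · obtain ⟨b, hbP, hbspan, hblin⟩ := exists_linearIndependent ℂ P
    have hbfin : b.Finite := hblin.setFinite
    have : Fintype b := hbfin.fintype
    let E : b → Set ℂ := fun u => insert 0 {z | z ∈ Gam Φ g ∧
      (if ‖(u : Matrix (Fin ρ) (Fin ρ) ℂ).det‖ = 0 then 1 else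
        ‖(u : Matrix (Fin ρ) (Fin ρ) ℂ).det‖) ≤ ‖z‖ ^ ρ ∧
      ‖z‖ ^ ρ ≤ ‖g‖ ^ ρ * ‖(u : Matrix (Fin ρ) (Fin ρ) ℂ).det‖}
    have hE : ∀ u, (E u).Finite := by
      intro u
      refine Set.Finite.insert _ (finite_norm_pow hΦ hΦ0 hg hρ _ _ ?_)
      split_ifs with h
      · exact one_pos
      · exact lt_of_le_of_ne (norm_nonneg _) (Ne.symm h)
    let Θ : Matrix (Fin ρ) (Fin ρ) ℂ → (b → ℂ) := fun t u =>
      (t * (u : Matrix (Fin ρ) (Fin ρ) ℂ)).trace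
    have hΘinj : Function.Injective Θ := by
      intro s s' hss
      rw [Matrix.ext_iff_trace_mul_right]
      intro x
      have hx : x ∈ Submodule.span ℂ b := by rw [hbspan, hspan]; trivial
      induction hx using Submodule.span_induction with
      | mem u hu => exact congrFun hss ⟨u, hu⟩
      | zero => simp
      | add u u' _ _ ih ih' => rw [mul_add, trace_add, mul_add, trace_add, ih, ih']
      | smul c u _ ih => rw [mul_smul_comm, trace_smul, mul_smul_comm, trace_smul, ih]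
    have hfin : (Set.pi Set.univ fun u : b => {z : ℂ | ∃ Y : Matrix (Fin ρ) (Fin ρ) ℂ,
        Y.trace = z ∧ ∀ (μ : ℂ) (v : Fin ρ → ℂ), v ≠ 0 → Y *ᵥ v = μ • v → μ ∈ E u}).Finite :=
      Set.Finite.pi fun u => finite_traces (hE u)
    refine (hfin.preimage hΘinj.injOn).subset ?_
    rintro t ⟨htP, h1, h2⟩
    rw [Set.mem_preimage]
    intro u _
    refine ⟨t * (u : Matrix (Fin ρ) (Fin ρ) ℂ), rfl, fun μ v hv h => ?_⟩
    have huP := hPmul t htP _ (hbP u.2)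
    by_cases h0 : t * (u : Matrix (Fin ρ) (Fin ρ) ℂ) = 0
    · left
      rw [h0, zero_mulVec] at h
      exact (smul_eq_zero.mp h.symm).resolve_right hv
    · right
      have h3 := hnorm _ huP h0 μ v hv h
      have h4 := heig _ huP μ v hv h
      rw [det_mul, norm_mul] at h3
      refine ⟨h4, ?_, ?_⟩
      · have h5 : ‖(u : Matrix (Fin ρ) (Fin ρ) ℂ).det‖ ≠ 0 := by
          have h6 := hdet _ huP h0
          rw [det_mul] at h6
          exact norm_ne_zero_iff.mpr (right_ne_zero_of_mul h6)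
        rw [if_neg h5, h3]
        calc ‖(u : Matrix (Fin ρ) (Fin ρ) ℂ).det‖ = 1 * _ := (one_mul _).symm
          _ ≤ _ := mul_le_mul_of_nonneg_right h1 (norm_nonneg _)
      · rw [h3]
        exact mul_le_mul_of_nonneg_right h2 (norm_nonneg _)
  · intro t ht ht0
    have hd : 0 < ‖t.det‖ := norm_pos_iff.mpr (hdet t ht ht0)
    obtain ⟨n, h1, h2⟩ := exists_mem_Ico_zpow hd hgρ
    have h3 : ‖(g ^ (-n) • t).det‖ = ((‖g‖ ^ ρ) ^ n)⁻¹ * ‖t.det‖ := by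
      rw [det_smul, norm_mul, norm_pow, norm_zpow, Fintype.card_fin, _root_.zpow_neg, inv_pow,
        ← zpow_natCast, ← zpow_natCast, ← _root_.zpow_mul, ← _root_.zpow_mul, mul_comm n]
    have h4 : 0 < (‖g‖ ^ ρ) ^ n := by positivity
    refine ⟨-n, hPsc _ t ht, ?_, ?_⟩
    · rw [h3, ← div_eq_inv_mul, le_div_iff₀ h4, one_mul]
      exact h1
    · rw [h3, ← div_eq_inv_mul, div_le_iff₀ h4, mul_comm, ← zpow_add_one₀ (by positivity)]
      exact h2.le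

/-- the coefficient function -/
theorem exists_coeff {r : ℕ} (hr : 0 < r) {Φ : Set ℂ} (hΦ : Φ.Finite)
    (hΦ0 : (0 : ℂ) ∉ Φ) {g : ℂ} (hg : 1 < ‖g‖) (T : Submonoid (Matrix (Fin r) (Fin r) ℂ))
    (hspan : Submodule.span ℂ (T : Set (Matrix (Fin r) (Fin r) ℂ)) = ⊤)
    (heig : ∀ M ∈ T, ∀ (μ : ℂ) (v : Fin r → ℂ), v ≠ 0 → M *ᵥ v = μ • v → μ ∈ Gam Φ g) :
    ∃ Φ' : Set ℂ, Φ'.Finite ∧ (0 : ℂ) ∉ Φ' ∧ ∃ lam x : Fin r → ℂ, lam ≠ 0 ∧ x ≠ 0 ∧
      ∀ M ∈ T, lam ⬝ᵥ (M *ᵥ x) ∈ Gam Φ' g := by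
  classical
  have hg0 : g ≠ 0 := by
    rintro rfl
    rw [norm_zero] at hg
    linarith
  obtain ⟨S, hS, hTS⟩ := exists_sys hΦ hΦ0 hg T heig
  have hne : Nonempty (Fin r) := ⟨⟨0, hr⟩⟩
  -- minimal rank
  have hex : ∃ k, ∃ c ∈ S, c ≠ 0 ∧ c.rank = k := ⟨_, 1, hTS T.one_mem, one_ne_zero, rfl⟩
  obtain ⟨c, hcS, hc0, hck⟩ := Nat.find_spec hex
  have hmin : ∀ s ∈ S, s ≠ 0 → c.rank ≤ s.rank := by
    intro s hs hs0
    rw [hck]
    exact Nat.find_min' hex ⟨s, hs, hs0, rfl⟩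
  obtain ⟨B, B', Q, Q', hBQ, hB, hQ⟩ := rank_factor c
  generalize hρdef : c.rank = ρ at B B' Q Q' hBQ hB hQ hmin
  have hρ : 0 < ρ := by
    rcases Nat.eq_zero_or_pos ρ with h0 | h0
    · subst h0
      exfalso
      apply hc0
      rw [← hBQ]
      ext i j
      rw [mul_apply]
      simp
    · exact h0
  -- the set `S'`
  set S' : Set (Matrix (Fin ρ) (Fin ρ) ℂ) := {t | B * t * Q ∈ S} with hS'
  have hS'cl : IsClosed S' := hS.closed.preimage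
    ((continuous_const.matrix_mul continuous_id).matrix_mul continuous_const)
  have hS'sc : ∀ m : ℤ, ∀ t ∈ S', g ^ m • t ∈ S' := by
    intro m t ht
    have h1 := hS.sc m _ ht
    change B * g ^ m • t * Q ∈ S
    rw [Matrix.mul_smul, Matrix.smul_mul]
    exact h1
  have hS'det : ∀ t ∈ S', t ≠ 0 → t.det ≠ 0 := by
    intro t ht ht0 hdet
    obtain ⟨v, hv, hv0⟩ := Matrix.exists_mulVec_eq_zero_iff.mpr hdet
    have h1 : B * t * Q ≠ 0 := by
      intro h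
      apply ht0
      calc t = (Q' * B) * t * (Q * B') := by rw [hB, hQ, one_mul, mul_one]
        _ = Q' * (B * t * Q) * B' := by simp only [Matrix.mul_assoc]
        _ = 0 := by rw [h, Matrix.mul_zero, Matrix.zero_mul]
    have h2 := hmin _ ht h1
    have h3 : (B * t * Q).rank ≤ t.rank :=
      (rank_mul_le_left _ _).trans (rank_mul_le_right _ _)
    have h4 : t.rank < ρ := by
      have h5 : t.rank + finrank ℂ (LinearMap.ker t.mulVecLin) = ρ := by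
        have := LinearMap.finrank_range_add_finrank_ker t.mulVecLin
        rw [Module.finrank_fin_fun] at this
        exact this
      have h6 : 0 < finrank ℂ (LinearMap.ker t.mulVecLin) := by
        rw [Module.finrank_pos_iff]
        exact ⟨⟨⟨v, by rw [LinearMap.mem_ker, mulVecLin_apply, hv0]⟩, 0,
          fun h => hv (congrArg Subtype.val h)⟩⟩
      omega
    omega
  obtain ⟨c0, hc0pos, hlow⟩ := det_lower S' hS'cl hg hS'sc hS'det
  -- the compression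
  set P : Set (Matrix (Fin ρ) (Fin ρ) ℂ) := {t | ∃ s ∈ S, t = Q * s * B} with hP
  have hPS' : P ⊆ S' := by
    rintro t ⟨s, hs, rfl⟩
    change B * (Q * s * B) * Q ∈ S
    have h1 : B * (Q * s * B) * Q = c * s * c := by
      rw [← hBQ]
      simp only [Matrix.mul_assoc]
    rw [h1]
    exact hS.mul _ (hS.mul _ hcS _ hs) _ hcS
  have hPmul : ∀ x ∈ P, ∀ y ∈ P, x * y ∈ P := by
    rintro x ⟨s, hs, rfl⟩ y ⟨s', hs', rfl⟩
    refine ⟨s * c * s', hS.mul _ (hS.mul _ hs _ hcS) _ hs', ?_⟩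
    rw [← hBQ]
    simp only [Matrix.mul_assoc]
  have hPsc : ∀ m : ℤ, ∀ t ∈ P, g ^ m • t ∈ P := by
    rintro m t ⟨s, hs, rfl⟩
    exact ⟨g ^ m • s, hS.sc m s hs, by rw [Matrix.mul_smul, Matrix.smul_mul]⟩
  have hPeig : ∀ x ∈ P, ∀ (μ : ℂ) (v : Fin ρ → ℂ), v ≠ 0 → x *ᵥ v = μ • v → μ ∈ Gam Φ g := by
    rintro x ⟨s, hs, rfl⟩ μ v hv h
    refine hS.eig (c * s) (hS.mul _ hcS _ hs) μ (B *ᵥ v) ?_ ?_
    · intro h0
      apply hv
      calc v = (Q' * B) *ᵥ v := by rw [hB, one_mulVec]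
        _ = Q' *ᵥ (B *ᵥ v) := by rw [mulVec_mulVec]
        _ = 0 := by rw [h0, mulVec_zero]
    · calc (c * s) *ᵥ (B *ᵥ v) = B *ᵥ ((Q * s * B) *ᵥ v) := by
            rw [← hBQ, mulVec_mulVec, mulVec_mulVec]
            simp only [Matrix.mul_assoc]
        _ = μ • (B *ᵥ v) := by rw [h, mulVec_smul]
  have hPspan : Submodule.span ℂ P = ⊤ := by
    rw [eq_top_iff]
    intro t _
    have h1 : t = Q * (B' * t * Q') * B := by
      calc t = (Q * B') * t * (Q' * B) := by rw [hB, hQ, one_mul, mul_one]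
        _ = _ := by simp only [Matrix.mul_assoc]
    rw [h1]
    have h2 : B' * t * Q' ∈ Submodule.span ℂ (T : Set (Matrix (Fin r) (Fin r) ℂ)) := by
      rw [hspan]; trivial
    generalize B' * t * Q' = Z at h2
    clear h1
    induction h2 using Submodule.span_induction with
    | mem M hM => exact Submodule.subset_span ⟨M, hTS hM, rfl⟩
    | zero => rw [Matrix.mul_zero, Matrix.zero_mul]; exact Submodule.zero_mem _
    | add M M' _ _ ih ih' =>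
      rw [Matrix.mul_add, Matrix.add_mul]
      exact Submodule.add_mem _ ih ih'
    | smul a M _ ih =>
      rw [Matrix.mul_smul, Matrix.smul_mul]
      exact Submodule.smul_mem _ a ih
  obtain ⟨F, hF, hPF⟩ := finite_normalised hρ hΦ hΦ0 hg hPmul hPsc
    (fun t ht => hS'det t (hPS' ht)) hPeig
    (fun x hx hx0 μ v hv h => eig_norm hc0pos hlow hPS' hPmul hS'det hx hx0 hv h) hPspan
  let i0 : Fin ρ := ⟨0, hρ⟩
  refine ⟨(fun t : Matrix (Fin ρ) (Fin ρ) ℂ => t i0 i0) '' F \ {0},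
    (hF.image _).subset Set.sdiff_subset, fun h => h.2 rfl, Q i0, fun i => B i i0, ?_, ?_, ?_⟩
  · intro h0
    have h1 : (Q * B') i0 i0 = 1 := by rw [hQ, one_apply_eq]
    rw [mul_apply] at h1
    have h2 : ∀ j, Q i0 j = 0 := fun j => congrFun h0 j
    simp [h2] at h1
  · intro h0
    have h1 : (Q' * B) i0 i0 = 1 := by rw [hB, one_apply_eq]
    rw [mul_apply] at h1
    have h2 : ∀ j, B j i0 = 0 := fun j => congrFun h0 j
    simp [h2] at h1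
  · intro M hM
    have h1 : Q i0 ⬝ᵥ (M *ᵥ fun i => B i i0) = (Q * M * B) i0 i0 := by
      rw [Matrix.mul_assoc, mul_apply]
      rfl
    rw [h1]
    by_cases h0 : Q * M * B = 0
    · left; rw [h0]; rfl
    · obtain ⟨m, hm⟩ := hPF _ ⟨M, hTS hM, rfl⟩ h0
      by_cases h2 : (Q * M * B) i0 i0 = 0
      · left; exact h2
      · right
        refine ⟨(g ^ m • (Q * M * B)) i0 i0, ⟨⟨_, hm, rfl⟩, ?_⟩, -m, ?_⟩
        · rw [Set.mem_singleton_iff, Matrix.smul_apply, smul_eq_mul]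
          exact mul_ne_zero (zpow_ne_zero _ hg0) h2
        · rw [Matrix.smul_apply, smul_eq_mul, mul_comm, ← mul_assoc, ← zpow_add₀ hg0]
          simp

end Pool.Agent.Helper68.WA
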