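import Pool.Agent.Helper68.WA.Rep

set_option autoImplicit false
set_option linter.unusedSectionVars false

/-!
# Extensions of good representations; Burnside's theorem; simple representations
-/

namespace Pool.Agent.Helper68.WA

open Matrix Module

universe u v

variable {K : Type u} {L : Type v} {A : Type*} [Field K] [Field L] [Algebra K L]

section

variable {V : Type*} [AddCommGroup V] [Module L V]

/-- `U` is stable -/
def Stable (M : A → End L V) (U : Submodule L V) : Prop := ∀ a, ∀ x ∈ U, M a x ∈ U

lemma Stable.act {M : A → End L V} {U : Submodule L V} (h : Stable M U) (w : List A) :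
    ∀ x ∈ U, act M w x ∈ U := by
  induction w with
  | nil => intro x hx; simpa using hx
  | cons a w ih => intro x hx; rw [act_cons]; exact h a _ (ih x hx)

/-- restriction -/
def resM {M : A → End L V} {U : Submodule L V} (h : Stable M U) (a : A) : End L U :=
  (M a).restrict (h a)

/-- quotient -/
def quoM {M : A → End L V} {U : Submodule L V} (h : Stable M U) (a : A) : End L (V ⧸ U) :=
  U.mapQ U (M a) (h a)

lemma act_resM {M : A → End L V} {U : Submodule L V} (h : Stable M U) (w : List A) (x : U) :
    ((act (resM h) w x : U) : V) = act M w x := by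
  induction w with
  | nil => rfl
  | cons a w ih =>
    rw [act_cons, act_cons, Module.End.mul_apply, Module.End.mul_apply, ← ih]
    rfl

lemma act_quoM {M : A → End L V} {U : Submodule L V} (h : Stable M U) (w : List A) (x : V) :
    act (quoM h) w (U.mkQ x) = U.mkQ (act M w x) := by
  induction w with
  | nil => rfl
  | cons a w ih =>
    rw [act_cons, act_cons, Module.End.mul_apply, Module.End.mul_apply, ih]
    rfl

lemma Good.ext [Finite A] [FiniteDimensional L V] {M : A → End L V} {U : Submodule L V}
    (h : Stable M U) (hU : Good K (resM h)) (hQ : Good K (quoM h)) : Good K M := by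
  obtain ⟨s, hs⟩ := LinearMap.exists_rightInverse_of_surjective U.mkQ
    (LinearMap.range_eq_top.mpr U.mkQ_surjective)
  have hs' : ∀ y, U.mkQ (s y) = y := fun y => LinearMap.congr_fun hs y
  -- the part of a vector in `U`
  have hp : ∀ x : V, x - s (U.mkQ x) ∈ U := fun x => by
    have h0 : U.mkQ (x - s (U.mkQ x)) = 0 := by rw [map_sub, hs', sub_self]
    exact (Submodule.Quotient.mk_eq_zero U).mp h0
  let p : V →ₗ[L] U := LinearMap.codRestrict U (LinearMap.id - s.comp U.mkQ) hp
  have hpx : ∀ x : V, ((p x : U) : V) = x - s (U.mkQ x) := fun x => rfl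
  have main : ∀ y : V ⧸ U, VS K L (fun w => act M w (s y)) := by
    intro y
    have hZ : VS K L (fun w => p (act M w (s y))) := by
      refine VS.solve (resM h) hU _
        (fun a w => p (M a (s (act (quoM h) w y)))) ?_ ?_
      · intro a w
        apply Subtype.ext
        have h1 : ((resM h a (p (act M w (s y))) : U) : V) = M a ((p (act M w (s y)) : U) : V) :=
          rfl
        rw [Submodule.coe_add, h1, hpx, hpx, hpx, act_cons, Module.End.mul_apply]
        have h2 : U.mkQ (act M w (s y)) = act (quoM h) w y := by
          rw [← act_quoM h, hs']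
        have h3 : U.mkQ (M a (act M w (s y))) = U.mkQ (M a (s (act (quoM h) w y))) := by
          have e1 : ∀ z, U.mkQ (M a z) = quoM h a (U.mkQ z) := fun z => rfl
          rw [e1, e1, hs', h2]
        rw [h3, h2, map_sub]
        abel
      · intro a
        exact (hQ y).map (p.comp ((M a).comp s))
    have h4 : (fun w => act M w (s y)) =
        fun w => U.subtype (p (act M w (s y))) + s (act (quoM h) w y) := by
      funext w
      have h2 : U.mkQ (act M w (s y)) = act (quoM h) w y := by
        rw [← act_quoM h, hs']
      rw [Submodule.subtype_apply, hpx, h2]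
      abel
    rw [h4]
    exact (hZ.map U.subtype).add ((hQ y).map s)
  intro x
  have h5 : (fun w => act M w x) =
      fun w => U.subtype (act (resM h) w (p x)) + act M w (s (U.mkQ x)) := by
    funext w
    rw [Submodule.subtype_apply, act_resM, ← map_add, hpx]
    simp
  rw [h5]
  exact ((hU (p x)).map U.subtype).add (main (U.mkQ x))

/-- Burnside's theorem -/
theorem span_act_eq_top [IsAlgClosed L] [FiniteDimensional L V] [Nontrivial V]
    (M : A → End L V) (hirr : ∀ U : Submodule L V, Stable M U → U = ⊥ ∨ U = ⊤) :
    Submodule.span L (Set.range (act M)) = ⊤ := by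
  classical
  let S : Submonoid (End L V) :=
    { carrier := Set.range (act M)
      one_mem' := ⟨[], rfl⟩
      mul_mem' := by
        rintro _ _ ⟨u, rfl⟩ ⟨w, rfl⟩
        exact ⟨u ++ w, act_append M u w⟩ }
  let B : Subalgebra L (End L V) := Algebra.adjoin L (S : Set (End L V))
  have hB : Subalgebra.toSubmodule B = Submodule.span L (S : Set (End L V)) := by
    rw [Algebra.adjoin_eq_span, Submonoid.closure_eq]
  have hgB : ∀ a : A, M a ∈ B := fun a => Algebra.subset_adjoin ⟨[a], by simp [act]⟩
  have hsimple : IsSimpleModule B V := by
    rw [isSimpleModule_iff]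
    refine { exists_pair_ne := ⟨⊥, ⊤, bot_ne_top⟩, eq_bot_or_eq_top := fun W => ?_ }
    let W' : Submodule L V := W.restrictScalars L
    rcases hirr W' (fun a x hx => W.smul_mem ⟨_, hgB a⟩ hx) with h | h
    · left
      ext x
      have h1 : x ∈ W' ↔ x ∈ (⊥ : Submodule L V) := by rw [h]
      exact h1
    · right
      ext x
      have h1 : x ∈ W' ↔ x ∈ (⊤ : Submodule L V) := by rw [h]
      exact h1
  have hend := IsSimpleModule.algebraMap_end_bijective_of_isAlgClosed (A := B) (V := V) L
  rw [eq_top_iff]
  rintro f0 -
  let f : Module.End (Module.End B V) V :=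
    { toFun := f0
      map_add' := map_add f0
      map_smul' := fun φ v => by
        obtain ⟨c, hc⟩ := hend.2 φ
        have h1 : ∀ v : V, φ • v = c • v := by
          intro v
          rw [← hc]
          rfl
        rw [RingHom.id_apply, h1, h1, map_smul] }
  let e := Module.finBasis L V
  obtain ⟨r, hr⟩ := jacobson_density (R := B) (M := V) f
    (Finset.univ.image fun i => e i)
  have hf0 : f0 = (r : Module.End L V) := by
    apply e.ext
    intro i
    exact hr _ (Finset.mem_image_of_mem _ (Finset.mem_univ i))
  rw [hf0]
  have h1 : (r : End L V) ∈ Subalgebra.toSubmodule B := r.2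
  rw [hB] at h1
  exact h1

/-- nondegeneracy of the trace form -/
lemma eq_zero_of_trace [FiniteDimensional L V] (t : End L V)
    (h : ∀ s : End L V, LinearMap.trace L V (t * s) = 0) : t = 0 := by
  apply LinearMap.ext
  intro v
  rw [LinearMap.zero_apply]
  by_contra hv
  obtain ⟨φ, hφ⟩ : ∃ φ : V →ₗ[L] L, φ (t v) ≠ 0 := by
    by_contra hc
    push Not at hc
    exact hv ((Module.forall_dual_apply_eq_zero_iff L (t v)).mp hc)
  have h1 := h (φ.smulRight v)
  have h2 : t * φ.smulRight v = φ.smulRight (t v) := by
    ext x
    simp
  rw [h2, LinearMap.trace_smulRight] at h1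
  exact hφ h1

end

end Pool.Agent.Helper68.WA
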