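import Pool.Agent.Helper68.WA.Block

set_option autoImplicit false
set_option linter.unusedSectionVars false

/-!
# Accepting runs, polynomial ambiguity
-/

namespace Pool.Agent.Helper68.WA

open Matrix

section defs

variable {K A Q : Type*} [Field K] [Fintype Q] [DecidableEq Q]

/-- The matrix `M(w)` of the word `w`. -/
def WAut.mat (X : WAut K A Q) (w : List A) : Matrix Q Q K := (w.map X.tr).prod

/-- The function computed by the automaton: `Iᵀ M(w) F`. -/
def WAut.eval (X : WAut K A Q) (w : List A) : K := X.init ⬝ᵥ (X.mat w *ᵥ X.fin)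

/-- `ρ = (q₀, …, qₙ)` is an accepting run on the word `w` of length `n`. -/
def WAut.IsAcceptingRun (X : WAut K A Q) (w : List A) (ρ : Fin (w.length + 1) → Q) : Prop :=
  X.init (ρ 0) ≠ 0 ∧ (∀ i : Fin w.length, X.tr (w.get i) (ρ i.castSucc) (ρ i.succ) ≠ 0) ∧
    X.fin (ρ (Fin.last w.length)) ≠ 0

/-- The number of accepting runs on `w` is bounded by a polynomial in the length of `w`. -/
def WAut.PolyAmbiguous (X : WAut K A Q) : Prop :=
  ∃ p : Polynomial ℕ, ∀ w : List A,
    Nat.card {ρ : Fin (w.length + 1) → Q // X.IsAcceptingRun w ρ} ≤ p.eval w.length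

lemma WAut.eval_eq_val (X : WAut K A Q) (w : List A) : X.eval w = X.val w := by
  rw [WAut.eval, WAut.val, WAut.vec_eq, WAut.mat]

/-- runs from a given state -/
def RunsFrom (X : WAut K A Q) (w : List A) (q : Q) : Type _ :=
  {ρ : Fin (w.length + 1) → Q // ρ 0 = q ∧
    (∀ i : Fin w.length, X.tr (w.get i) (ρ i.castSucc) (ρ i.succ) ≠ 0) ∧
    X.fin (ρ (Fin.last w.length)) ≠ 0}

instance (X : WAut K A Q) (w : List A) (q : Q) : Finite (RunsFrom X w q) :=
  inferInstanceAs (Finite {ρ : Fin (w.length + 1) → Q // _})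

lemma card_prod_prop (α : Type*) [Finite α] (x : K) :
    Nat.card {_t : α // x ≠ 0} = ind x * Nat.card α := by
  by_cases hx : x = 0
  · subst hx
    rw [ind_zero, zero_mul]
    have : IsEmpty {_t : α // (0 : K) ≠ 0} := ⟨fun t => t.2 rfl⟩
    exact Nat.card_of_isEmpty
  · rw [ind_of_ne hx, one_mul]
    exact Nat.card_congr (Equiv.subtypeUnivEquiv fun _ => hx)

lemma card_runsFrom (X : WAut K A Q) (w : List A) : ∀ q, Nat.card (RunsFrom X w q) ≤
    X.supp.vec w q := by
  induction w with
  | nil =>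
    intro q
    have hsub : Subsingleton (RunsFrom X [] q) := by
      refine ⟨fun ρ σ => Subtype.ext ?_⟩
      funext i
      have hi : i = 0 := Subsingleton.elim (α := Fin 1) i 0
      rw [hi, ρ.2.1, σ.2.1]
    by_cases h : X.fin q = 0
    · have : IsEmpty (RunsFrom X [] q) := by
        refine ⟨fun ρ => ρ.2.2.2 ?_⟩
        have h1 : ρ.1 (Fin.last 0) = q := ρ.2.1
        exact (congrArg X.fin h1).trans h
      rw [Nat.card_of_isEmpty]
      exact Nat.zero_le _
    · have h1 : X.supp.vec [] q = 1 := ind_of_ne h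
      rw [h1]
      exact Finite.card_le_one_iff_subsingleton.mpr hsub
  | cons a w ih =>
    intro q
    let Φ : RunsFrom X (a :: w) q → Σ q' : Q, {_t : RunsFrom X w q' // X.tr a q q' ≠ 0} :=
      fun ρ => ⟨ρ.1 (Fin.succ 0), ⟨⟨fun i => ρ.1 i.succ, rfl, fun i => ρ.2.2.1 i.succ,
        ρ.2.2.2⟩, by
          have h1 := ρ.2.2.1 0
          have h2 : ρ.1 (Fin.castSucc 0) = q := ρ.2.1
          rw [h2] at h1
          exact h1⟩⟩
    have hΦ : Function.Injective Φ := by
      intro ρ σ h
      have h1 : (fun i : Fin (w.length + 1) => ρ.1 i.succ) = fun i => σ.1 i.succ := by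
        have h2 : ∀ ρ : RunsFrom X (a :: w) q,
            (fun i : Fin (w.length + 1) => ρ.1 i.succ) = (Φ ρ).2.1.1 := fun ρ => rfl
        rw [h2 ρ, h2 σ, h]
      apply Subtype.ext
      funext i
      refine Fin.cases ?_ (fun j => ?_) i
      · rw [ρ.2.1, σ.2.1]
      · exact congrFun h1 j
    calc Nat.card (RunsFrom X (a :: w) q)
        ≤ Nat.card (Σ q' : Q, {_t : RunsFrom X w q' // X.tr a q q' ≠ 0}) :=
          Nat.card_le_card_of_injective Φ hΦ
      _ = ∑ q', Nat.card {_t : RunsFrom X w q' // X.tr a q q' ≠ 0} := Nat.card_sigma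
      _ = ∑ q', ind (X.tr a q q') * Nat.card (RunsFrom X w q') :=
          Finset.sum_congr rfl fun q' _ => card_prod_prop _ _
      _ ≤ ∑ q', ind (X.tr a q q') * X.supp.vec w q' :=
          Finset.sum_le_sum fun q' _ => Nat.mul_le_mul_left _ (ih q')
      _ = X.supp.vec (a :: w) q := rfl

lemma card_accepting (X : WAut K A Q) (w : List A) :
    Nat.card {ρ : Fin (w.length + 1) → Q // X.IsAcceptingRun w ρ} ≤ X.supp.val w := by
  let Φ : {ρ : Fin (w.length + 1) → Q // X.IsAcceptingRun w ρ} →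
      Σ q : Q, {_t : RunsFrom X w q // X.init q ≠ 0} :=
    fun ρ => ⟨ρ.1 0, ⟨⟨ρ.1, rfl, ρ.2.2.1, ρ.2.2.2⟩, ρ.2.1⟩⟩
  have hΦ : Function.Injective Φ := by
    intro ρ σ h
    have h2 : ∀ ρ : {ρ : Fin (w.length + 1) → Q // X.IsAcceptingRun w ρ},
        ρ.1 = (Φ ρ).2.1.1 := fun ρ => rfl
    apply Subtype.ext
    rw [h2 ρ, h2 σ, h]
  calc Nat.card {ρ : Fin (w.length + 1) → Q // X.IsAcceptingRun w ρ}
      ≤ Nat.card (Σ q : Q, {_t : RunsFrom X w q // X.init q ≠ 0}) :=
        Nat.card_le_card_of_injective Φ hΦ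
    _ = ∑ q, Nat.card {_t : RunsFrom X w q // X.init q ≠ 0} := Nat.card_sigma
    _ = ∑ q, ind (X.init q) * Nat.card (RunsFrom X w q) :=
        Finset.sum_congr rfl fun q' _ => card_prod_prop _ _
    _ ≤ ∑ q, ind (X.init q) * X.supp.vec w q :=
        Finset.sum_le_sum fun q' _ => Nat.mul_le_mul_left _ (card_runsFrom X w q')
    _ = X.supp.val w := rfl

end defs

variable {K A : Type*} [Field K]

/-- internal to external form -/
theorem PA.exists_aut {f : List A → K} (h : PA f) :
    ∃ (d : ℕ) (Y : WAut K A (Fin d)), Y.PolyAmbiguous ∧ ∀ w, Y.eval w = f w := by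
  classical
  obtain ⟨Q, _, X, hX, C, k, hC⟩ := h
  let e : Q ≃ Fin (Fintype.card Q) := Fintype.equivFin Q
  let Y : WAut K A (Fin (Fintype.card Q)) :=
    ⟨fun i => X.init (e.symm i), fun a => (X.tr a).submatrix e.symm e.symm,
      fun i => X.fin (e.symm i)⟩
  have hv : ∀ w i, Y.vec w i = X.vec w (e.symm i) := by
    intro w
    induction w with
    | nil => intro i; rfl
    | cons a w ih =>
      intro i
      rw [WAut.vec_cons, WAut.vec_cons, Matrix.mulVec, Matrix.mulVec, dotProduct, dotProduct]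
      refine Fintype.sum_equiv e.symm _ _ fun j => ?_
      rw [ih]
      rfl
  have hs : ∀ w i, Y.supp.vec w i = X.supp.vec w (e.symm i) := by
    intro w
    induction w with
    | nil => intro i; rfl
    | cons a w ih =>
      intro i
      rw [WAut.vec_cons, WAut.vec_cons, Matrix.mulVec, Matrix.mulVec, dotProduct, dotProduct]
      refine Fintype.sum_equiv e.symm _ _ fun j => ?_
      rw [ih]
      rfl
  refine ⟨Fintype.card Q, Y, ⟨Polynomial.C C * (Polynomial.X + 1) ^ k, fun w => ?_⟩, fun w => ?_⟩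
  · refine (card_accepting Y w).trans ?_
    have h1 : Y.supp.val w = X.supp.val w := by
      rw [WAut.val, WAut.val, dotProduct, dotProduct]
      refine Fintype.sum_equiv e.symm _ _ fun j => ?_
      rw [hs]
      rfl
    rw [h1]
    refine (hC w).trans (le_of_eq ?_)
    simp
  · rw [WAut.eval_eq_val, ← hX, WAut.val, WAut.val, dotProduct, dotProduct]
    refine Fintype.sum_equiv e.symm _ _ fun j => ?_
    rw [hv]

end Pool.Agent.Helper68.WA
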