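import Pool.Agent.Helper68.WA.Amb
import Pool.Agent.Helper68.WA.Runs

set_option autoImplicit false
set_option linter.unusedSectionVars false

/-!
# Tame blocks and the main theorem
-/

namespace Pool.Agent.Helper68.WA

open Matrix Module

universe u v

section defs

variable {A n L : Type*} [Field L] [Fintype n] [DecidableEq n]

/-- `T(w)`, the product of the matrices of the letters of `w`. -/
def wordMat (T : A → Matrix n n L) (w : List A) : Matrix n n L := (w.map T).prod

open Classical in
/-- The number of paths from `p` to `q` labelled `w` along nonzero entries: the `(p, q)` entry of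
the product over `ℕ` of the 0/1 support matrices of the letters of `w`. -/
noncomputable def pathCount (T : A → Matrix n n L) (w : List A) (p q : n) : ℕ :=
  (w.map fun a => Matrix.of fun i j => if T a i j = 0 then (0 : ℕ) else 1).prod p q

/-- `S` is contained in a finite union of lines through the origin. -/
def OnFinitelyManyLines (S : Set (n → L)) : Prop :=
  ∃ R : Set (n → L), R.Finite ∧ ∀ y ∈ S, ∃ c : L, ∃ r ∈ R, y = c • r

/-- A tame family of square matrices over `L`. -/
def Tame (T : A → Matrix n n L) : Prop :=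
  {μ : L | ∃ w, ∃ x : n → L, x ≠ 0 ∧ wordMat T w *ᵥ x = μ • x}.Finite ∨
  Submodule.span L {x : n → L | OnFinitelyManyLines {y | ∃ w, y = x ᵥ* wordMat T w}} = ⊤ ∨
  Submodule.span L {x : n → L | OnFinitelyManyLines {y | ∃ w, y = wordMat T w *ᵥ x}} = ⊤ ∨
  ∃ C k : ℕ, ∀ w p q, pathCount T w p q ≤ C * (w.length + 1) ^ k

lemma pathCount_eq (T : A → Matrix n n L) (w : List A) (p q : n) :
    pathCount T w p q = cntM T w p q := rfl

end defs

section

variable {K : Type u} {L : Type v} {A : Type*} [Field K] [Field L] [Algebra K L]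
variable {n : Type*} [Fintype n] [DecidableEq n]

/-- row vectors as linear forms -/
def rowForm : (n → L) →ₗ[L] ((n → L) →ₗ[L] L) :=
  LinearMap.mk₂ L (fun x y => x ⬝ᵥ y) (fun _ _ _ => add_dotProduct _ _ _)
    (fun _ _ _ => smul_dotProduct _ _ _) (fun _ _ _ => dotProduct_add _ _ _)
    (fun _ _ _ => dotProduct_smul _ _ _)

lemma rowForm_apply (x y : n → L) : rowForm x y = x ⬝ᵥ y := rfl

lemma rowForm_surjective : Function.Surjective (rowForm : (n → L) → ((n → L) →ₗ[L] L)) := by
  intro μ
  refine ⟨fun i => μ (Pi.single i 1), ?_⟩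
  apply LinearMap.pi_ext'
  intro i
  apply LinearMap.ext_ring
  simp [rowForm_apply, dotProduct, Pi.single_apply]

theorem Tame.good {K : Type u} {L : Type v} [Field K] [Field L] [Algebra K L] [IsAlgClosed L]
    [Finite A] {n : Type} [Fintype n] [DecidableEq n] {T : A → Matrix n n L} (hT : Tame T)
    (G : Subsemigroup L) (hG : EigIn (fun a => Matrix.toLin' (T a)) (G : Set L))
    (R1 : Set L) (hR1 : R1.Finite)
    (hGR : ∀ g ∈ G, ∃ c : K, ∃ r ∈ R1, g = algebraMap K L c * r) :
    Good K (fun a => Matrix.toLin' (T a)) := by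
  rcases hT with h | h | h | ⟨C, k, h⟩
  · refine good_of_finite_eig h (Module.finrank L (n → L)) (n → L) _ rfl ?_
    intro w μ x hx hw
    rw [act_toLin'] at hw
    exact ⟨w, x, hx, hw⟩
  · refine Good.of_rows _ G hG R1 hR1 hGR ?_
    rw [eq_top_iff, ← LinearMap.range_eq_top.mpr (rowForm_surjective (L := L) (n := n)),
      LinearMap.range_eq_map, ← h, Submodule.map_span, Submodule.span_le]
    rintro _ ⟨x, ⟨R, hR, hx⟩, rfl⟩
    refine Submodule.subset_span ⟨rowForm '' R, hR.image _, fun w => ?_⟩
    obtain ⟨c, r, hr, h1⟩ := hx _ ⟨w, rfl⟩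
    refine ⟨c, rowForm r, ⟨r, hr, rfl⟩, ?_⟩
    rw [← map_smul, ← h1]
    apply LinearMap.ext
    intro y
    rw [LinearMap.comp_apply, act_toLin', rowForm_apply, rowForm_apply,
      Matrix.dotProduct_mulVec]
    rfl
  · refine Good.of_cols _ G hG R1 hR1 hGR ?_
    rw [eq_top_iff, ← h]
    apply Submodule.span_mono
    rintro x ⟨R, hR, hx⟩
    refine ⟨R, hR, fun w => ?_⟩
    rw [act_toLin']
    exact hx _ ⟨w, rfl⟩
  · exact Good.of_amb T hG R1 hR1 hGR C k h

end

/-- the main theorem, over an algebraically closed extension -/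
theorem main {K : Type u} {L : Type v} [Field K] [Field L] [Algebra K L] [IsAlgClosed L]
    {A : Type*} [Finite A] (d : ℕ) (X : WAut K A (Fin d))
    (G : Subsemigroup L) (hfg : ∃ S : Finset L, G = Subsemigroup.closure (S : Set L))
    (N : ℕ) (hN : 1 ≤ N) (hpow : ∀ α ∈ G, ∃ c : K, algebraMap K L c = α ^ N)
    (heig : ∀ (w : List A) (μ : L) (x : Fin d → L), x ≠ 0 →
      (X.mat w).map (algebraMap K L) *ᵥ x = μ • x → μ ∈ G)
    (P : (Matrix (Fin d) (Fin d) L)ˣ) (b : Fin d → ℕ)
    (hb : ∀ a, ((P⁻¹).val * (X.tr a).map (algebraMap K L) * P.val).BlockTriangular b)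
    (hblock : ∀ k, Tame fun a =>
      ((P⁻¹).val * (X.tr a).map (algebraMap K L) * P.val).toSquareBlock b k) :
    ∃ (d' : ℕ) (Y : WAut K A (Fin d')), Y.PolyAmbiguous ∧ ∀ w, Y.eval w = X.eval w := by
  classical
  obtain ⟨S, hS⟩ := hfg
  obtain ⟨R1, hR1, hGR⟩ := fg_fin (K := K) S N hN (fun s hs => hpow s (by
    rw [hS]; exact Subsemigroup.subset_closure hs))
  rw [← hS] at hGR
  set T : A → Matrix (Fin d) (Fin d) L :=
    fun a => (P⁻¹).val * (X.tr a).map (algebraMap K L) * P.val with hT
  have hw : ∀ w : List A, (w.map T).prod =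
      (P⁻¹).val * (X.mat w).map (algebraMap K L) * P.val := by
    intro w
    induction w with
    | nil => simp [WAut.mat]
    | cons a w ih =>
      have h1 : X.mat (a :: w) = X.tr a * X.mat w := by simp [WAut.mat]
      rw [List.map_cons, List.prod_cons, ih, h1, Matrix.map_mul]
      have h2 : P.val * (P⁻¹).val = 1 := P.mul_inv
      calc (P⁻¹).val * (X.tr a).map (algebraMap K L) * P.val *
            ((P⁻¹).val * (X.mat w).map (algebraMap K L) * P.val)
          = (P⁻¹).val * (X.tr a).map (algebraMap K L) * (P.val * (P⁻¹).val) *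
            (X.mat w).map (algebraMap K L) * P.val := by simp only [Matrix.mul_assoc]
        _ = _ := by rw [h2]; simp only [Matrix.mul_assoc, Matrix.mul_one]
  have hG : EigIn (fun a => Matrix.toLin' (T a)) (G : Set L) := by
    intro w μ x hx h1
    rw [act_toLin', hw] at h1
    refine heig w μ (P.val *ᵥ x) ?_ ?_
    · intro h0
      apply hx
      have h2 : (P⁻¹).val *ᵥ (P.val *ᵥ x) = 0 := by rw [h0, Matrix.mulVec_zero]
      rwa [Matrix.mulVec_mulVec, P.inv_mul, Matrix.one_mulVec] at h2
    · have h2 : P.val *ᵥ (((P⁻¹).val * (X.mat w).map (algebraMap K L) * P.val) *ᵥ x) =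
          P.val *ᵥ (μ • x) := by rw [h1]
      rw [Matrix.mulVec_mulVec, ← Matrix.mul_assoc, ← Matrix.mul_assoc, P.mul_inv,
        Matrix.one_mul, ← Matrix.mulVec_mulVec, Matrix.mulVec_smul] at h2
      exact h2
  have hgood : Good K (fun a => Matrix.toLin' (T a)) :=
    Good.block hb fun k => (hblock k).good G (hG.block hb k) R1 hR1 hGR
  have h3 := hgood ((P⁻¹).val *ᵥ (fun i => algebraMap K L (X.fin i)))
    (rowForm ((fun i => algebraMap K L (X.init i)) ᵥ* P.val))
  have h4 : (fun w => rowForm ((fun i => algebraMap K L (X.init i)) ᵥ* P.val)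
      (act (fun a => Matrix.toLin' (T a)) w
        ((P⁻¹).val *ᵥ (fun i => algebraMap K L (X.fin i))))) =
      fun w => algebraMap K L (X.eval w) := by
    funext w
    rw [act_toLin', hw, rowForm_apply, ← Matrix.dotProduct_mulVec, Matrix.mulVec_mulVec,
      Matrix.mulVec_mulVec]
    have h5 : P.val * ((P⁻¹).val * (X.mat w).map (algebraMap K L) * P.val) * (P⁻¹).val =
        (X.mat w).map (algebraMap K L) := by
      calc P.val * ((P⁻¹).val * (X.mat w).map (algebraMap K L) * P.val) * (P⁻¹).val
          = (P.val * (P⁻¹).val) * (X.mat w).map (algebraMap K L) * (P.val * (P⁻¹).val) := by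
            simp only [Matrix.mul_assoc]
        _ = _ := by rw [P.mul_inv, Matrix.one_mul, Matrix.mul_one]
    rw [h5, WAut.eval]
    simp only [dotProduct, Matrix.mulVec, map_sum, map_mul, Matrix.map_apply]
  rw [h4] at h3
  obtain ⟨d', Y, hY, hY'⟩ := (PA.of_Spn h3).exists_aut
  exact ⟨d', Y, hY, hY'⟩

end Pool.Agent.Helper68.WA
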