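import Pool.Agent.Helper68.WA.Rank

set_option autoImplicit false
set_option linter.unusedSectionVars false

/-!
# Rank at most one, and tame or geometric blocks
-/

namespace Pool.Agent.Helper68.WA

open Matrix Module

universe u v

lemma finite_roots_one (a : ℕ) (ha : 0 < a) : {ζ : ℂ | ζ ^ a = 1}.Finite := by
  refine ((Polynomial.nthRoots a (1 : ℂ)).toFinset.finite_toSet).subset ?_
  intro ζ hζ
  rw [Finset.mem_coe, Multiset.mem_toFinset, Polynomial.mem_nthRoots ha]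
  exact hζ

lemma geometric_of_dep (S : Finset ℂ) (s : ℂ) (hs0 : s ≠ 0) (hs1 : ‖s‖ ≠ 1)
    (hdep : ∀ t ∈ S, t ≠ 0 → ∃ a b : ℤ, (a ≠ 0 ∨ b ≠ 0) ∧ t ^ a = s ^ b) :
    ∃ Φ : Set ℂ, Φ.Finite ∧ ∃ g : ℂ, 1 < ‖g‖ ∧ ∀ μ ∈ Subsemigroup.closure (S : Set ℂ),
      μ = 0 ∨ ∃ ζ ∈ Φ, ∃ m : ℤ, μ = ζ * g ^ m := by
  classical
  have hsn : 0 < ‖s‖ := norm_pos_iff.mpr hs0
  have h1 : ∀ t ∈ S, ∃ a : ℕ, 0 < a ∧ (t ≠ 0 → ∃ b : ℤ, t ^ a = s ^ b) := by
    intro t ht
    by_cases ht0 : t = 0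
    · exact ⟨1, one_pos, fun h => absurd ht0 h⟩
    · obtain ⟨a, b, hab, h⟩ := hdep t ht ht0
      have ha : a ≠ 0 := by
        intro ha
        have hb : b ≠ 0 := by
          rcases hab with h' | h'
          · exact absurd ha h'
          · exact h'
        rw [ha, zpow_zero] at h
        have h2 : ‖s‖ ^ b = 1 := by rw [← norm_zpow, ← h, norm_one]
        exact hb ((zpow_eq_one_iff_right₀ hsn.le hs1).mp h2)
      refine ⟨a.natAbs, Int.natAbs_pos.mpr ha, fun _ => ?_⟩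
      rcases Int.natAbs_eq a with h3 | h3
      · refine ⟨b, ?_⟩
        rw [← h, ← zpow_natCast, ← h3]
      · refine ⟨-b, ?_⟩
        have h4 : (a.natAbs : ℤ) = -a := by omega
        rw [← zpow_natCast, h4, _root_.zpow_neg, h, _root_.zpow_neg]
  choose! a ha hb using h1
  set n : ℕ := ∏ t ∈ S, a t with hn
  have hn0 : 0 < n := Finset.prod_pos ha
  obtain ⟨g0, hg0⟩ := IsAlgClosed.exists_pow_nat_eq s hn0
  have hg00 : g0 ≠ 0 := by
    rintro rfl
    rw [zero_pow hn0.ne'] at hg0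
    exact hs0 hg0.symm
  have hg01 : ‖g0‖ ≠ 1 := by
    intro h
    apply hs1
    rw [← hg0, norm_pow, h, one_pow]
  -- the orientation
  obtain ⟨g, ε, hg, hgε⟩ : ∃ (g : ℂ) (ε : ℤ), 1 < ‖g‖ ∧ g ^ ε = g0 := by
    rcases lt_or_gt_of_ne hg01 with h | h
    · refine ⟨g0⁻¹, -1, ?_, by simp⟩
      rw [norm_inv]
      exact (one_lt_inv₀ (norm_pos_iff.mpr hg00)).mpr h
    · exact ⟨g0, 1, h, by simp⟩
  have hgne : g ≠ 0 := by
    rintro rfl
    rw [norm_zero] at hg
    linarith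
  refine ⟨{ζ | ζ ^ n = 1}, finite_roots_one n hn0, g, hg, fun μ hμ => ?_⟩
  induction hμ using Subsemigroup.closure_induction with
  | mem t ht =>
    by_cases ht0 : t = 0
    · exact Or.inl ht0
    · right
      obtain ⟨b, hb'⟩ := hb t ht ht0
      obtain ⟨q, hq⟩ : a t ∣ n := Finset.dvd_prod_of_mem a ht
      refine ⟨t * (g ^ (ε * (b * q)))⁻¹, ?_, ε * (b * q), ?_⟩
      · have h2 : t ^ n = g ^ (ε * (b * q) * n) := by
          have h3 : t ^ n = (s ^ b) ^ q := by rw [hq, pow_mul, hb']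
          rw [h3, ← hg0, ← hgε]
          rw [← zpow_natCast, ← zpow_natCast, ← _root_.zpow_mul, ← _root_.zpow_mul,
            ← _root_.zpow_mul]
          congr 1
          ring
        change (t * (g ^ (ε * (b * q)))⁻¹) ^ n = 1
        rw [mul_pow, h2, inv_pow, ← zpow_natCast (g ^ (ε * (b * q))), ← _root_.zpow_mul]
        exact mul_inv_cancel₀ (zpow_ne_zero _ hgne)
      · rw [mul_assoc, inv_mul_cancel₀ (zpow_ne_zero _ hgne), mul_one]
  | mul x y _ _ ihx ihy =>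
    rcases ihx with rfl | ⟨ζ, hζ, m, rfl⟩
    · left; rw [zero_mul]
    · rcases ihy with rfl | ⟨ζ', hζ', m', rfl⟩
      · left; rw [mul_zero]
      · right
        refine ⟨ζ * ζ', ?_, m + m', ?_⟩
        · change (ζ * ζ') ^ n = 1
          rw [mul_pow, hζ, hζ', one_mul]
        · rw [zpow_add₀ hgne]; ring

/-- semigroups of rank at most one whose elements of absolute value one are roots of unity -/
lemma geometric_of_rank (G : Subsemigroup ℂ) (S : Finset ℂ)
    (hS : G = Subsemigroup.closure (S : Set ℂ))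
    (hdep : ∀ α ∈ G, ∀ β ∈ G, α ≠ 0 → β ≠ 0 → ∃ a b : ℤ, (a ≠ 0 ∨ b ≠ 0) ∧ α ^ a = β ^ b)
    (hcirc : ∀ μ ∈ G, ‖μ‖ = 1 → ∃ k : ℕ, 0 < k ∧ μ ^ k = 1) :
    ∃ Φ : Set ℂ, Φ.Finite ∧ ∃ g : ℂ, 1 < ‖g‖ ∧ ∀ μ ∈ G,
      μ = 0 ∨ ∃ ζ ∈ Φ, ∃ m : ℤ, μ = ζ * g ^ m := by
  classical
  by_cases h : ∃ s ∈ G, s ≠ 0 ∧ ‖s‖ ≠ 1
  · obtain ⟨s, hs, hs0, hs1⟩ := h
    rw [hS]
    refine geometric_of_dep S s hs0 hs1 fun t ht ht0 => ?_
    exact hdep t (by rw [hS]; exact Subsemigroup.subset_closure ht) s hs ht0 hs0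
  · push Not at h
    have h1 : ∀ t ∈ S, ∃ k : ℕ, 0 < k ∧ (t ≠ 0 → t ^ k = 1) := by
      intro t ht
      by_cases ht0 : t = 0
      · exact ⟨1, one_pos, fun h => absurd ht0 h⟩
      · have htG : t ∈ G := by rw [hS]; exact Subsemigroup.subset_closure ht
        obtain ⟨k, hk, hk'⟩ := hcirc t htG (h t htG ht0)
        exact ⟨k, hk, fun _ => hk'⟩
    choose! k hk hk' using h1
    set n : ℕ := ∏ t ∈ S, k t with hn
    have hn0 : 0 < n := Finset.prod_pos hk
    refine ⟨{ζ | ζ ^ n = 1}, finite_roots_one n hn0, 2, by norm_num, fun μ hμ => ?_⟩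
    rw [hS] at hμ
    have h2 : μ = 0 ∨ μ ^ n = 1 := by
      induction hμ using Subsemigroup.closure_induction with
      | mem t ht =>
        by_cases ht0 : t = 0
        · exact Or.inl ht0
        · right
          obtain ⟨q, hq⟩ : k t ∣ n := Finset.dvd_prod_of_mem k ht
          rw [hq, pow_mul, hk' t ht ht0, one_pow]
      | mul x y _ _ ihx ihy =>
        rcases ihx with rfl | hx
        · left; rw [zero_mul]
        · rcases ihy with rfl | hy
          · left; rw [mul_zero]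
          · right; rw [mul_pow, hx, hy, one_mul]
    rcases h2 with h2 | h2
    · exact Or.inl h2
    · exact Or.inr ⟨μ, h2, 0, by simp⟩

/-- elements of absolute value one, real base field -/
lemma circ_of_real {K : Type u} [Field K] [Algebra K ℂ]
    (hreal : ∀ c : K, ∃ x : ℝ, algebraMap K ℂ c = (x : ℂ)) (N : ℕ) (hN : 1 ≤ N) (μ : ℂ)
    (hpow : ∃ c : K, algebraMap K ℂ c = μ ^ N) (hμ : ‖μ‖ = 1) :
    ∃ k : ℕ, 0 < k ∧ μ ^ k = 1 := by
  obtain ⟨c, hc⟩ := hpow
  obtain ⟨x, hx⟩ := hreal c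
  refine ⟨N * 2, by omega, ?_⟩
  have h1 : ‖(x : ℂ)‖ = 1 := by rw [← hx, hc, norm_pow, hμ, one_pow]
  rw [pow_mul, ← hc, hx]
  rw [Complex.norm_real, Real.norm_eq_abs] at h1
  have h2 : x ^ 2 = 1 := by rw [← sq_abs, h1, one_pow]
  exact_mod_cast h2

theorem conclude {K : Type u} {L : Type v} [Field K] [Field L] [Algebra K L]
    {A : Type*} (d : ℕ) (X : WAut K A (Fin d))
    (P : (Matrix (Fin d) (Fin d) L)ˣ)
    (hgood : Good K (fun a => Matrix.toLin'
      ((P⁻¹).val * (X.tr a).map (algebraMap K L) * P.val))) :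
    ∃ (d' : ℕ) (Y : WAut K A (Fin d')), Y.PolyAmbiguous ∧ ∀ w, Y.eval w = X.eval w := by
  classical
  set T : A → Matrix (Fin d) (Fin d) L :=
    fun a => (P⁻¹).val * (X.tr a).map (algebraMap K L) * P.val with hT
  have hw : ∀ w : List A, (w.map T).prod =
      (P⁻¹).val * (X.mat w).map (algebraMap K L) * P.val := by
    intro w
    induction w with
    | nil => simp [WAut.mat]
    | cons a w ih =>
      have h1 : X.mat (a :: w) = X.tr a * X.mat w := by simp [WAut.mat]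
      rw [List.map_cons, List.prod_cons, ih, h1, Matrix.map_mul]
      have h2 : P.val * (P⁻¹).val = 1 := P.mul_inv
      calc (P⁻¹).val * (X.tr a).map (algebraMap K L) * P.val *
            ((P⁻¹).val * (X.mat w).map (algebraMap K L) * P.val)
          = (P⁻¹).val * (X.tr a).map (algebraMap K L) * (P.val * (P⁻¹).val) *
            (X.mat w).map (algebraMap K L) * P.val := by simp only [Matrix.mul_assoc]
        _ = _ := by rw [h2]; simp only [Matrix.mul_assoc, Matrix.mul_one]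
  have h3 := hgood ((P⁻¹).val *ᵥ (fun i => algebraMap K L (X.fin i)))
    (rowForm ((fun i => algebraMap K L (X.init i)) ᵥ* P.val))
  have h4 : (fun w => rowForm ((fun i => algebraMap K L (X.init i)) ᵥ* P.val)
      (act (fun a => Matrix.toLin' (T a)) w
        ((P⁻¹).val *ᵥ (fun i => algebraMap K L (X.fin i))))) =
      fun w => algebraMap K L (X.eval w) := by
    funext w
    rw [act_toLin', hw, rowForm_apply, ← Matrix.dotProduct_mulVec, Matrix.mulVec_mulVec,
      Matrix.mulVec_mulVec]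
    have h5 : P.val * ((P⁻¹).val * (X.mat w).map (algebraMap K L) * P.val) * (P⁻¹).val =
        (X.mat w).map (algebraMap K L) := by
      calc P.val * ((P⁻¹).val * (X.mat w).map (algebraMap K L) * P.val) * (P⁻¹).val
          = (P.val * (P⁻¹).val) * (X.mat w).map (algebraMap K L) * (P.val * (P⁻¹).val) := by
            simp only [Matrix.mul_assoc]
        _ = _ := by rw [P.mul_inv, Matrix.one_mul, Matrix.mul_one]
    rw [h5, WAut.eval]
    simp only [dotProduct, Matrix.mulVec, map_sum, map_mul, Matrix.map_apply]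
  rw [h4] at h3
  obtain ⟨d', Y, hY, hY'⟩ := (PA.of_Spn h3).exists_aut
  exact ⟨d', Y, hY, hY'⟩

lemma eigIn_conj {K : Type u} {L : Type v} [Field K] [Field L] [Algebra K L]
    {A : Type*} (d : ℕ) (X : WAut K A (Fin d)) (G : Set L)
    (heig : ∀ (w : List A) (μ : L) (x : Fin d → L), x ≠ 0 →
      (X.mat w).map (algebraMap K L) *ᵥ x = μ • x → μ ∈ G)
    (P : (Matrix (Fin d) (Fin d) L)ˣ) :
    EigIn (fun a => Matrix.toLin'
      ((P⁻¹).val * (X.tr a).map (algebraMap K L) * P.val)) G := by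
  classical
  set T : A → Matrix (Fin d) (Fin d) L :=
    fun a => (P⁻¹).val * (X.tr a).map (algebraMap K L) * P.val with hT
  have hw : ∀ w : List A, (w.map T).prod =
      (P⁻¹).val * (X.mat w).map (algebraMap K L) * P.val := by
    intro w
    induction w with
    | nil => simp [WAut.mat]
    | cons a w ih =>
      have h1 : X.mat (a :: w) = X.tr a * X.mat w := by simp [WAut.mat]
      rw [List.map_cons, List.prod_cons, ih, h1, Matrix.map_mul]
      have h2 : P.val * (P⁻¹).val = 1 := P.mul_inv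
      calc (P⁻¹).val * (X.tr a).map (algebraMap K L) * P.val *
            ((P⁻¹).val * (X.mat w).map (algebraMap K L) * P.val)
          = (P⁻¹).val * (X.tr a).map (algebraMap K L) * (P.val * (P⁻¹).val) *
            (X.mat w).map (algebraMap K L) * P.val := by simp only [Matrix.mul_assoc]
        _ = _ := by rw [h2]; simp only [Matrix.mul_assoc, Matrix.mul_one]
  intro w μ x hx h1
  rw [act_toLin', hw] at h1
  refine heig w μ (P.val *ᵥ x) ?_ ?_
  · intro h0
    apply hx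
    have h2 : (P⁻¹).val *ᵥ (P.val *ᵥ x) = 0 := by rw [h0, Matrix.mulVec_zero]
    rwa [Matrix.mulVec_mulVec, P.inv_mul, Matrix.one_mulVec] at h2
  · have h2 : P.val *ᵥ (((P⁻¹).val * (X.mat w).map (algebraMap K L) * P.val) *ᵥ x) =
        P.val *ᵥ (μ • x) := by rw [h1]
    rw [Matrix.mulVec_mulVec, ← Matrix.mul_assoc, ← Matrix.mul_assoc, P.mul_inv,
      Matrix.one_mul, ← Matrix.mulVec_mulVec, Matrix.mulVec_smul] at h2
    exact h2

/-- rank at most one, or tame/geometric blocks -/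
theorem main2 {K : Type u} [Field K] [Algebra K ℂ]
    {A : Type*} [Finite A] (d : ℕ) (X : WAut K A (Fin d))
    (G : Subsemigroup ℂ) (hfg : ∃ S : Finset ℂ, G = Subsemigroup.closure (S : Set ℂ))
    (N : ℕ) (hN : 1 ≤ N) (hpow : ∀ α ∈ G, ∃ c : K, algebraMap K ℂ c = α ^ N)
    (heig : ∀ (w : List A) (μ : ℂ) (x : Fin d → ℂ), x ≠ 0 →
      (X.mat w).map (algebraMap K ℂ) *ᵥ x = μ • x → μ ∈ G)
    (h : ((∀ α ∈ G, ∀ β ∈ G, α ≠ 0 → β ≠ 0 →
            ∃ a b : ℤ, (a ≠ 0 ∨ b ≠ 0) ∧ α ^ a = β ^ b) ∧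
          ((∀ c : K, ∃ x : ℝ, algebraMap K ℂ c = (x : ℂ)) ∨
            ∀ μ ∈ G, ‖μ‖ = 1 → ∃ k : ℕ, 0 < k ∧ μ ^ k = 1)) ∨
        ∃ (P : (Matrix (Fin d) (Fin d) ℂ)ˣ) (b : Fin d → ℕ),
          (∀ a, ((P⁻¹).val * (X.tr a).map (algebraMap K ℂ) * P.val).BlockTriangular b) ∧
          ∀ k, Tame (fun a =>
              ((P⁻¹).val * (X.tr a).map (algebraMap K ℂ) * P.val).toSquareBlock b k) ∨
            Geometric (fun a =>
              ((P⁻¹).val * (X.tr a).map (algebraMap K ℂ) * P.val).toSquareBlock b k)) :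
    ∃ (d' : ℕ) (Y : WAut K A (Fin d')), Y.PolyAmbiguous ∧ ∀ w, Y.eval w = X.eval w := by
  classical
  obtain ⟨S, hS⟩ := hfg
  obtain ⟨R1, hR1, hGR⟩ := fg_fin (K := K) S N hN (fun s hs => hpow s (by
    rw [hS]; exact Subsemigroup.subset_closure hs))
  rw [← hS] at hGR
  rcases h with ⟨hdep, hcirc⟩ | ⟨P, b, hb, hblock⟩
  · have hcirc' : ∀ μ ∈ G, ‖μ‖ = 1 → ∃ k : ℕ, 0 < k ∧ μ ^ k = 1 := by
      rcases hcirc with h1 | h1
      · intro μ hμ hμ1
        exact circ_of_real h1 N hN μ (hpow μ hμ) hμ1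
      · exact h1
    obtain ⟨Φ, hΦ, g, hg, hG⟩ := geometric_of_rank G S hS hdep hcirc'
    have hE := eigIn_conj d X (G : Set ℂ) heig 1
    refine conclude d X 1 (Geometric.good ⟨Φ, hΦ, g, hg, ?_⟩ G hE R1 hR1 hGR)
    intro w μ x hx hw
    refine hG μ (hE w μ x hx ?_)
    rw [act_toLin']
    exact hw
  · have hG := eigIn_conj d X (G : Set ℂ) heig P
    refine conclude d X P (Good.block hb fun k => ?_)
    rcases hblock k with h1 | h1
    · exact h1.good G (hG.block hb k) R1 hR1 hGR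
    · exact h1.good G (hG.block hb k) R1 hR1 hGR

end Pool.Agent.Helper68.WA
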