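import Pool.Agent.Helper68.WA.Main2

set_option autoImplicit false
set_option linter.unusedSectionVars false

/-!
# Tame blocks and blocks with multiplicatively dependent eigenvalues
-/

namespace Pool.Agent.Helper68.WA

open Matrix Module

universe u v

lemma uniform_exponent {M : Type*} [AddCommGroup M] (W : Submodule ℤ M) (hW : W.FG) (s : M) :
    ∃ n : ℕ, 0 < n ∧ ∀ x ∈ W, (∃ a b : ℤ, a ≠ 0 ∧ a • x = b • s) → ∃ c : ℤ, n • x = c • s := by
  classical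
  have hN : IsNoetherian ℤ W := isNoetherian_of_fg_of_noetherian W hW
  let C : Submodule ℤ M :=
    { carrier := {x | x ∈ W ∧ ∃ a b : ℤ, a ≠ 0 ∧ a • x = b • s}
      zero_mem' := ⟨W.zero_mem, 1, 0, one_ne_zero, by simp⟩
      add_mem' := by
        rintro x y ⟨hx, a, b, ha, h⟩ ⟨hy, a', b', ha', h'⟩
        refine ⟨W.add_mem hx hy, a * a', a' * b + a * b', mul_ne_zero ha ha', ?_⟩
        rw [smul_add, mul_comm a a', mul_smul, h, mul_comm a' a, mul_smul, h', smul_smul,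
          smul_smul, add_smul]
      smul_mem' := by
        rintro c x ⟨hx, a, b, ha, h⟩
        refine ⟨W.smul_mem c hx, a, c * b, ha, ?_⟩
        rw [smul_comm a c, h, smul_smul] }
  have hC : C.FG := isNoetherian_submodule.mp hN C (fun x hx => hx.1)
  obtain ⟨F, hF⟩ := hC
  have h1 : ∀ f ∈ F, ∃ a : ℕ, 0 < a ∧ ∃ b : ℤ, a • f = b • s := by
    intro f hf
    have hfC : f ∈ C := by rw [← hF]; exact Submodule.subset_span hf
    obtain ⟨_, a, b, ha, h⟩ := hfC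
    refine ⟨a.natAbs, Int.natAbs_pos.mpr ha, ?_⟩
    rcases Int.natAbs_eq a with h3 | h3
    · exact ⟨b, by rw [← h, ← natCast_zsmul, ← h3]⟩
    · refine ⟨-b, ?_⟩
      have h4 : (a.natAbs : ℤ) = -a := by omega
      rw [← natCast_zsmul, h4, neg_smul, h, neg_smul]
  choose! a ha hb using h1
  refine ⟨∏ f ∈ F, a f, Finset.prod_pos ha, fun x hx hab => ?_⟩
  have hxC : x ∈ Submodule.span ℤ (F : Set M) := by rw [hF]; exact ⟨hx, hab⟩
  clear hx hab
  induction hxC using Submodule.span_induction with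
  | mem f hf =>
    obtain ⟨b, h⟩ := hb f hf
    obtain ⟨q, hq⟩ : a f ∣ ∏ f ∈ F, a f := Finset.dvd_prod_of_mem a hf
    refine ⟨q * b, ?_⟩
    rw [hq, mul_comm, mul_smul, h, mul_smul, natCast_zsmul]
  | zero => exact ⟨0, by simp⟩
  | add x y _ _ ihx ihy =>
    obtain ⟨c, h⟩ := ihx
    obtain ⟨c', h'⟩ := ihy
    exact ⟨c + c', by rw [smul_add, h, h', add_smul]⟩
  | smul k x _ ih =>
    obtain ⟨c, h⟩ := ih
    exact ⟨k * c, by rw [smul_comm, h, mul_smul]⟩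

lemma uniform_semigroup (S : Finset ℂ) (s : ℂ) (hs : s ≠ 0) :
    ∃ n : ℕ, 0 < n ∧ ∀ μ ∈ Subsemigroup.closure (S : Set ℂ), μ ≠ 0 →
      (∃ a b : ℤ, a ≠ 0 ∧ μ ^ a = s ^ b) → ∃ c : ℤ, μ ^ n = s ^ c := by
  classical
  let S' : Set (Additive ℂˣ) := {u | ((Additive.toMul u : ℂˣ) : ℂ) ∈ S}
  have hS' : S'.Finite := by
    refine Set.Finite.of_finite_image (f := fun u : Additive ℂˣ =>
      ((Additive.toMul u : ℂˣ) : ℂ)) (S.finite_toSet.subset ?_) ?_
    · rintro _ ⟨u, hu, rfl⟩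
      exact hu
    · intro u _ v _ h
      exact Additive.toMul.injective (Units.ext h)
  let W : Submodule ℤ (Additive ℂˣ) := Submodule.span ℤ S'
  have hW : W.FG := Submodule.fg_span hS'
  obtain ⟨n, hn, h⟩ := uniform_exponent W hW (Additive.ofMul (Units.mk0 s hs))
  refine ⟨n, hn, fun μ hμ hμ0 hab => ?_⟩
  have h1 : μ = 0 ∨ ∃ u : ℂˣ, (u : ℂ) = μ ∧ Additive.ofMul u ∈ W := by
    clear hab hμ0
    induction hμ using Subsemigroup.closure_induction with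
    | mem t ht =>
      by_cases ht0 : t = 0
      · exact Or.inl ht0
      · exact Or.inr ⟨Units.mk0 t ht0, rfl, Submodule.subset_span ht⟩
    | mul x y _ _ ihx ihy =>
      rcases ihx with rfl | ⟨u, rfl, hu⟩
      · left; rw [zero_mul]
      · rcases ihy with rfl | ⟨u', rfl, hu'⟩
        · left; rw [mul_zero]
        · right
          exact ⟨u * u', by simp, by rw [ofMul_mul]; exact W.add_mem hu hu'⟩
  rcases h1 with h1 | ⟨u, rfl, hu⟩
  · exact absurd h1 hμ0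
  obtain ⟨a, b, ha, hab⟩ := hab
  obtain ⟨c, hc⟩ := h _ hu ⟨a, b, ha, by
    rw [← ofMul_zpow, ← ofMul_zpow]
    congr 1
    apply Units.ext
    rw [Units.val_zpow_eq_zpow_val, Units.val_zpow_eq_zpow_val, Units.val_mk0]
    exact hab⟩
  refine ⟨c, ?_⟩
  rw [← ofMul_pow, ← ofMul_zpow] at hc
  have h2 := congrArg (fun v : Additive ℂˣ => ((Additive.toMul v : ℂˣ) : ℂ)) hc
  simpa using h2

lemma geometric_set (G : Subsemigroup ℂ) (S : Finset ℂ)
    (hS : G = Subsemigroup.closure (S : Set ℂ)) (E : Set ℂ) (hE : E ⊆ (G : Set ℂ))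
    (hdep : ∀ α ∈ E, ∀ β ∈ E, α ≠ 0 → β ≠ 0 → ∃ a b : ℤ, (a ≠ 0 ∨ b ≠ 0) ∧ α ^ a = β ^ b)
    (hcirc : ∀ μ ∈ E, ‖μ‖ = 1 → ∃ k : ℕ, 0 < k ∧ μ ^ k = 1) :
    ∃ Φ : Set ℂ, Φ.Finite ∧ ∃ g : ℂ, 1 < ‖g‖ ∧ ∀ μ ∈ E,
      μ = 0 ∨ ∃ ζ ∈ Φ, ∃ m : ℤ, μ = ζ * g ^ m := by
  classical
  by_cases h : ∃ s ∈ E, s ≠ 0 ∧ ‖s‖ ≠ 1
  · obtain ⟨s, hs, hs0, hs1⟩ := h
    have hsn : 0 < ‖s‖ := norm_pos_iff.mpr hs0
    obtain ⟨n, hn0, hn⟩ := uniform_semigroup S s hs0
    obtain ⟨g0, hg0⟩ := IsAlgClosed.exists_pow_nat_eq s hn0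
    have hg00 : g0 ≠ 0 := by
      rintro rfl
      rw [zero_pow hn0.ne'] at hg0
      exact hs0 hg0.symm
    have hg01 : ‖g0‖ ≠ 1 := by
      intro h
      apply hs1
      rw [← hg0, norm_pow, h, one_pow]
    obtain ⟨g, ε, hg, hgε⟩ : ∃ (g : ℂ) (ε : ℤ), 1 < ‖g‖ ∧ g ^ ε = g0 := by
      rcases lt_or_gt_of_ne hg01 with h | h
      · refine ⟨g0⁻¹, -1, ?_, by simp⟩
        rw [norm_inv]
        exact (one_lt_inv₀ (norm_pos_iff.mpr hg00)).mpr h
      · exact ⟨g0, 1, h, by simp⟩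
    have hgne : g ≠ 0 := by
      rintro rfl
      rw [norm_zero] at hg
      linarith
    refine ⟨{ζ | ζ ^ n = 1}, finite_roots_one n hn0, g, hg, fun μ hμ => ?_⟩
    by_cases hμ0 : μ = 0
    · exact Or.inl hμ0
    · right
      obtain ⟨c, hc⟩ := hn μ (by rw [← hS]; exact hE hμ) hμ0 (by
        obtain ⟨a, b, hab, h⟩ := hdep μ hμ s hs hμ0 hs0
        refine ⟨a, b, ?_, h⟩
        intro ha
        have hb : b ≠ 0 := by
          rcases hab with h' | h'
          · exact absurd ha h'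
          · exact h'
        rw [ha, zpow_zero] at h
        have h2 : ‖s‖ ^ b = 1 := by rw [← norm_zpow, ← h, norm_one]
        exact hb ((zpow_eq_one_iff_right₀ hsn.le hs1).mp h2))
      refine ⟨μ * (g ^ (ε * c))⁻¹, ?_, ε * c, ?_⟩
      · have h2 : μ ^ n = g ^ (ε * c * n) := by
          rw [hc, ← hg0, ← hgε]
          rw [← zpow_natCast, ← _root_.zpow_mul, ← _root_.zpow_mul]
          congr 1
          ring
        change (μ * (g ^ (ε * c))⁻¹) ^ n = 1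
        rw [mul_pow, h2, inv_pow, ← zpow_natCast (g ^ (ε * c)), ← _root_.zpow_mul]
        exact mul_inv_cancel₀ (zpow_ne_zero _ hgne)
      · rw [mul_assoc, inv_mul_cancel₀ (zpow_ne_zero _ hgne), mul_one]
  · push Not at h
    obtain ⟨n, hn0, hn⟩ := uniform_semigroup S 1 one_ne_zero
    refine ⟨{ζ | ζ ^ n = 1}, finite_roots_one n hn0, 2, by norm_num, fun μ hμ => ?_⟩
    by_cases hμ0 : μ = 0
    · exact Or.inl hμ0
    · right
      obtain ⟨k, hk, hk'⟩ := hcirc μ hμ (h μ hμ hμ0)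
      obtain ⟨c, hc⟩ := hn μ (by rw [← hS]; exact hE hμ) hμ0
        ⟨k, 0, by omega, by rw [zpow_natCast, hk', zpow_zero]⟩
      rw [_root_.one_zpow] at hc
      exact ⟨μ, hc, 0, by simp⟩

/-- The eigenvalues of the products of a family of square complex matrices. -/
def eigenvalues {A n : Type*} [Fintype n] [DecidableEq n] (T : A → Matrix n n ℂ) : Set ℂ :=
  {μ | ∃ (w : List A) (x : n → ℂ), x ≠ 0 ∧ wordMat T w *ᵥ x = μ • x}

/-- Any two nonzero eigenvalues of products are multiplicatively dependent. -/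
def Dependent {A n : Type*} [Fintype n] [DecidableEq n] (T : A → Matrix n n ℂ) : Prop :=
  ∀ α ∈ eigenvalues T, ∀ β ∈ eigenvalues T, α ≠ 0 → β ≠ 0 →
    ∃ a b : ℤ, (a ≠ 0 ∨ b ≠ 0) ∧ α ^ a = β ^ b

/-- tame blocks, and blocks with multiplicatively dependent eigenvalues -/
theorem main3 {K : Type u} [Field K] [Algebra K ℂ]
    {A : Type*} [Finite A] (d : ℕ) (X : WAut K A (Fin d))
    (G : Subsemigroup ℂ) (hfg : ∃ S : Finset ℂ, G = Subsemigroup.closure (S : Set ℂ))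
    (N : ℕ) (hN : 1 ≤ N) (hpow : ∀ α ∈ G, ∃ c : K, algebraMap K ℂ c = α ^ N)
    (heig : ∀ (w : List A) (μ : ℂ) (x : Fin d → ℂ), x ≠ 0 →
      (X.mat w).map (algebraMap K ℂ) *ᵥ x = μ • x → μ ∈ G)
    (P : (Matrix (Fin d) (Fin d) ℂ)ˣ) (b : Fin d → ℕ)
    (hb : ∀ a, ((P⁻¹).val * (X.tr a).map (algebraMap K ℂ) * P.val).BlockTriangular b)
    (hblock : ∀ k,
      Tame (fun a =>
        ((P⁻¹).val * (X.tr a).map (algebraMap K ℂ) * P.val).toSquareBlock b k) ∨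
      (Dependent (fun a =>
        ((P⁻¹).val * (X.tr a).map (algebraMap K ℂ) * P.val).toSquareBlock b k) ∧
      ((∀ c : K, ∃ x : ℝ, algebraMap K ℂ c = (x : ℂ)) ∨
        ∀ μ ∈ eigenvalues (fun a =>
          ((P⁻¹).val * (X.tr a).map (algebraMap K ℂ) * P.val).toSquareBlock b k),
          ‖μ‖ = 1 → ∃ m : ℕ, 0 < m ∧ μ ^ m = 1))) :
    ∃ (d' : ℕ) (Y : WAut K A (Fin d')), Y.PolyAmbiguous ∧ ∀ w, Y.eval w = X.eval w := by
  classical
  obtain ⟨S, hS⟩ := hfg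
  obtain ⟨R1, hR1, hGR⟩ := fg_fin (K := K) S N hN (fun s hs => hpow s (by
    rw [hS]; exact Subsemigroup.subset_closure hs))
  rw [← hS] at hGR
  have hG := eigIn_conj d X (G : Set ℂ) heig P
  refine conclude d X P (Good.block hb fun k => ?_)
  have hGk := hG.block hb k
  rcases hblock k with h1 | ⟨h1, h2⟩
  · exact h1.good G hGk R1 hR1 hGR
  · have hE : eigenvalues (fun a =>
        ((P⁻¹).val * (X.tr a).map (algebraMap K ℂ) * P.val).toSquareBlock b k) ⊆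
        (G : Set ℂ) := by
      rintro μ ⟨w, x, hx, hw⟩
      refine hGk w μ x hx ?_
      rw [act_toLin']
      exact hw
    obtain ⟨Φ, hΦ, g, hg, hΦg⟩ := geometric_set G S hS _ hE h1 (by
      rcases h2 with h2 | h2
      · intro μ hμ hμ1
        exact circ_of_real h2 N hN μ (hpow μ (hE hμ)) hμ1
      · exact h2)
    refine Geometric.good ⟨Φ, hΦ, g, hg, ?_⟩ G hGk R1 hR1 hGR
    intro w μ x hx hw
    exact hΦg μ ⟨w, x, hx, hw⟩

end Pool.Agent.Helper68.WA
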