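import Pool.Agent.Helper68.WA.Ext

set_option autoImplicit false
set_option linter.unusedSectionVars false

/-!
# Good representations: finitely many eigenvalues, projectively finite
-/

namespace Pool.Agent.Helper68.WA

open Matrix Module

universe u v

variable {K : Type u} {L : Type v} {A : Type*} [Field K] [Field L] [Algebra K L]

section

variable {V : Type*} [AddCommGroup V] [Module L V]

/-- all eigenvalues of all words lie in `G` -/
def EigIn (M : A → End L V) (G : Set L) : Prop :=
  ∀ w, ∀ μ : L, ∀ x : V, x ≠ 0 → act M w x = μ • x → μ ∈ G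

lemma EigIn.res {M : A → End L V} {G : Set L} (hG : EigIn M G) {U : Submodule L V}
    (h : Stable M U) : EigIn (resM h) G := by
  intro w μ x hx hw
  refine hG w μ (x : V) (fun h0 => hx (Subtype.ext h0)) ?_
  rw [← act_resM h, hw]
  rfl

lemma EigIn.quo [FiniteDimensional L V] {M : A → End L V} {G : Set L} (hG : EigIn M G)
    {U : Submodule L V} (h : Stable M U) : EigIn (quoM h) G := by
  intro w μ y hy hw
  by_contra hμ
  -- `act M w - μ` is injective, hence surjective
  let T : End L V := act M w - μ • (1 : End L V)
  have hinj : Function.Injective T := by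
    rw [← LinearMap.ker_eq_bot, LinearMap.ker_eq_bot']
    intro x hx
    by_contra hx0
    refine hμ (hG w μ x hx0 ?_)
    have h1 : act M w x - μ • x = 0 := by
      have : T x = act M w x - μ • x := by simp [T]
      rw [← this, hx]
    exact sub_eq_zero.mp h1
  have hsurj : Function.Surjective T := LinearMap.surjective_of_injective hinj
  let T' : End L (V ⧸ U) := act (quoM h) w - μ • (1 : End L (V ⧸ U))
  have hT' : ∀ x, T' (U.mkQ x) = U.mkQ (T x) := by
    intro x
    simp only [T', T, LinearMap.sub_apply, LinearMap.smul_apply, Module.End.one_apply, map_sub,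
      map_smul, act_quoM]
  have hsurj' : Function.Surjective T' := by
    intro z
    obtain ⟨x, rfl⟩ := U.mkQ_surjective z
    obtain ⟨x', rfl⟩ := hsurj x
    exact ⟨U.mkQ x', hT' x'⟩
  have hinj' : Function.Injective T' := LinearMap.injective_iff_surjective.mpr hsurj'
  apply hy
  apply hinj'
  rw [map_zero]
  simp only [T', LinearMap.sub_apply, LinearMap.smul_apply, Module.End.one_apply, hw, sub_self]

lemma trace_eq_sum [IsAlgClosed L] [FiniteDimensional L V] (T : End L V) :
    ∃ s : Multiset L, Multiset.card s = Module.finrank L V ∧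
      (∀ μ ∈ s, ∃ x : V, x ≠ 0 ∧ T x = μ • x) ∧ LinearMap.trace L V T = s.sum := by
  refine ⟨T.charpoly.roots, ?_, ?_, ?_⟩
  · rw [← LinearMap.charpoly_natDegree T]
    exact (Polynomial.splits_iff_card_roots.mp (IsAlgClosed.splits _))
  · intro μ hμ
    have h1 : (LinearMap.charpoly T).IsRoot μ := (Polynomial.mem_roots'.mp hμ).2
    have h2 := (Module.End.hasEigenvalue_iff_isRoot_charpoly T μ).mpr h1
    obtain ⟨x, hx⟩ := h2.exists_hasEigenvector
    exact ⟨x, hx.2, hx.apply_eq_smul⟩
  · rw [Module.End.trace_eq_sum_roots_charpoly_of_splits (IsAlgClosed.splits _)]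

/-- a simple representation with finitely many eigenvalues is finite -/
lemma finite_of_simple [IsAlgClosed L] [FiniteDimensional L V] [Nontrivial V]
    (M : A → End L V) (hirr : ∀ U : Submodule L V, Stable M U → U = ⊥ ∨ U = ⊤)
    {G : Set L} (hfin : G.Finite) (hG : EigIn M G) : (Set.range (act M)).Finite := by
  classical
  -- finitely many traces
  have htr : (Set.range fun w => LinearMap.trace L V (act M w)).Finite := by
    have h1 : {s : Multiset L | Multiset.card s = Module.finrank L V ∧ ∀ μ ∈ s, μ ∈ G}.Finite := by
      let Gf := hfin.toFinset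
      refine ((Finset.sym Gf (Module.finrank L V)).finite_toSet.image
        (fun s : Sym L (Module.finrank L V) => (s : Multiset L))).subset ?_
      rintro s ⟨hs1, hs2⟩
      refine ⟨Sym.mk s hs1, ?_, rfl⟩
      have h2 : ∀ μ ∈ Sym.mk s hs1, μ ∈ Gf := fun μ hμ => hfin.mem_toFinset.mpr (hs2 μ hμ)
      exact Finset.mem_coe.mpr (Finset.mem_sym_iff.mpr h2)
    refine (h1.image Multiset.sum).subset ?_
    rintro _ ⟨w, rfl⟩
    obtain ⟨s, hs1, hs2, hs3⟩ := trace_eq_sum (act M w)
    refine ⟨s, ⟨hs1, fun μ hμ => ?_⟩, hs3.symm⟩
    obtain ⟨x, hx, hx'⟩ := hs2 μ hμ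
    exact hG w μ x hx hx'
  have hspan := span_act_eq_top M hirr
  obtain ⟨t, hts, htspan, htlin⟩ := exists_linearIndependent L (Set.range (act M))
  have htfin : t.Finite := htlin.setFinite
  -- the map to traces
  have hto : ∀ s : End L V, s ∈ t → ∃ u, act M u = s := fun s hs => hts hs
  choose! u hu using hto
  have : Fintype t := htfin.fintype
  let Φ : End L V → (t → L) := fun T s => LinearMap.trace L V (T * (s : End L V))
  have hΦinj : Function.Injective Φ := by
    intro T T' hTT'
    rw [← sub_eq_zero]
    apply eq_zero_of_trace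
    intro s
    have hs : s ∈ Submodule.span L t := by rw [htspan, hspan]; trivial
    induction hs using Submodule.span_induction with
    | mem s hs =>
      have h1 := congrFun hTT' ⟨s, hs⟩
      rw [sub_mul, map_sub]
      exact sub_eq_zero.mpr h1
    | zero => simp
    | add s s' _ _ ih ih' => rw [mul_add, map_add, ih, ih', add_zero]
    | smul c s _ ih => rw [mul_smul_comm, map_smul, ih, smul_zero]
  refine Set.Finite.of_finite_image ?_ hΦinj.injOn
  refine (Set.Finite.pi' (fun _ : t => htr)).subset ?_
  rintro _ ⟨_, ⟨w, rfl⟩, rfl⟩ s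
  refine ⟨w ++ u s, ?_⟩
  change LinearMap.trace L V (act M (w ++ u s)) = LinearMap.trace L V (act M w * (s : End L V))
  rw [act_append, hu s s.2]

/-- a simple, projectively finite representation with controlled eigenvalues -/
lemma good_of_simple_pf [IsAlgClosed L] [FiniteDimensional L V] [Nontrivial V]
    (M : A → End L V) (hirr : ∀ U : Submodule L V, Stable M U → U = ⊥ ∨ U = ⊤)
    {G : Set L} (hG : EigIn M G) (R1 : Set L) (hR1 : R1.Finite)
    (hGR : ∀ g ∈ G, ∃ c : K, ∃ r ∈ R1, g = algebraMap K L c * r)
    (R : Set (End L V)) (hR : R.Finite) (hpf : ∀ w, ∃ c : L, ∃ r ∈ R, act M w = c • r) :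
    Good K M := by
  classical
  have hspan := span_act_eq_top M hirr
  have h1 : ∀ r : End L V, r ≠ 0 → ∃ ρ : L, ρ ≠ 0 ∧ ∃ u, ∃ x : V, x ≠ 0 ∧
      (r * act M u) x = ρ • x := by
    intro r hr
    by_contra hc
    push Not at hc
    apply hr
    apply eq_zero_of_trace
    intro s
    have hs : s ∈ Submodule.span L (Set.range (act M)) := by rw [hspan]; trivial
    induction hs using Submodule.span_induction with
    | mem s hs =>
      obtain ⟨u, rfl⟩ := hs
      obtain ⟨m, _, hm2, hm3⟩ := trace_eq_sum (r * act M u)
      rw [hm3]
      apply Multiset.sum_eq_zero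
      intro μ hμ
      by_contra hμ0
      obtain ⟨x, hx, hx'⟩ := hm2 μ hμ
      exact hc μ hμ0 u x hx hx'
    | zero => simp
    | add s s' _ _ ih ih' => rw [mul_add, map_add, ih, ih', add_zero]
    | smul c s _ ih => rw [mul_smul_comm, map_smul, ih, smul_zero]
  choose! ρ hρ u x hx hrx using h1
  refine Good.of_finite M
    (insert 0 ((fun p : L × End L V => (p.1 / ρ p.2) • p.2) '' (R1 ×ˢ R)))
    (((hR1.prod hR).image _).insert 0) ?_
  intro w
  obtain ⟨c, r, hr, hw⟩ := hpf w
  by_cases h0 : act M w = 0
  · exact ⟨1, 0, Set.mem_insert _ _, by rw [h0]; simp⟩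
  have hr0 : r ≠ 0 := by
    rintro rfl
    exact h0 (by rw [hw, smul_zero])
  have h2 : act M (w ++ u r) (x r) = (c * ρ r) • x r := by
    rw [act_append, hw, smul_mul_assoc, LinearMap.smul_apply, hrx r hr0, smul_smul]
  obtain ⟨k, g0, hg0, hk⟩ := hGR _ (hG _ _ _ (hx r hr0) h2)
  refine ⟨k, (g0 / ρ r) • r, Set.mem_insert_of_mem _ ⟨(g0, r), ⟨hg0, hr⟩, rfl⟩, ?_⟩
  have hρ0 := hρ r hr0
  have h3 : c = algebraMap K L k * (g0 / ρ r) := by
    rw [← mul_div_assoc, ← hk]
    field_simp
  rw [hw, smul_smul, ← h3]

end

section induction

variable [IsAlgClosed L] [Finite A]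

/-- finitely many eigenvalues -/
theorem good_of_finite_eig {G : Set L} (hfin : G.Finite) (n : ℕ) :
    ∀ (V : Type v) [AddCommGroup V] [Module L V] [FiniteDimensional L V] (M : A → End L V),
      Module.finrank L V = n → EigIn M G → Good K M := by
  induction n using Nat.strong_induction_on with
  | _ n ih =>
    intro V _ _ _ M hn hG
    by_cases hV : Nontrivial V
    · by_cases hirr : ∀ U : Submodule L V, Stable M U → U = ⊥ ∨ U = ⊤
      · refine Good.of_finite M (Set.range (act M)) (finite_of_simple M hirr hfin hG) ?_
        intro w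
        exact ⟨1, act M w, ⟨w, rfl⟩, by simp⟩
      · push Not at hirr
        obtain ⟨U, hU, hb, ht⟩ := hirr
        have h1 : Module.finrank L U < n := by
          rw [← hn]; exact Submodule.finrank_lt ht
        have h2 : Module.finrank L (V ⧸ U) < n := by
          have h3 := Submodule.finrank_quotient_add_finrank U
          have h4 : 0 < Module.finrank L U := by
            rw [Module.finrank_pos_iff]
            exact Submodule.nontrivial_iff_ne_bot.mpr hb
          omega
        exact Good.ext hU (ih _ h1 U (resM hU) rfl (hG.res hU))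
          (ih _ h2 (V ⧸ U) (quoM hU) rfl (hG.quo hU))
    · rw [not_nontrivial_iff_subsingleton] at hV
      intro x μ
      have h1 : (fun w => μ (act M w x)) = 0 := by
        funext w
        rw [Subsingleton.elim (act M w x) 0, map_zero]
        rfl
      rw [h1]
      exact Submodule.zero_mem _

/-- projectively finite with controlled eigenvalues -/
theorem good_of_pf {G : Set L} (R1 : Set L) (hR1 : R1.Finite)
    (hGR : ∀ g ∈ G, ∃ c : K, ∃ r ∈ R1, g = algebraMap K L c * r) (n : ℕ) :
    ∀ (V : Type v) [AddCommGroup V] [Module L V] [FiniteDimensional L V] (M : A → End L V),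
      Module.finrank L V = n → EigIn M G →
      (∃ R : Set (End L V), R.Finite ∧ ∀ w, ∃ c : L, ∃ r ∈ R, act M w = c • r) → Good K M := by
  classical
  induction n using Nat.strong_induction_on with
  | _ n ih =>
    intro V _ _ _ M hn hG hpf
    obtain ⟨R, hR, hpf⟩ := hpf
    by_cases hV : Nontrivial V
    · by_cases hirr : ∀ U : Submodule L V, Stable M U → U = ⊥ ∨ U = ⊤
      · exact good_of_simple_pf M hirr hG R1 hR1 hGR R hR hpf
      · push Not at hirr
        obtain ⟨U, hU, hb, ht⟩ := hirr
        have h1 : Module.finrank L U < n := by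
          rw [← hn]; exact Submodule.finrank_lt ht
        have h2 : Module.finrank L (V ⧸ U) < n := by
          have h3 := Submodule.finrank_quotient_add_finrank U
          have h4 : 0 < Module.finrank L U := by
            rw [Module.finrank_pos_iff]
            exact Submodule.nontrivial_iff_ne_bot.mpr hb
          omega
        refine Good.ext hU (ih _ h1 U (resM hU) rfl (hG.res hU) ?_)
          (ih _ h2 (V ⧸ U) (quoM hU) rfl (hG.quo hU) ?_)
        · let φ : End L V → End L U := fun r =>
            if h : ∀ x ∈ U, r x ∈ U then r.restrict h else 0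
          refine ⟨insert 0 (φ '' R), (hR.image φ).insert 0, fun w => ?_⟩
          obtain ⟨c, r, hr, hw⟩ := hpf w
          by_cases hc : c = 0
          · refine ⟨0, 0, Set.mem_insert _ _, ?_⟩
            apply LinearMap.ext
            intro x
            apply Subtype.ext
            rw [act_resM, hw, hc]
            simp
          · have hrU : ∀ x ∈ U, r x ∈ U := by
              intro x hx
              have h5 := hU.act w x hx
              rw [hw, LinearMap.smul_apply] at h5
              have h6 := U.smul_mem c⁻¹ h5
              rwa [smul_smul, inv_mul_cancel₀ hc, one_smul] at h6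
            refine ⟨c, φ r, Set.mem_insert_of_mem _ ⟨r, hr, rfl⟩, ?_⟩
            apply LinearMap.ext
            intro x
            apply Subtype.ext
            rw [act_resM, hw]
            simp only [φ, dif_pos hrU]
            rfl
        · let φ : End L V → End L (V ⧸ U) := fun r =>
            if h : U ≤ U.comap r then U.mapQ U r h else 0
          refine ⟨insert 0 (φ '' R), (hR.image φ).insert 0, fun w => ?_⟩
          obtain ⟨c, r, hr, hw⟩ := hpf w
          by_cases hc : c = 0
          · refine ⟨0, 0, Set.mem_insert _ _, ?_⟩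
            apply LinearMap.ext
            intro z
            obtain ⟨x, rfl⟩ := U.mkQ_surjective z
            rw [act_quoM, hw, hc]
            simp
          · have hrU : U ≤ U.comap r := by
              intro x hx
              have h5 := hU.act w x hx
              rw [hw, LinearMap.smul_apply] at h5
              have h6 := U.smul_mem c⁻¹ h5
              rwa [smul_smul, inv_mul_cancel₀ hc, one_smul] at h6
            refine ⟨c, φ r, Set.mem_insert_of_mem _ ⟨r, hr, rfl⟩, ?_⟩
            apply LinearMap.ext
            intro z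
            obtain ⟨x, rfl⟩ := U.mkQ_surjective z
            rw [act_quoM, hw]
            simp only [φ, dif_pos hrU]
            rfl
    · rw [not_nontrivial_iff_subsingleton] at hV
      intro x μ
      have h1 : (fun w => μ (act M w x)) = 0 := by
        funext w
        rw [Subsingleton.elim (act M w x) 0, map_zero]
        rfl
      rw [h1]
      exact Submodule.zero_mem _

end induction

end Pool.Agent.Helper68.WA
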