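import Pool.Agent.Helper68.WA.Mod

set_option autoImplicit false
set_option linter.unusedSectionVars false

/-!
# Vectors with finite projective orbits
-/

namespace Pool.Agent.Helper68.WA

open Matrix Module

universe u v

variable {K : Type u} {L : Type v} {A : Type*} [Field K] [Field L] [Algebra K L]

section

variable {E : Type*} [AddCommGroup E] [Module L E]

/-- right action of words -/
def ract (ρ : A → End L E) (w : List A) (x : E) : E := w.foldl (fun y a => ρ a y) x

@[simp] lemma ract_nil (ρ : A → End L E) (x : E) : ract ρ [] x = x := rfl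
lemma ract_cons (ρ : A → End L E) (a : A) (w : List A) (x : E) :
    ract ρ (a :: w) x = ract ρ w (ρ a x) := rfl
lemma ract_append (ρ : A → End L E) (u w : List A) (x : E) :
    ract ρ (u ++ w) x = ract ρ w (ract ρ u x) := by simp [ract, List.foldl_append]
lemma ract_smul (ρ : A → End L E) (w : List A) (c : L) : ∀ x : E,
    ract ρ w (c • x) = c • ract ρ w x := by
  induction w with
  | nil => intro x; rfl
  | cons a w ih => intro x; rw [ract_cons, ract_cons, map_smul, ih]

lemma ract_zero (ρ : A → End L E) (w : List A) : ract ρ w 0 = 0 := by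
  induction w with
  | nil => rfl
  | cons a w ih => rw [ract_cons, map_zero, ih]

/-- finite projective orbit over `K` -/
lemma orbit_Spn (ρ : A → End L E) (x0 : E) (R0 : Set E) (hR0 : R0.Finite)
    (h : ∀ w, ∃ c : K, ∃ r ∈ R0, ract ρ w x0 = algebraMap K L c • r) (μ : E →ₗ[L] L) :
    (fun w => μ (ract ρ w x0)) ∈ Spn K L A := by
  classical
  let R : Set E := {r | r ∈ R0 ∧ ∃ u, ∃ c : K, c ≠ 0 ∧ ract ρ u x0 = algebraMap K L c • r}
  have hR : R.Finite := hR0.subset fun r hr => hr.1
  have hstep : ∀ r ∈ R, ∀ a, ∃ c : K, ∃ r' ∈ R, ρ a r = algebraMap K L c • r' := by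
    rintro r ⟨hr0, u, c, hc, hu⟩ a
    obtain ⟨c', r', hr', h'⟩ := h (u ++ [a])
    have h1 : ract ρ (u ++ [a]) x0 = algebraMap K L c • (ρ a r) := by
      rw [ract_append, hu, ract_cons, ract_nil, map_smul]
    have hc0 : algebraMap K L c ≠ 0 := by
      rw [Ne, map_eq_zero]; exact hc
    have h2 : ρ a r = algebraMap K L (c⁻¹ * c') • r' := by
      rw [map_mul, mul_smul, ← h', h1, smul_smul, ← map_mul, inv_mul_cancel₀ hc, map_one,
        one_smul]
    by_cases hc' : c' = 0
    · refine ⟨0, r, ⟨hr0, u, c, hc, hu⟩, ?_⟩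
      rw [h2, hc']; simp
    · exact ⟨c⁻¹ * c', r', ⟨hr', u ++ [a], c', hc', h'⟩, h2⟩
  have : Fintype R := hR.fintype
  obtain ⟨c0, r0, hr0, h0⟩ := h []
  rw [ract_nil] at h0
  by_cases hc0 : c0 = 0
  · have h1 : x0 = 0 := by rw [h0, hc0]; simp
    have h2 : (fun w => μ (ract ρ w x0)) = 0 := by
      funext w
      have h3 : ract ρ w x0 = 0 := by
        rw [h1, ract_zero]
      rw [h3, map_zero]
      rfl
    rw [h2]
    exact Submodule.zero_mem _
  have hr0R : r0 ∈ R := ⟨hr0, [], c0, hc0, h0⟩
  choose! cf rf hrf hcf using hstep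
  let δ : A → R → R := fun a r => ⟨rf r.1 a, hrf r.1 r.2 a⟩
  let wt : A → R → K := fun a r => cf r.1 a
  let e : R ≃ Fin (Fintype.card R) := Fintype.equivFin R
  let δ' : A → Fin (Fintype.card R) → Fin (Fintype.card R) := fun a i => e (δ a (e.symm i))
  let wt' : A → Fin (Fintype.card R) → K := fun a i => wt a (e.symm i)
  let vv : Fin (Fintype.card R) → List A → Fin (Fintype.card R) → K := fun s w =>
    w.rec (motive := fun _ => Fin (Fintype.card R) → K) (fun q => if q = s then 1 else 0)
      (fun a _ v q => wt' a q * v (δ' a q))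
  have hvv0 : ∀ s q, vv s [] q = if q = s then 1 else 0 := fun s q => rfl
  have hvv : ∀ s a w q, vv s (a :: w) q = wt' a q * vv s w (δ' a q) := fun s a w q => rfl
  have key : ∀ w q, ∑ s, algebraMap K L (vv s w q) • ((e.symm s : R) : E) =
      ract ρ w ((e.symm q : R) : E) := by
    intro w
    induction w with
    | nil =>
      intro q
      simp only [hvv0, ract_nil]
      rw [Finset.sum_eq_single q]
      · simp
      · intro s _ hs
        simp [Ne.symm hs]
      · simp
    | cons a w ih =>
      intro q
      have h1 := ih (δ' a q)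
      simp only [hvv, map_mul, mul_smul]
      rw [← Finset.smul_sum, h1, ract_cons]
      have h2 : ρ a ((e.symm q : R) : E) =
          algebraMap K L (wt' a q) • ((e.symm (δ' a q) : R) : E) := by
        have h3 := hcf (e.symm q : R).1 (e.symm q : R).2 a
        simp only [δ', δ, wt', wt, Equiv.symm_apply_apply]
        exact h3
      rw [h2, ract_smul]
  have hPA : ∀ s, PA (fun w => c0 * vv s w (e ⟨r0, hr0R⟩)) := fun s =>
    PA.det (e ⟨r0, hr0R⟩) c0 δ' wt' (fun q => if q = s then 1 else 0) _ (vv s)
      (hvv0 s) (hvv s) (fun w => rfl)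
  have h1 : (fun w => μ (ract ρ w x0)) = ∑ s, μ ((e.symm s : R) : E) •
      (fun w => algebraMap K L (c0 * vv s w (e ⟨r0, hr0R⟩))) := by
    funext w
    have h2 := key w (e ⟨r0, hr0R⟩)
    rw [Equiv.symm_apply_apply] at h2
    have h3 : ract ρ w x0 = algebraMap K L c0 • ract ρ w r0 := by
      rw [← ract_smul, ← h0]
    rw [h3, ← h2]
    simp only [Finset.sum_apply, Pi.smul_apply, smul_eq_mul, map_smul, map_sum, map_mul,
      Finset.mul_sum]
    exact Finset.sum_congr rfl fun s _ => by ring
  rw [h1]
  exact Submodule.sum_mem _ fun s _ => Submodule.smul_mem _ _ (Spn.of_PA (hPA s))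

/-- descent of finite projective orbits from `L` to `K` -/
lemma orbit_descend [Finite A] (ρ : A → End L E) (x0 : E) (R0 : Set E) (hR0 : R0.Finite)
    (h : ∀ w, ∃ c : L, ∃ r ∈ R0, ract ρ w x0 = c • r)
    (G : Subsemigroup L) (R1 : Set L) (hR1 : R1.Finite)
    (hGR : ∀ g ∈ G, ∃ c : K, ∃ r ∈ R1, g = algebraMap K L c * r)
    (hcyc : ∀ y : E, y ≠ 0 → ∀ v : List A, ∀ c : L, ract ρ v y = c • y → c ∈ G) :
    ∃ R2 : Set E, R2.Finite ∧
      ∀ w, ∃ c : K, ∃ r ∈ R2, ract ρ w x0 = algebraMap K L c • r := by
  classical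
  obtain ⟨n, hn⟩ : ∃ n, n = hR0.toFinset.card := ⟨_, rfl⟩
  have key : ∀ m, ∀ w : List A, w.length = m → ract ρ w x0 ≠ 0 →
      ∃ w' : List A, w'.length ≤ n ∧ (ract ρ w x0 = ract ρ w' x0 ∨
        ∃ g ∈ G, ract ρ w x0 = g • ract ρ w' x0) := by
    intro m
    induction m using Nat.strong_induction_on with
    | _ m ih =>
      intro w hw hne
      by_cases hle : m ≤ n
      · exact ⟨w, by omega, Or.inl rfl⟩
      push Not at hle
      -- prefixes
      choose cc rr hrr hcc using h
      have hmap : ∀ i ∈ Finset.range (n + 1), rr (w.take i) ∈ hR0.toFinset := fun i _ =>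
        hR0.mem_toFinset.mpr (hrr _)
      obtain ⟨i, hi, j, hj, hij, hijr⟩ := Finset.exists_ne_map_eq_of_card_lt_of_maps_to
        (s := Finset.range (n + 1)) (t := hR0.toFinset) (by rw [Finset.card_range]; omega)
        (f := fun i => rr (w.take i)) hmap
      have main : ∀ i j : ℕ, i < j → j ≤ n → rr (w.take i) = rr (w.take j) →
          ∃ w' : List A, w'.length ≤ n ∧ (ract ρ w x0 = ract ρ w' x0 ∨
            ∃ g ∈ G, ract ρ w x0 = g • ract ρ w' x0) := by
        intro i j hij hj hr
        obtain ⟨v, hv⟩ : ∃ v, w.take j = w.take i ++ v := by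
          refine ⟨(w.take j).drop i, ?_⟩
          have h5 : w.take i = (w.take j).take i := by
            rw [List.take_take, min_eq_left hij.le]
          rw [h5, List.take_append_drop]
        have hwj : w = w.take j ++ w.drop j := (List.take_append_drop j w).symm
        have e1 : ract ρ w x0 = ract ρ (w.drop j) (ract ρ (w.take j) x0) := by
          conv_lhs => rw [hwj, ract_append]
        have nj : ract ρ (w.take j) x0 ≠ 0 := by
          intro h0
          apply hne
          rw [e1, h0, ract_zero]
        have e2 : ract ρ (w.take j) x0 = ract ρ v (ract ρ (w.take i) x0) := by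
          rw [hv, ract_append]
        have ni : ract ρ (w.take i) x0 ≠ 0 := by
          intro h0
          apply nj
          rw [e2, h0, ract_zero]
        have ci : cc (w.take i) ≠ 0 := by
          intro h0
          apply ni
          rw [hcc, h0, zero_smul]
        have e3 : ract ρ v (ract ρ (w.take i) x0) =
            (cc (w.take j) / cc (w.take i)) • ract ρ (w.take i) x0 := by
          rw [← e2, hcc (w.take j), hcc (w.take i), smul_smul, div_mul_cancel₀ _ ci, hr]
        have hg := hcyc _ ni v _ e3
        have e4 : ract ρ w x0 =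
            (cc (w.take j) / cc (w.take i)) • ract ρ (w.take i ++ w.drop j) x0 := by
          rw [e1, e2, e3, ract_smul, ract_append]
        have hlen : (w.take i ++ w.drop j).length < m := by
          rw [List.length_append, List.length_take, List.length_drop, hw]
          omega
        have hne' : ract ρ (w.take i ++ w.drop j) x0 ≠ 0 := by
          intro h0
          apply hne
          rw [e4, h0, smul_zero]
        obtain ⟨w', hw', hcase⟩ := ih _ hlen _ rfl hne'
        refine ⟨w', hw', Or.inr ?_⟩
        rcases hcase with h6 | ⟨g, hgG, h6⟩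
        · exact ⟨_, hg, by rw [e4, h6]⟩
        · exact ⟨_, G.mul_mem hg hgG, by rw [e4, h6, smul_smul]⟩
      simp only [Finset.mem_range] at hi hj
      rcases lt_or_gt_of_ne hij with h7 | h7
      · exact main i j h7 (by omega) hijr
      · exact main j i h7 (by omega) hijr.symm
  refine ⟨insert 0 ((fun p : L × List A => p.1 • ract ρ p.2 x0) ''
    ((insert 1 R1) ×ˢ {w : List A | w.length ≤ n})),
    (((hR1.insert 1).prod (List.finite_length_le A n)).image _).insert 0, fun w => ?_⟩
  by_cases h0 : ract ρ w x0 = 0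
  · exact ⟨1, 0, Set.mem_insert _ _, by rw [h0]; simp⟩
  obtain ⟨w', hw', hcase⟩ := key _ w rfl h0
  rcases hcase with h6 | ⟨g, hgG, h6⟩
  · exact ⟨1, ract ρ w' x0, Set.mem_insert_of_mem _ ⟨(1, w'), ⟨Set.mem_insert _ _, hw'⟩,
      one_smul _ _⟩, by rw [h6]; simp⟩
  · obtain ⟨c, r, hr, hg⟩ := hGR g hgG
    refine ⟨c, r • ract ρ w' x0, Set.mem_insert_of_mem _ ⟨(r, w'),
      ⟨Set.mem_insert_of_mem _ hr, hw'⟩, rfl⟩, ?_⟩
    rw [h6, hg, mul_smul]

end

/-- the reversed automaton -/
def WAut.rev {R Q : Type*} (X : WAut R A Q) : WAut R A Q :=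
  ⟨X.fin, fun a => (X.tr a)ᵀ, X.init⟩

lemma WAut.rev_val {R Q : Type*} [CommSemiring R] [Fintype Q] (X : WAut R A Q) (w : List A) :
    X.rev.val w = X.val w.reverse := by
  classical
  have h1 : (w.map X.rev.tr).prod = ((w.reverse.map X.tr).prod)ᵀ := by
    rw [Matrix.transpose_list_prod, List.map_map, List.map_reverse, List.reverse_reverse]
    rfl
  rw [WAut.val, WAut.val, WAut.vec_eq, WAut.vec_eq, h1, Matrix.mulVec_transpose]
  change X.fin ⬝ᵥ (X.init ᵥ* _) = X.init ⬝ᵥ (_ *ᵥ X.fin)
  rw [dotProduct_comm, Matrix.dotProduct_mulVec]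

/-- reversal of polynomially ambiguous functions -/
lemma PA.reverse {f : List A → K} (hf : PA f) : PA (fun w => f w.reverse) := by
  obtain ⟨Q, _, X, hX, C, k, hC⟩ := hf
  refine ⟨Q, inferInstance, X.rev, fun w => ?_, C, k, fun w => ?_⟩
  · rw [WAut.rev_val, hX]
  · have h1 : X.rev.supp = X.supp.rev := rfl
    rw [h1, WAut.rev_val]
    have h2 := hC w.reverse
    rwa [List.length_reverse] at h2

lemma Spn.reverse {f : List A → L} (hf : f ∈ Spn K L A) : (fun w => f w.reverse) ∈ Spn K L A := by
  unfold Spn at hf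
  induction hf using Submodule.span_induction with
  | mem f h =>
    obtain ⟨f0, hf0, rfl⟩ := h
    exact Spn.of_PA hf0.reverse
  | zero => exact Submodule.zero_mem _
  | add f g _ _ ih ih' => exact Submodule.add_mem _ ih ih'
  | smul c f _ ih => exact Submodule.smul_mem _ c ih

section

variable {V : Type*} [AddCommGroup V] [Module L V]

lemma ract_comp (M : A → End L V) (w : List A) (μ : V →ₗ[L] L) :
    ract (fun a => (M a).dualMap) w μ = μ.comp (act M w) := by
  induction w generalizing μ with
  | nil => rfl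
  | cons a w ih =>
    rw [ract_cons, ih, act_cons]
    rfl

lemma ract_act (M : A → End L V) (w : List A) (x : V) :
    ract M w x = act M w.reverse x := by
  induction w generalizing x with
  | nil => rfl
  | cons a w ih =>
    rw [ract_cons, ih, List.reverse_cons, act_append]
    simp [act]

/-- a linear form all of whose translates lie on finitely many lines -/
def RowFin (M : A → End L V) (μ : V →ₗ[L] L) : Prop :=
  ∃ R : Set (V →ₗ[L] L), R.Finite ∧ ∀ w, ∃ c : L, ∃ r ∈ R, μ.comp (act M w) = c • r

/-- a vector all of whose translates lie on finitely many lines -/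
def ColFin (M : A → End L V) (x : V) : Prop :=
  ∃ R : Set V, R.Finite ∧ ∀ w, ∃ c : L, ∃ r ∈ R, act M w x = c • r

lemma Good.of_rows [Finite A] [FiniteDimensional L V] (M : A → End L V)
    (G : Subsemigroup L) (hG : EigIn M (G : Set L)) (R1 : Set L) (hR1 : R1.Finite)
    (hGR : ∀ g ∈ G, ∃ c : K, ∃ r ∈ R1, g = algebraMap K L c * r)
    (hspan : Submodule.span L {μ | RowFin M μ} = ⊤) : Good K M := by
  have key : ∀ μ : V →ₗ[L] L, RowFin M μ → ∀ x, (fun w => μ (act M w x)) ∈ Spn K L A := by
    rintro μ ⟨R, hR, hμ⟩ x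
    have h1 : ∀ w, ∃ c : L, ∃ r ∈ R, ract (fun a => (M a).dualMap) w μ = c • r := by
      intro w; rw [ract_comp]; exact hμ w
    obtain ⟨R2, hR2, h2⟩ := orbit_descend (K := K) (fun a => (M a).dualMap) μ R hR h1 G R1 hR1 hGR
      (by
        intro y hy v c hv
        rw [ract_comp] at hv
        -- `c` is an eigenvalue of `act M v`
        have h3 : ¬ Function.Surjective (act M v - c • (1 : End L V)) := by
          intro hs
          apply hy
          apply LinearMap.ext
          intro z
          obtain ⟨z', rfl⟩ := hs z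
          have h4 := LinearMap.congr_fun hv z'
          rw [LinearMap.comp_apply, LinearMap.smul_apply] at h4
          simp [h4]
        have h5 : ¬ Function.Injective (act M v - c • (1 : End L V)) := fun hi =>
          h3 (LinearMap.surjective_of_injective hi)
        rw [← LinearMap.ker_eq_bot, LinearMap.ker_eq_bot'] at h5
        push Not at h5
        obtain ⟨z, hz, hz0⟩ := h5
        refine hG v c z hz0 ?_
        simpa [sub_eq_zero] using hz)
    have h6 := orbit_Spn (K := K) (fun a => (M a).dualMap) μ R2 hR2 h2 (Module.Dual.eval L V x)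
    have h7 : (fun w => (Module.Dual.eval L V x) (ract (fun a => (M a).dualMap) w μ)) =
        fun w => μ (act M w x) := by
      funext w
      rw [ract_comp]
      rfl
    rwa [h7] at h6
  intro x μ
  have hμ : μ ∈ Submodule.span L {μ | RowFin M μ} := by rw [hspan]; trivial
  induction hμ using Submodule.span_induction with
  | mem μ h => exact key μ h x
  | zero =>
    have h1 : (fun w : List A => (0 : V →ₗ[L] L) (act M w x)) = 0 := rfl
    rw [h1]
    exact Submodule.zero_mem _
  | add μ ν _ _ ih ih' => exact Submodule.add_mem _ ih ih'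
  | smul c μ _ ih => exact Submodule.smul_mem _ c ih

lemma Good.of_cols [Finite A] [FiniteDimensional L V] (M : A → End L V)
    (G : Subsemigroup L) (hG : EigIn M (G : Set L)) (R1 : Set L) (hR1 : R1.Finite)
    (hGR : ∀ g ∈ G, ∃ c : K, ∃ r ∈ R1, g = algebraMap K L c * r)
    (hspan : Submodule.span L {x | ColFin M x} = ⊤) : Good K M := by
  have key : ∀ x : V, ColFin M x → ∀ μ : V →ₗ[L] L,
      (fun w => μ (act M w x)) ∈ Spn K L A := by
    rintro x ⟨R, hR, hx⟩ μ
    have h1 : ∀ w, ∃ c : L, ∃ r ∈ R, ract M w x = c • r := by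
      intro w; rw [ract_act]; exact hx _
    obtain ⟨R2, hR2, h2⟩ := orbit_descend (K := K) M x R hR h1 G R1 hR1 hGR
      (by
        intro y hy v c hv
        rw [ract_act] at hv
        exact hG _ c y hy hv)
    have h6 := Spn.reverse (orbit_Spn (K := K) M x R2 hR2 h2 μ)
    have h7 : (fun w : List A => μ (ract M w.reverse x)) = fun w => μ (act M w x) := by
      funext w
      rw [ract_act, List.reverse_reverse]
    rwa [h7] at h6
  intro x
  have hx : x ∈ Submodule.span L {x | ColFin M x} := by rw [hspan]; trivial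
  induction hx using Submodule.span_induction with
  | mem x h => exact key x h
  | zero =>
    intro μ
    have h1 : (fun w => μ (act M w 0)) = 0 := by
      funext w; simp
    rw [h1]
    exact Submodule.zero_mem _
  | add x y _ _ ih ih' =>
    intro μ
    have h1 : (fun w => μ (act M w (x + y))) =
        (fun w => μ (act M w x)) + fun w => μ (act M w y) := by
      funext w; simp
    rw [h1]
    exact Submodule.add_mem _ (ih μ) (ih' μ)
  | smul c x _ ih =>
    intro μ
    have h1 : (fun w => μ (act M w (c • x))) = c • fun w => μ (act M w x) := by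
      funext w; simp
    rw [h1]
    exact Submodule.smul_mem _ c (ih μ)

end

end Pool.Agent.Helper68.WA
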