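import Pool.Agent.Helper68.WA.Basic

set_option autoImplicit false
set_option linter.unusedSectionVars false

/-!
# The class of polynomially ambiguous functions
-/

namespace Pool.Agent.Helper68.WA

open Matrix

section field

variable {K A : Type*} [Field K] {Q Q' : Type*} [Fintype Q] [Fintype Q']

open Classical in
/-- indicator of nonzero elements, with values in `ℕ` -/
noncomputable def ind (x : K) : ℕ := if x = 0 then 0 else 1

@[simp] lemma ind_zero : ind (0 : K) = 0 := by simp [ind]

lemma ind_of_ne {x : K} (hx : x ≠ 0) : ind x = 1 := by simp [ind, hx]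

lemma ind_mul (x y : K) : ind (x * y) = ind x * ind y := by
  by_cases hx : x = 0
  · simp [hx]
  · by_cases hy : y = 0
    · simp [hy]
    · rw [ind_of_ne hx, ind_of_ne hy, ind_of_ne (mul_ne_zero hx hy)]

lemma ind_le_one (x : K) : ind x ≤ 1 := by
  by_cases hx : x = 0
  · simp [hx]
  · rw [ind_of_ne hx]

/-- the support automaton, with weights in `ℕ` -/
noncomputable def WAut.supp (X : WAut K A Q) : WAut ℕ A Q where
  init q := ind (X.init q)
  tr a := Matrix.of fun q q' => ind (X.tr a q q')
  fin q := ind (X.fin q)

lemma WAut.supp_sum (X : WAut K A Q) (Y : WAut K A Q') :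
    (X.sum Y).supp = X.supp.sum Y.supp := by
  unfold WAut.supp WAut.sum
  congr 1
  · funext q; rcases q with q | q <;> simp
  · funext a; ext q q'; rcases q with q | q <;> rcases q' with q' | q' <;> simp
  · funext q; rcases q with q | q <;> simp

lemma WAut.supp_mcAut [DecidableEq A] (b : A) (X : WAut K A Q) (Y : WAut K A Q') :
    (WAut.mcAut b X Y).supp = WAut.mcAut b X.supp Y.supp := by
  unfold WAut.supp WAut.mcAut
  congr 1
  · funext q; rcases q with q | q <;> simp
  · funext a; ext q q'
    rcases q with q | q <;> rcases q' with q' | q' <;> simp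
    by_cases hab : a = b
    · simp [hab, vecMulVec_apply, ind_mul]
    · simp [hab]
  · funext q; rcases q with q | q <;> simp

/-- `f` is recognised by a polynomially ambiguous weighted automaton (internal form). -/
def PA (f : List A → K) : Prop :=
  ∃ (Q : Type) (_ : Fintype Q) (X : WAut K A Q), (∀ w, X.val w = f w) ∧
    ∃ C k : ℕ, ∀ w : List A, X.supp.val w ≤ C * (w.length + 1) ^ k

lemma PA.add {f g : List A → K} (hf : PA f) (hg : PA g) : PA (f + g) := by
  obtain ⟨Q, _, X, hX, C, k, hC⟩ := hf
  obtain ⟨Q', _, Y, hY, C', k', hC'⟩ := hg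
  refine ⟨Q ⊕ Q', inferInstance, X.sum Y, fun w => ?_, C + C', k + k', fun w => ?_⟩
  · rw [WAut.sum_val, hX, hY]; rfl
  · rw [WAut.supp_sum, WAut.sum_val, add_mul]
    have h1 : (w.length + 1) ^ k ≤ (w.length + 1) ^ (k + k') :=
      Nat.pow_le_pow_right (Nat.succ_pos _) (by omega)
    have h2 : (w.length + 1) ^ k' ≤ (w.length + 1) ^ (k + k') :=
      Nat.pow_le_pow_right (Nat.succ_pos _) (by omega)
    exact Nat.add_le_add ((hC w).trans (Nat.mul_le_mul_left _ h1))
      ((hC' w).trans (Nat.mul_le_mul_left _ h2))

lemma PA.zero : PA (0 : List A → K) := by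
  refine ⟨Empty, inferInstance, ⟨fun q => q.elim, fun _ => 0, fun q => q.elim⟩, fun w => ?_,
    0, 0, fun w => ?_⟩
  · simp [WAut.val, dotProduct]
  · simp [WAut.val, dotProduct]

lemma PA.smul {f : List A → K} (hf : PA f) (c : K) : PA (c • f) := by
  by_cases hc : c = 0
  · subst hc
    rw [zero_smul]
    exact PA.zero
  obtain ⟨Q, _, X, hX, C, k, hC⟩ := hf
  have hv : ∀ w, (⟨c • X.init, X.tr, X.fin⟩ : WAut K A Q).vec w = X.vec w := by
    intro w
    induction w with
    | nil => rfl
    | cons a w ih => rw [WAut.vec_cons, ih]; rfl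
  refine ⟨Q, inferInstance, ⟨c • X.init, X.tr, X.fin⟩, fun w => ?_, C, k, fun w => ?_⟩
  · rw [WAut.val, hv, Pi.smul_apply, ← hX, WAut.val]
    exact smul_dotProduct _ _ _
  · have h1 : (⟨c • X.init, X.tr, X.fin⟩ : WAut K A Q).supp = X.supp := by
      unfold WAut.supp
      congr 1
      funext q
      change ind (c * X.init q) = ind (X.init q)
      rw [ind_mul, ind_of_ne hc, one_mul]
    rw [h1]
    exact hC w

lemma PA.mc [DecidableEq A] (b : A) {f g : List A → K} (hf : PA f) (hg : PA g) :
    PA (mc b f g) := by
  obtain ⟨Q, _, X, hX, C, k, hC⟩ := hf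
  obtain ⟨Q', _, Y, hY, C', k', hC'⟩ := hg
  refine ⟨Q ⊕ Q', inferInstance, WAut.mcAut b X Y, fun w => ?_, C * C', k + k' + 1, fun w => ?_⟩
  · rw [WAut.mcAut_val]
    have h1 : X.val = f := funext hX
    have h2 : Y.val = g := funext hY
    rw [h1, h2]
  · rw [WAut.supp_mcAut, WAut.mcAut_val]
    refine (mc_le b Y.supp.val (C' * (w.length + 1) ^ k') w X.supp.val
      (C * (w.length + 1) ^ k) (fun u hu => (hC u).trans ?_) (fun v hv => (hC' v).trans ?_)).trans
      ?_
    · exact Nat.mul_le_mul_left _ (Nat.pow_le_pow_left (by omega) _)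
    · exact Nat.mul_le_mul_left _ (Nat.pow_le_pow_left (by omega) _)
    · calc w.length * (C * (w.length + 1) ^ k * (C' * (w.length + 1) ^ k'))
          ≤ (w.length + 1) * (C * (w.length + 1) ^ k * (C' * (w.length + 1) ^ k')) :=
            Nat.mul_le_mul_right _ (Nat.le_succ _)
        _ = C * C' * (w.length + 1) ^ (k + k' + 1) := by ring

/-- deterministic automata -/
lemma PA.det {Q : Type} [Fintype Q] (q0 : Q) (c0 : K) (δ : A → Q → Q) (wt : A → Q → K)
    (F : Q → K) (f : List A → K)
    (v : List A → Q → K) (hv0 : ∀ q, v [] q = F q)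
    (hv : ∀ a w q, v (a :: w) q = wt a q * v w (δ a q)) (hf : ∀ w, f w = c0 * v w q0) : PA f := by
  classical
  let X : WAut K A Q :=
    { init := Pi.single q0 c0
      tr := fun a => Matrix.of fun q q' => if q' = δ a q then wt a q else 0
      fin := F }
  have hX : ∀ w q, X.vec w q = v w q := by
    intro w
    induction w with
    | nil => intro q; rw [hv0]; rfl
    | cons a w ih =>
      intro q
      rw [WAut.vec_cons, hv, Matrix.mulVec, dotProduct]
      rw [Finset.sum_eq_single (δ a q)]
      · simp [X, ih]
      · intro q' _ hq'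
        simp [X, hq']
      · simp
  have hs : ∀ w q, X.supp.vec w q ≤ 1 := by
    intro w
    induction w with
    | nil => intro q; exact ind_le_one _
    | cons a w ih =>
      intro q
      rw [WAut.vec_cons, Matrix.mulVec, dotProduct, Finset.sum_eq_single (δ a q)]
      · have h1 : X.supp.tr a q (δ a q) ≤ 1 := ind_le_one _
        calc _ ≤ 1 * 1 := Nat.mul_le_mul h1 (ih _)
          _ = 1 := by norm_num
      · intro q' _ hq'
        simp [WAut.supp, X, hq']
      · simp
  refine ⟨Q, inferInstance, X, fun w => ?_, 1, 0, fun w => ?_⟩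
  · rw [WAut.val, hf, dotProduct, Finset.sum_eq_single q0]
    · simp [X, hX]
    · intro q _ hq
      simp [X, hq]
    · simp
  · rw [WAut.val, dotProduct, Finset.sum_eq_single q0]
    · have h1 : X.supp.init q0 ≤ 1 := ind_le_one _
      calc _ ≤ 1 * 1 := Nat.mul_le_mul h1 (hs _ _)
        _ = 1 * (w.length + 1) ^ 0 := by norm_num
    · intro q _ hq
      simp [WAut.supp, X, hq]
    · simp

end field

section span

variable {K L A : Type*} [Field K] [Field L] [Algebra K L]

variable (K L A) in
/-- the `L`-span of the polynomially ambiguous functions over `K` -/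
def Spn : Submodule L (List A → L) :=
  Submodule.span L {h | ∃ f : List A → K, PA f ∧ h = fun w => algebraMap K L (f w)}

lemma Spn.of_PA {f : List A → K} (hf : PA f) : (fun w => algebraMap K L (f w)) ∈ Spn K L A :=
  Submodule.subset_span ⟨f, hf, rfl⟩

lemma Spn.mc [DecidableEq A] (b : A) {f g : List A → L} (hf : f ∈ Spn K L A)
    (hg : g ∈ Spn K L A) : WA.mc b f g ∈ Spn K L A := by
  unfold Spn at hf
  induction hf using Submodule.span_induction with
  | mem f h =>
    obtain ⟨f0, hf0, rfl⟩ := h
    unfold Spn at hg
    induction hg using Submodule.span_induction with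
    | mem g h =>
      obtain ⟨g0, hg0, rfl⟩ := h
      have h1 : WA.mc b (fun w => algebraMap K L (f0 w)) (fun w => algebraMap K L (g0 w)) =
          fun w => algebraMap K L (WA.mc b f0 g0 w) := by
        funext w
        exact mc_map (algebraMap K L) b w f0 g0
      rw [h1]
      exact Spn.of_PA (hf0.mc b hg0)
    | zero =>
      have h1 : WA.mc b (fun w => algebraMap K L (f0 w)) (0 : List A → L) = 0 := by
        funext w
        have := mc_smul_right b (0 : L) w (fun w => algebraMap K L (f0 w)) 0
        simpa using this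
      rw [h1]
      exact Submodule.zero_mem _
    | add g g' _ _ ih ih' =>
      have h1 : WA.mc b (fun w => algebraMap K L (f0 w)) (g + g') =
          WA.mc b (fun w => algebraMap K L (f0 w)) g +
          WA.mc b (fun w => algebraMap K L (f0 w)) g' := by
        funext w
        exact mc_add_right b w _ g g'
      rw [h1]
      exact Submodule.add_mem _ ih ih'
    | smul c g _ ih =>
      have h1 : WA.mc b (fun w => algebraMap K L (f0 w)) (c • g) =
          c • WA.mc b (fun w => algebraMap K L (f0 w)) g := by
        funext w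
        exact mc_smul_right b c w _ g
      rw [h1]
      exact Submodule.smul_mem _ _ ih
  | zero =>
    have h1 : WA.mc b (0 : List A → L) g = 0 := by
      funext w
      have := mc_smul_left b g (0 : L) w 0
      simpa using this
    rw [h1]
    exact Submodule.zero_mem _
  | add f f' _ _ ih ih' =>
    have h1 : WA.mc b (f + f') g = WA.mc b f g + WA.mc b f' g := by
      funext w
      exact mc_add_left b g w f f'
    rw [h1]
    exact Submodule.add_mem _ ih ih'
  | smul c f _ ih =>
    have h1 : WA.mc b (c • f) g = c • WA.mc b f g := by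
      funext w
      exact mc_smul_left b g c w f
    rw [h1]
    exact Submodule.smul_mem _ _ ih

lemma Spn.functional {h : List A → L} (hh : h ∈ Spn K L A) :
    ∀ φ : L →ₗ[K] K, PA (fun w => φ (h w)) := by
  unfold Spn at hh
  induction hh using Submodule.span_induction with
  | mem h hm =>
    obtain ⟨f, hf, rfl⟩ := hm
    intro φ
    have h1 : (fun w => φ (algebraMap K L (f w))) = (φ 1) • f := by
      funext w
      rw [Algebra.algebraMap_eq_smul_one, map_smul, Pi.smul_apply, smul_eq_mul, smul_eq_mul,
        mul_comm]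
    rw [h1]
    exact hf.smul _
  | zero =>
    intro φ
    have h1 : (fun w : List A => φ ((0 : List A → L) w)) = 0 := by
      funext w; simp
    rw [h1]
    exact PA.zero
  | add f g _ _ ih ih' =>
    intro φ
    have h1 : (fun w => φ ((f + g) w)) = (fun w => φ (f w)) + fun w => φ (g w) := by
      funext w; simp
    rw [h1]
    exact (ih φ).add (ih' φ)
  | smul c f _ ih =>
    intro φ
    have h1 : (fun w => φ ((c • f) w)) =
        fun w => (φ.comp (LinearMap.mulLeft K c)) (f w) := by
      funext w; simp
    rw [h1]
    exact ih _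

/-- descent: a `K`-valued function in the `L`-span is polynomially ambiguous over `K` -/
lemma PA.of_Spn {f : List A → K} (h : (fun w => algebraMap K L (f w)) ∈ Spn K L A) : PA f := by
  obtain ⟨φ, hφ⟩ := LinearMap.exists_leftInverse_of_injective (Algebra.linearMap K L)
    (LinearMap.ker_eq_bot.mpr (algebraMap K L).injective)
  have h1 := Spn.functional h φ
  have h2 : (fun w => φ (algebraMap K L (f w))) = f := by
    funext w
    exact LinearMap.congr_fun hφ (f w)
  rwa [h2] at h1

end span

end Pool.Agent.Helper68.WA
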