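import Pool.Agent.Helper68.WA.Thick

set_option autoImplicit false
set_option linter.unusedSectionVars false

/-!
# Coefficient functions with values in a set satisfying a unit equation theorem
-/

namespace Pool.Agent.Helper68.WA

open Matrix Module

universe u v

variable {K : Type u} {L : Type v} {A : Type*} [Field K] [Field L] [Algebra K L]
variable {E : Type*} [AddCommGroup E] [Module L E]

theorem polya [Finite A] [FiniteDimensional L E] (ρ : A → End L E)
    (G : Set L) (hG : ∀ w, ∀ μ : L, ∀ ω : E, ω ≠ 0 → rl ρ w ω = μ • ω → μ ∈ G)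
    (R1 : Set L) (hR1 : R1.Finite)
    (hGR : ∀ g ∈ G, ∃ c : K, ∃ r ∈ R1, g = algebraMap K L c * r)
    (Γ : Set L) (hU : UnitEq Γ) (ξ : E →ₗ[L] L) (ω0 : E)
    (hF : ∀ w, ξ (rl ρ w ω0) ∈ Γ)
    (hcols : Submodule.span L (Set.range fun v => ξ.comp (rl ρ v)) = ⊤) :
    (fun w => ξ (rl ρ w ω0)) ∈ Spn K L A := by
  classical
  set Ω : Set E := Set.range fun u => rl ρ u ω0 with hΩ
  obtain ⟨𝒯, h𝒯fin, h𝒯thick, h𝒯cov⟩ :=
    exists_thick_cover (L := L) Ω _ (⊤ : Submodule L E) rfl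
  have hΩD : ∀ ω ∈ Ω, ∀ a, ρ a ω ∈ Ω := by
    rintro _ ⟨u, rfl⟩ a
    refine ⟨u ++ [a], ?_⟩
    simp only [rl_append, rl_cons, rl_nil, one_mul, Module.End.mul_apply]
  -- transitions
  have htrans : ∀ T : 𝒯, ∀ a, ∃ T' : 𝒯, ∀ ω ∈ T.1, ρ a ω ∈ T'.1 := by
    intro T a
    obtain ⟨U, ⟨T', hT', rfl⟩, hle⟩ := h𝒯thick T.1 T.2
      ((fun T' : Submodule L E => T'.comap (ρ a)) '' 𝒯) (h𝒯fin.image _)
      (fun ω hω _ => by
        obtain ⟨T', hT', h'⟩ := h𝒯cov _ (hΩD ω hω a) trivial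
        exact ⟨_, ⟨T', hT', rfl⟩, h'⟩)
    exact ⟨⟨T', hT'⟩, fun ω hω => hle hω⟩
  choose δ hδ using htrans
  have hbas : ∀ T : 𝒯, ∃ (m : ℕ) (β : Basis (Fin m) L (T.1 →ₗ[L] L)),
      ∀ i, ∃ c ∈ Set.range (fun v => ξ.comp (rl ρ v)), β i = c.comp T.1.subtype :=
    fun T => exists_basis_restrict T.1 _ hcols
  choose m β hβ using hbas
  have : Fintype 𝒯 := h𝒯fin.fintype
  -- the matrix
  let n := Σ T : 𝒯, Fin (m T)
  let MM : A → Matrix n n L := fun a => Matrix.of fun p q =>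
    if h : q.1 = δ p.1 a then
      (β p.1).repr ((β q.1 q.2).comp ((ρ a).restrict (p := p.1.1) (q := q.1.1) (by rw [h]; exact hδ p.1 a))) p.2
    else 0
  have hMM0 : ∀ a p q, q.1 ≠ δ p.1 a → MM a p q = 0 := by
    intro a p q h
    simp only [MM, Matrix.of_apply]
    rw [dif_neg h]
  have hMM1 : ∀ a p q (h' : ∀ ω ∈ p.1.1, ρ a ω ∈ q.1.1), q.1 = δ p.1 a →
      MM a p q = (β p.1).repr ((β q.1 q.2).comp ((ρ a).restrict h')) p.2 := by
    intro a p q h' h
    simp only [MM, Matrix.of_apply]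
    rw [dif_pos h]
  -- values on `Ω`
  have hval : ∀ (T : 𝒯) (i : Fin (m T)) (ω : T.1), (ω : E) ∈ Ω → β T i ω ∈ Γ := by
    rintro T i ω ⟨u, hu⟩
    obtain ⟨_, ⟨v, rfl⟩, h⟩ := hβ T i
    have h1 : β T i ω = ξ (rl ρ (u ++ v) ω0) := by
      rw [h, rl_append, LinearMap.comp_apply, LinearMap.comp_apply, Submodule.subtype_apply,
        ← hu]
      rfl
    rw [h1]
    exact hF _
  -- codeterminism
  have hcodet : ∀ a (T T' : 𝒯) (h' : ∀ ω ∈ T.1, ρ a ω ∈ T'.1) (i' : Fin (m T'))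
      (i j : Fin (m T)), (β T).repr ((β T' i').comp ((ρ a).restrict h')) i ≠ 0 →
      (β T).repr ((β T' i').comp ((ρ a).restrict h')) j ≠ 0 → i = j := by
    intro a T T' h' i' i j hi hj
    by_contra hij
    set f := (β T' i').comp ((ρ a).restrict h') with hf
    obtain ⟨𝒰, h𝒰fin, h𝒰top, h𝒰⟩ := hU (m T) (fun l => (β T).repr f l) i j hij hi hj
    let Ψ : T.1 →ₗ[L] (Fin (m T) → L) := LinearMap.pi fun l => β T l
    have hΨinj : Function.Injective Ψ := by
      rw [← LinearMap.ker_eq_bot, LinearMap.ker_eq_bot']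
      intro ω hω
      rw [← Module.forall_dual_apply_eq_zero_iff L]
      intro g
      rw [← (β T).sum_repr g, LinearMap.sum_apply]
      refine Finset.sum_eq_zero fun l _ => ?_
      have h1 : β T l ω = 0 := congrFun hω l
      rw [LinearMap.smul_apply, h1, smul_zero]
    have hrank : Module.finrank L T.1 = Module.finrank L (Fin (m T) → L) := by
      rw [Module.finrank_fin_fun, ← Subspace.dual_finrank_eq]
      have h1 := Module.finrank_eq_card_basis (β T)
      rw [Fintype.card_fin] at h1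
      exact h1
    have hΨsurj : Function.Surjective Ψ :=
      (LinearMap.injective_iff_surjective_of_finrank_eq_finrank hrank).mp hΨinj
    obtain ⟨U', ⟨U, hUm, rfl⟩, hle⟩ := h𝒯thick T.1 T.2
      ((fun U : Submodule L (Fin (m T) → L) => (U.comap Ψ).map T.1.subtype) '' 𝒰)
      (h𝒰fin.image _) (fun ω hω hωT => by
        obtain ⟨U, hUm, hUx⟩ := h𝒰 (Ψ ⟨ω, hωT⟩) (fun l => hval T l ⟨ω, hωT⟩ hω) (by
          have h1 : ∑ l, (β T).repr f l * Ψ ⟨ω, hωT⟩ l = f ⟨ω, hωT⟩ := by
            conv_rhs => rw [← (β T).sum_repr f]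
            rw [LinearMap.sum_apply]
            rfl
          rw [h1]
          exact hval T' i' ((ρ a).restrict h' ⟨ω, hωT⟩) (hΩD ω hω a))
        exact ⟨_, ⟨U, hUm, rfl⟩, ⟨⟨ω, hωT⟩, hUx, rfl⟩⟩)
    apply h𝒰top U hUm
    rw [eq_top_iff]
    intro y _
    obtain ⟨ω, rfl⟩ := hΨsurj y
    obtain ⟨ω', hω', h2⟩ := hle ω.2
    have h3 : ω' = ω := Subtype.ext h2
    rw [← h3]
    exact hω'
  -- one step
  have hstep : ∀ a (p q : n), MM a p q ≠ 0 → (∀ ω ∈ p.1.1, ρ a ω ∈ q.1.1) ∧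
      ∀ (ω : p.1.1) (hω' : ρ a ω ∈ q.1.1),
        β q.1 q.2 ⟨_, hω'⟩ = MM a p q * β p.1 p.2 ω := by
    intro a p q hpq
    have hq : q.1 = δ p.1 a := by
      by_contra h; exact hpq (hMM0 a p q h)
    have h' : ∀ ω ∈ p.1.1, ρ a ω ∈ q.1.1 := by rw [hq]; exact hδ p.1 a
    refine ⟨h', fun ω hω' => ?_⟩
    have h1 := hMM1 a p q h' hq
    have h2 : β q.1 q.2 ⟨_, hω'⟩ = ((β q.1 q.2).comp ((ρ a).restrict h')) ω := rfl
    rw [h2]
    conv_lhs => rw [← (β p.1).sum_repr ((β q.1 q.2).comp ((ρ a).restrict h'))]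
    rw [LinearMap.sum_apply, Finset.sum_eq_single p.2]
    · rw [LinearMap.smul_apply, smul_eq_mul, h1]
    · intro l _ hl
      have h3 : (β p.1).repr ((β q.1 q.2).comp ((ρ a).restrict h')) l = 0 := by
        by_contra h4
        exact hl (hcodet a p.1 q.1 h' q.2 l p.2 h4 (by rw [← h1]; exact hpq))
      rw [h3, zero_smul]
      rfl
    · intro h; exact absurd (Finset.mem_univ _) h
  -- paths
  have hpath : ∀ (p q : n) w κ, PW MM Set.univ p w q κ →
      (∀ ω ∈ p.1.1, rl ρ w ω ∈ q.1.1) ∧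
      ∀ (ω : p.1.1) (hω' : rl ρ w ω ∈ q.1.1),
        β q.1 q.2 ⟨_, hω'⟩ = κ * β p.1 p.2 ω := by
    intro p q w κ h
    induction h with
    | nil p =>
      refine ⟨fun ω hω => hω, fun ω hω' => ?_⟩
      rw [one_mul]
      rfl
    | single p q a h =>
      have h1 := hstep a p q h
      exact ⟨fun ω hω => h1.1 ω hω, fun ω hω' => h1.2 ω hω'⟩
    | cons p p' q a w κ h hp hw ih =>
      have h1 := hstep a p p' h
      refine ⟨fun ω hω => ih.1 _ (h1.1 ω hω), fun ω hω' => ?_⟩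
      have h3 := h1.2 ω (h1.1 ω.1 ω.2)
      have h4 := ih.2 ⟨_, h1.1 ω.1 ω.2⟩ (ih.1 _ (h1.1 ω.1 ω.2))
      rw [h3] at h4
      rw [mul_comm (MM a p p') κ, mul_assoc, ← h4]
      rfl
  -- cycles
  have hcyc : ∀ (s : n) w κ, PW MM Set.univ s w s κ → κ ∈ G := by
    intro s w κ h
    obtain ⟨h1, h2⟩ := hpath s s w κ h
    by_contra hκ
    let Θ : s.1.1 →ₗ[L] s.1.1 := (rl ρ w).restrict h1 - κ • LinearMap.id
    have hΘinj : Function.Injective Θ := by
      rw [← LinearMap.ker_eq_bot, LinearMap.ker_eq_bot']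
      intro ω hω
      by_contra hω0
      refine hκ (hG w κ (ω : E) (fun h0 => hω0 (Subtype.ext h0)) ?_)
      have h3 := congrArg (Subtype.val) hω
      have h4 : ((Θ ω : s.1.1) : E) = rl ρ w ω - κ • (ω : E) := rfl
      rw [h4] at h3
      exact sub_eq_zero.mp h3
    have hΘsurj : Function.Surjective Θ := LinearMap.surjective_of_injective hΘinj
    apply (β s.1).ne_zero s.2
    apply LinearMap.ext
    intro ω
    obtain ⟨ω', rfl⟩ := hΘsurj ω
    have h5 : Θ ω' = ⟨_, h1 ω'.1 ω'.2⟩ - κ • ω' := rfl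
    rw [h5, map_sub, map_smul, h2 ω', smul_eq_mul, sub_self]
    rfl
  obtain ⟨R, hR, hcl⟩ := finite_classes (K := K) MM R1 hR1
    (fun s w κ h => hGR κ (hcyc s w κ h)) Finset.univ
  rw [Finset.coe_univ] at hcl
  -- counts
  have hcnt : ∀ w (T : 𝒯) (q : n), ∑ i, cntM MM w ⟨T, i⟩ q ≤ 1 := by
    intro w
    induction w with
    | nil =>
      intro T q
      simp only [cntM, List.map_nil, List.prod_nil, Matrix.one_apply]
      by_cases hq : ∃ i, (⟨T, i⟩ : n) = q
      · obtain ⟨i, rfl⟩ := hq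
        rw [Finset.sum_eq_single i]
        · simp
        · intro j _ hj
          rw [if_neg]
          intro h
          apply hj
          simpa using h
        · simp
      · push Not at hq
        rw [Finset.sum_eq_zero]
        · exact Nat.zero_le _
        · intro i _
          rw [if_neg (hq i)]
    | cons a w ih =>
      intro T q
      simp only [cntM_cons]
      rw [Finset.sum_comm]
      simp only [← Finset.sum_mul]
      have h1 : ∀ p' : n, (∑ i, ind (MM a ⟨T, i⟩ p')) ≤ 1 := by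
        intro p'
        by_cases h : ∃ i, MM a ⟨T, i⟩ p' ≠ 0
        · obtain ⟨i, hi⟩ := h
          rw [Finset.sum_eq_single i]
          · exact ind_le_one _
          · intro j _ hj
            have h2 : MM a ⟨T, j⟩ p' = 0 := by
              by_contra h3
              apply hj
              have hq : p'.1 = δ T a := by
                by_contra h; exact hi (hMM0 a ⟨T, i⟩ p' h)
              have h' : ∀ ω ∈ T.1, ρ a ω ∈ p'.1.1 := by rw [hq]; exact hδ T a
              refine hcodet a T p'.1 h' p'.2 j i ?_ ?_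
              · have := hMM1 a ⟨T, j⟩ p' h' hq
                rwa [this] at h3
              · have := hMM1 a ⟨T, i⟩ p' h' hq
                rwa [this] at hi
            rw [h2, ind_zero]
          · simp
        · push Not at h
          rw [Finset.sum_eq_zero fun i _ => by rw [h i, ind_zero]]
          exact Nat.zero_le _
      have h0 : ∀ p' : n, p'.1 ≠ δ T a → (∑ i, ind (MM a ⟨T, i⟩ p')) = 0 := by
        intro p' hp'
        refine Finset.sum_eq_zero fun i _ => ?_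
        rw [hMM0 a ⟨T, i⟩ p' hp', ind_zero]
      rw [Fintype.sum_sigma, Finset.sum_eq_single (δ T a)]
      · refine le_trans (Finset.sum_le_sum fun i _ => ?_) (ih (δ T a) q)
        calc _ ≤ 1 * cntM MM w ⟨δ T a, i⟩ q := Nat.mul_le_mul_right _ (h1 _)
          _ = _ := one_mul _
      · intro T' _ hT'
        refine Finset.sum_eq_zero fun i _ => ?_
        rw [h0 ⟨T', i⟩ hT', zero_mul]
      · simp
  have hcnt' : ∀ w (p q : n), cntM MM w p q ≤ 1 * (w.length + 1) ^ 0 := by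
    intro w p q
    rw [pow_zero, mul_one]
    refine le_trans ?_ (hcnt w p.1 q)
    exact Finset.single_le_sum (f := fun i => cntM MM w ⟨p.1, i⟩ q) (fun _ _ => Nat.zero_le _)
      (Finset.mem_univ p.2)
  -- the columns
  let y : (E →ₗ[L] L) → n → L := fun g p => (β p.1).repr (g.comp p.1.1.subtype) p.2
  have hy : ∀ a g, y (g.comp (ρ a)) = MM a *ᵥ y g := by
    intro a g
    funext p
    have h' := hδ p.1 a
    have e1 : (g.comp (ρ a)).comp p.1.1.subtype =
        ∑ i', y g ⟨δ p.1 a, i'⟩ • ((β (δ p.1 a) i').comp ((ρ a).restrict h')) := by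
      apply LinearMap.ext
      intro ω
      have e2 := LinearMap.congr_fun ((β (δ p.1 a)).sum_repr (g.comp (δ p.1 a).1.subtype))
        ((ρ a).restrict h' ω)
      rw [LinearMap.sum_apply] at e2
      rw [LinearMap.sum_apply]
      exact e2.symm
    rw [Matrix.mulVec, dotProduct, Fintype.sum_sigma, Finset.sum_eq_single (δ p.1 a)]
    · change (β p.1).repr ((g.comp (ρ a)).comp p.1.1.subtype) p.2 = _
      rw [e1, map_sum, Finset.sum_apply']
      refine Finset.sum_congr rfl fun i' _ => ?_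
      rw [hMM1 a p ⟨δ p.1 a, i'⟩ h' rfl, map_smul, Finsupp.smul_apply, smul_eq_mul, mul_comm]
    · intro T' _ hT'
      refine Finset.sum_eq_zero fun i _ => ?_
      rw [hMM0 a p ⟨T', i⟩ hT', zero_mul]
    · intro h; exact absurd (Finset.mem_univ _) h
  have hyw : ∀ w g, y (g.comp (rl ρ w)) = (w.map MM).prod *ᵥ y g := by
    intro w
    induction w with
    | nil =>
      intro g
      rw [List.map_nil, List.prod_nil, Matrix.one_mulVec]
      rfl
    | cons a w ih =>
      intro g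
      have e3 : g.comp (rl ρ (a :: w)) = (g.comp (rl ρ w)).comp (ρ a) := rfl
      rw [e3, hy, ih, List.map_cons, List.prod_cons, Matrix.mulVec_mulVec]
  obtain ⟨T0, hT0, hlam⟩ := h𝒯cov ω0 ⟨[], rfl⟩ trivial
  have hfin : (fun w => ξ (rl ρ w ω0)) = ∑ i, ∑ q, (β ⟨T0, hT0⟩ i ⟨ω0, hlam⟩ * y ξ q) •
      fun w => (w.map MM).prod ⟨⟨T0, hT0⟩, i⟩ q := by
    funext w
    have e1 : ξ (rl ρ w ω0) = ((ξ.comp (rl ρ w)).comp T0.subtype) ⟨ω0, hlam⟩ := rfl
    rw [e1]
    conv_lhs => rw [← (β ⟨T0, hT0⟩).sum_repr ((ξ.comp (rl ρ w)).comp T0.subtype)]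
    rw [LinearMap.sum_apply]
    simp only [Finset.sum_apply, Pi.smul_apply, smul_eq_mul]
    refine Finset.sum_congr rfl fun i _ => ?_
    have e2 : (β ⟨T0, hT0⟩).repr ((ξ.comp (rl ρ w)).comp T0.subtype) i =
        y (ξ.comp (rl ρ w)) ⟨⟨T0, hT0⟩, i⟩ := rfl
    rw [LinearMap.smul_apply, smul_eq_mul, e2, hyw, Matrix.mulVec, dotProduct, Finset.sum_mul]
    exact Finset.sum_congr rfl fun q _ => by ring
  rw [hfin]
  exact Submodule.sum_mem _ fun i _ => Submodule.sum_mem _ fun q _ => Submodule.smul_mem _ _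
    (entry_Spn (K := K) MM R hR hcl 1 0 hcnt' _ _)

end Pool.Agent.Helper68.WA
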