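import Pool.Agent.Helper68.WA.Coeff3
import Pool.Agent.Helper68.WA.Final

set_option autoImplicit false
set_option linter.unusedSectionVars false

/-!
# Representations with eigenvalues in `{0} ∪ Φ g^ℤ` are good
-/

namespace Pool.Agent.Helper68.WA

open Matrix Module

universe u v

variable {K : Type u} {A : Type*} [Field K] [Algebra K ℂ]

theorem good_simple_gam [Finite A] {Φ : Set ℂ} (hΦ : Φ.Finite) (hΦ0 : (0 : ℂ) ∉ Φ) {g : ℂ}
    (hg : 1 < ‖g‖) {G : Set ℂ} (hGΓ : G ⊆ Gam Φ g) (R1 : Set ℂ) (hR1 : R1.Finite)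
    (hGR : ∀ z ∈ G, ∃ c : K, ∃ r ∈ R1, z = algebraMap K ℂ c * r)
    (V : Type) [AddCommGroup V] [Module ℂ V] [FiniteDimensional ℂ V] [Nontrivial V]
    (M : A → End ℂ V) (hirr : ∀ U : Submodule ℂ V, Stable M U → U = ⊥ ∨ U = ⊤)
    (hG : EigIn M G) : Good K M := by
  classical
  let b := Module.finBasis ℂ V
  have hr : 0 < finrank ℂ V := Module.finrank_pos
  let e : End ℂ V ≃ₐ[ℂ] Matrix (Fin (finrank ℂ V)) (Fin (finrank ℂ V)) ℂ :=
    LinearMap.toMatrixAlgEquiv b
  have key : ∀ (f : End ℂ V) (x : V), e f *ᵥ (b.equivFun x) = b.equivFun (f x) :=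
    fun f x => LinearMap.toMatrix_mulVec_repr b b f x
  let T : Submonoid (Matrix (Fin (finrank ℂ V)) (Fin (finrank ℂ V)) ℂ) :=
    { carrier := Set.range fun w => e (act M w)
      one_mem' := ⟨[], by simp⟩
      mul_mem' := by
        rintro _ _ ⟨u, rfl⟩ ⟨w, rfl⟩
        exact ⟨u ++ w, by simp only [act_append, map_mul]⟩ }
  have hT : (T : Set (Matrix (Fin (finrank ℂ V)) (Fin (finrank ℂ V)) ℂ)) =
      e.toLinearMap '' (Set.range (act M)) := by
    rw [← Set.range_comp]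
    rfl
  have hspan : Submodule.span ℂ (T : Set (Matrix (Fin (finrank ℂ V)) (Fin (finrank ℂ V)) ℂ)) =
      ⊤ := by
    rw [hT, Submodule.span_image, span_act_eq_top M hirr, Submodule.map_top,
      LinearMap.range_eq_top]
    exact e.surjective
  have heig : ∀ Y ∈ T, ∀ (μ : ℂ) (v : Fin (finrank ℂ V) → ℂ), v ≠ 0 → Y *ᵥ v = μ • v →
      μ ∈ Gam Φ g := by
    rintro _ ⟨w, rfl⟩ μ v hv h
    obtain ⟨x, rfl⟩ := b.equivFun.surjective v
    refine hGΓ (hG w μ x ?_ ?_)
    · rintro rfl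
      exact hv (map_zero _)
    · apply b.equivFun.injective
      rw [← key, map_smul]
      exact h
  obtain ⟨Φ', hΦ', hΦ'0, lam, x, hlam, hx, hF⟩ := exists_coeff hr hΦ hΦ0 hg T hspan heig
  refine Good.of_unitEq M hirr G hG R1 hR1 hGR (Gam Φ' g) (unitEq_rank_one hΦ' hΦ'0 hg)
    ((rowForm lam).comp (b.equivFun : V →ₗ[ℂ] (Fin (finrank ℂ V) → ℂ))) ?_
    (b.equivFun.symm x) ?_ ?_
  · intro h0
    apply hlam
    have h1 : ∀ y : Fin (finrank ℂ V) → ℂ, lam ⬝ᵥ y = 0 := by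
      intro y
      have h2 := LinearMap.congr_fun h0 (b.equivFun.symm y)
      rw [LinearMap.comp_apply, LinearEquiv.coe_coe, LinearEquiv.apply_symm_apply,
        rowForm_apply] at h2
      exact h2
    funext i
    have h3 := h1 (Pi.single i 1)
    simpa using h3
  · intro h0
    apply hx
    have := congrArg b.equivFun h0
    rwa [LinearEquiv.apply_symm_apply, map_zero] at this
  · intro w
    rw [LinearMap.comp_apply, LinearEquiv.coe_coe, ← key, LinearEquiv.apply_symm_apply,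
      rowForm_apply]
    exact hF _ ⟨w, rfl⟩

theorem good_of_gam [Finite A] {Φ : Set ℂ} (hΦ : Φ.Finite) (hΦ0 : (0 : ℂ) ∉ Φ) {g : ℂ}
    (hg : 1 < ‖g‖) {G : Set ℂ} (hGΓ : G ⊆ Gam Φ g) (R1 : Set ℂ) (hR1 : R1.Finite)
    (hGR : ∀ z ∈ G, ∃ c : K, ∃ r ∈ R1, z = algebraMap K ℂ c * r) (n : ℕ) :
    ∀ (V : Type) [AddCommGroup V] [Module ℂ V] [FiniteDimensional ℂ V] (M : A → End ℂ V),
      Module.finrank ℂ V = n → EigIn M G → Good K M := by
  induction n using Nat.strong_induction_on with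
  | _ n ih =>
    intro V _ _ _ M hn hG
    by_cases hV : Nontrivial V
    · by_cases hirr : ∀ U : Submodule ℂ V, Stable M U → U = ⊥ ∨ U = ⊤
      · exact good_simple_gam hΦ hΦ0 hg hGΓ R1 hR1 hGR V M hirr hG
      · push Not at hirr
        obtain ⟨U, hU, hb, ht⟩ := hirr
        have h1 : Module.finrank ℂ U < n := by
          rw [← hn]; exact Submodule.finrank_lt ht
        have h2 : Module.finrank ℂ (V ⧸ U) < n := by
          have h3 := Submodule.finrank_quotient_add_finrank U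
          have h4 : 0 < Module.finrank ℂ U := by
            rw [Module.finrank_pos_iff]
            exact Submodule.nontrivial_iff_ne_bot.mpr hb
          omega
        exact Good.ext hU (ih _ h1 U (resM hU) rfl (hG.res hU))
          (ih _ h2 (V ⧸ U) (quoM hU) rfl (hG.quo hU))
    · rw [not_nontrivial_iff_subsingleton] at hV
      intro x μ
      have h1 : (fun w => μ (act M w x)) = 0 := by
        funext w
        rw [Subsingleton.elim (act M w x) 0, map_zero]
        rfl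
      rw [h1]
      exact Submodule.zero_mem _

/-- A family of square complex matrices is geometric if, for some finite `Φ` and some `g` with
`|g| > 1`, all eigenvalues of all its products are zero or of the form `ζ g ^ m` with `ζ` in `Φ`
and `m` an integer. -/
def Geometric {A n : Type*} [Fintype n] [DecidableEq n] (T : A → Matrix n n ℂ) : Prop :=
  ∃ Φ : Set ℂ, Φ.Finite ∧ ∃ g : ℂ, 1 < ‖g‖ ∧ ∀ (w : List A) (μ : ℂ) (x : n → ℂ), x ≠ 0 →
    wordMat T w *ᵥ x = μ • x → μ = 0 ∨ ∃ ζ ∈ Φ, ∃ m : ℤ, μ = ζ * g ^ m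

theorem Geometric.good [Finite A] {n : Type} [Fintype n] [DecidableEq n]
    {T : A → Matrix n n ℂ} (hT : Geometric T)
    (G : Subsemigroup ℂ) (hG : EigIn (fun a => Matrix.toLin' (T a)) (G : Set ℂ))
    (R1 : Set ℂ) (hR1 : R1.Finite)
    (hGR : ∀ g ∈ G, ∃ c : K, ∃ r ∈ R1, g = algebraMap K ℂ c * r) :
    Good K (fun a => Matrix.toLin' (T a)) := by
  obtain ⟨Φ, hΦ, g, hg, h⟩ := hT
  refine good_of_gam (Φ := Φ \ {0}) (hΦ.subset Set.sdiff_subset) (fun h0 => h0.2 rfl) hg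
    (G := (G : Set ℂ) ∩ Gam (Φ \ {0}) g) Set.inter_subset_right R1 hR1
    (fun z hz => hGR z hz.1) (Module.finrank ℂ (n → ℂ)) (n → ℂ) _ rfl ?_
  intro w μ x hx hw
  refine ⟨hG w μ x hx hw, ?_⟩
  rw [act_toLin'] at hw
  rcases h w μ x hx hw with h0 | ⟨ζ, hζ, m, h1⟩
  · exact Or.inl h0
  · by_cases hζ0 : ζ = 0
    · left; rw [h1, hζ0, zero_mul]
    · exact Or.inr ⟨ζ, ⟨hζ, hζ0⟩, m, h1⟩

end Pool.Agent.Helper68.WA
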