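import Pool.Agent.Helper68.WA.PA

set_option autoImplicit false
set_option linter.unusedSectionVars false

/-!
# Representations all of whose coefficient functions are polynomially ambiguous
-/

namespace Pool.Agent.Helper68.WA

open Matrix Module

universe u v

variable {K : Type u} {L : Type v} {A : Type*} [Field K] [Field L] [Algebra K L]

section

variable {V : Type*} [AddCommGroup V] [Module L V]

/-- action of words -/
def act (M : A → End L V) (w : List A) : End L V := (w.map M).prod

@[simp] lemma act_nil (M : A → End L V) : act M [] = 1 := rfl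
@[simp] lemma act_cons (M : A → End L V) (a : A) (w : List A) :
    act M (a :: w) = M a * act M w := by simp [act]
lemma act_append (M : A → End L V) (u w : List A) :
    act M (u ++ w) = act M u * act M w := by simp [act]

variable (K L) in
/-- a vector valued function all of whose coordinates lie in the span -/
def VS (h : List A → V) : Prop := ∀ μ : V →ₗ[L] L, (fun w => μ (h w)) ∈ Spn K L A

variable (K) in
/-- all coefficient functions lie in the span -/
def Good (M : A → End L V) : Prop := ∀ x : V, VS K L (fun w => act M w x)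

lemma VS.add {f g : List A → V} (hf : VS K L f) (hg : VS K L g) : VS K L (fun w => f w + g w) := by
  intro μ
  have h1 : (fun w => μ (f w + g w)) = (fun w => μ (f w)) + fun w => μ (g w) := by
    funext w; simp
  rw [h1]
  exact Submodule.add_mem _ (hf μ) (hg μ)

lemma VS.map {W : Type*} [AddCommGroup W] [Module L W] {f : List A → V} (hf : VS K L f)
    (φ : V →ₗ[L] W) : VS K L (fun w => φ (f w)) := fun μ => hf (μ.comp φ)

/-- projectively finite representations over `K` -/
lemma Good.of_finite (M : A → End L V) (R0 : Set (End L V)) (hR0 : R0.Finite)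
    (h : ∀ w, ∃ c : K, ∃ r ∈ R0, act M w = algebraMap K L c • r) : Good K M := by
  classical
  -- the set of states
  let R : Set (End L V) := {r | r ∈ R0 ∧ ∃ u, ∃ c : K, c ≠ 0 ∧ act M u = algebraMap K L c • r}
  have hR : R.Finite := hR0.subset fun r hr => hr.1
  have hstep : ∀ r ∈ R, ∀ a, ∃ c : K, ∃ r' ∈ R, r * M a = algebraMap K L c • r' := by
    rintro r ⟨_, u, c, hc, hu⟩ a
    obtain ⟨c', r', hr', h'⟩ := h (u ++ [a])
    have h1 : act M (u ++ [a]) = algebraMap K L c • (r * M a) := by
      rw [act_append, hu]; simp [act]
    have hc0 : algebraMap K L c ≠ 0 := by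
      rw [Ne, map_eq_zero]; exact hc
    have h2 : r * M a = algebraMap K L (c⁻¹ * c') • r' := by
      rw [map_mul, mul_smul, ← h', h1, smul_smul, ← map_mul, inv_mul_cancel₀ hc, map_one,
        one_smul]
    by_cases hc' : c' = 0
    · refine ⟨0, r, ⟨‹_›, u, c, hc, hu⟩, ?_⟩
      rw [h2, hc']; simp
    · exact ⟨c⁻¹ * c', r', ⟨hr', u ++ [a], c', hc', h'⟩, h2⟩
  have : Fintype R := hR.fintype
  obtain ⟨c0, r0, hr0, h0⟩ := h []
  by_cases hc0 : c0 = 0
  · -- the zero representation
    have h1 : (1 : End L V) = 0 := by
      rw [act_nil, hc0] at h0; simpa using h0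
    intro x μ
    have h2 : (fun w => μ (act M w x)) = 0 := by
      funext w
      have : act M w x = 0 := by
        have h3 : act M w = 0 := by rw [← mul_one (act M w), h1, mul_zero]
        rw [h3]; rfl
      rw [this]; simp
    rw [h2]
    exact Submodule.zero_mem _
  have hr0R : r0 ∈ R := ⟨hr0, [], c0, hc0, h0⟩
  choose! cf rf hrf hcf using hstep
  let δ : A → R → R := fun a r => ⟨rf r.1 a, hrf r.1 r.2 a⟩
  let wt : A → R → K := fun a r => cf r.1 a
  -- finite type in `Type`
  let e : R ≃ Fin (Fintype.card R) := Fintype.equivFin R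
  let δ' : A → Fin (Fintype.card R) → Fin (Fintype.card R) := fun a i => e (δ a (e.symm i))
  let wt' : A → Fin (Fintype.card R) → K := fun a i => wt a (e.symm i)
  let vv : Fin (Fintype.card R) → List A → Fin (Fintype.card R) → K := fun s w =>
    w.rec (motive := fun _ => Fin (Fintype.card R) → K) (fun q => if q = s then 1 else 0)
      (fun a _ v q => wt' a q * v (δ' a q))
  have hvv0 : ∀ s q, vv s [] q = if q = s then 1 else 0 := fun s q => rfl
  have hvv : ∀ s a w q, vv s (a :: w) q = wt' a q * vv s w (δ' a q) := fun s a w q => rfl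
  have key : ∀ w q, ∑ s, algebraMap K L (vv s w q) • ((e.symm s : R) : End L V) =
      ((e.symm q : R) : End L V) * act M w := by
    intro w
    induction w with
    | nil =>
      intro q
      simp only [hvv0, act_nil, mul_one]
      rw [Finset.sum_eq_single q]
      · simp
      · intro s _ hs
        simp [Ne.symm hs]
      · simp
    | cons a w ih =>
      intro q
      have h1 := ih (δ' a q)
      simp only [hvv, map_mul, mul_smul]
      rw [← Finset.smul_sum, h1, act_cons, ← mul_assoc]
      have h2 : ((e.symm q : R) : End L V) * M a =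
          algebraMap K L (wt' a q) • ((e.symm (δ' a q) : R) : End L V) := by
        have h3 := hcf (e.symm q : R).1 (e.symm q : R).2 a
        simp only [δ', δ, wt', wt, Equiv.symm_apply_apply]
        exact h3
      rw [h2, smul_mul_assoc]
  have hPA : ∀ s, PA (fun w => c0 * vv s w (e ⟨r0, hr0R⟩)) := fun s =>
    PA.det (e ⟨r0, hr0R⟩) c0 δ' wt' (fun q => if q = s then 1 else 0) _ (vv s)
      (hvv0 s) (hvv s) (fun w => rfl)
  intro x μ
  have h1 : (fun w => μ (act M w x)) = ∑ s, μ (((e.symm s : R) : End L V) x) •
      (fun w => algebraMap K L (c0 * vv s w (e ⟨r0, hr0R⟩))) := by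
    funext w
    have h2 := key w (e ⟨r0, hr0R⟩)
    rw [Equiv.symm_apply_apply] at h2
    have h3 : act M w = algebraMap K L c0 • (r0 * act M w) := by
      rw [← smul_mul_assoc, ← h0, act_nil, one_mul]
    rw [h3, ← h2]
    simp only [Finset.sum_apply, Pi.smul_apply, smul_eq_mul, LinearMap.smul_apply,
      LinearMap.sum_apply, map_smul, map_sum, map_mul, Finset.mul_sum]
    exact Finset.sum_congr rfl fun s _ => by ring
  rw [h1]
  exact Submodule.sum_mem _ fun s _ => Submodule.smul_mem _ _ (Spn.of_PA (hPA s))

/-- solving linear recurrences with good homogeneous part -/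
lemma VS.solve [Finite A] [FiniteDimensional L V] (N : A → End L V) (hN : Good K N)
    (Z : List A → V) (β : A → List A → V) (hZ : ∀ a w, Z (a :: w) = N a (Z w) + β a w)
    (hβ : ∀ a, VS K L (β a)) : VS K L Z := by
  classical
  have := Fintype.ofFinite A
  let e := Module.finBasis L V
  have key : ∀ w, ∀ μ : V →ₗ[L] L, μ (Z w) = μ (act N w (Z [])) +
      ∑ b, ∑ i, WA.mc b (fun u => μ (act N u (e i))) (fun v => e.coord i (β b v)) w := by
    intro w
    induction w with
    | nil => intro μ; simp [WA.mc]
    | cons a w ih =>
      intro μ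
      have h1 := ih (μ.comp (N a))
      rw [hZ, map_add]
      have h2 : μ (N a (Z w)) = (μ.comp (N a)) (Z w) := rfl
      rw [h2, h1, add_assoc]
      congr 1
      simp only [WA.mc, Finset.sum_add_distrib]
      have h3 : μ (β a w) = ∑ b, ∑ i, (if a = b then
          μ (act N [] (e i)) * e.coord i (β b w) else 0) := by
        rw [Finset.sum_eq_single a]
        · simp only [if_true, act_nil]
          conv_lhs => rw [← e.sum_repr (β a w)]
          rw [map_sum]
          exact Finset.sum_congr rfl fun i _ => by
            rw [map_smul, smul_eq_mul, mul_comm]; rfl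
        · intro b _ hb
          simp [Ne.symm hb]
        · simp
      rw [h3, add_comm]
      rfl
  intro μ
  have h1 : (fun w => μ (Z w)) = (fun w => μ (act N w (Z []))) +
      ∑ b, ∑ i, WA.mc b (fun u => μ (act N u (e i))) (fun v => e.coord i (β b v)) := by
    funext w
    rw [key w μ]
    simp [Finset.sum_apply]
  rw [h1]
  exact Submodule.add_mem _ (hN _ μ) (Submodule.sum_mem _ fun b _ => Submodule.sum_mem _
    fun i _ => Spn.mc b (hN (e i) μ) (hβ b (e.coord i)))

end

end Pool.Agent.Helper68.WA
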