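import Pool.Agent.Helper68.WA.Amb

set_option autoImplicit false
set_option linter.unusedSectionVars false

/-!
# Rational series with values in a set satisfying a unit equation theorem
-/

namespace Pool.Agent.Helper68.WA

open Matrix Module

universe u v

variable {K : Type u} {L : Type v} {A : Type*} [Field K] [Field L] [Algebra K L]

/-- unit equation property -/
def UnitEq (Γ : Set L) : Prop :=
  ∀ (m : ℕ) (a : Fin m → L) (i j : Fin m), i ≠ j → a i ≠ 0 → a j ≠ 0 →
    ∃ 𝒰 : Set (Submodule L (Fin m → L)), 𝒰.Finite ∧ (∀ U ∈ 𝒰, U ≠ ⊤) ∧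
      ∀ x : Fin m → L, (∀ l, x l ∈ Γ) → ∑ l, a l * x l ∈ Γ → ∃ U ∈ 𝒰, x ∈ U

section

variable {E : Type*} [AddCommGroup E] [Module L E]

/-- `U` is thick for `Ω` -/
def Thick (Ω : Set E) (U : Submodule L E) : Prop :=
  ∀ 𝒰 : Set (Submodule L E), 𝒰.Finite → (∀ ω ∈ Ω, ω ∈ U → ∃ U' ∈ 𝒰, ω ∈ U') → ∃ U' ∈ 𝒰, U ≤ U'

lemma exists_thick_cover [FiniteDimensional L E] (Ω : Set E) (n : ℕ) :
    ∀ U : Submodule L E, Module.finrank L U = n → ∃ 𝒯 : Set (Submodule L E), 𝒯.Finite ∧
      (∀ T ∈ 𝒯, Thick Ω T) ∧ ∀ ω ∈ Ω, ω ∈ U → ∃ T ∈ 𝒯, ω ∈ T := by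
  classical
  induction n using Nat.strong_induction_on with
  | _ n ih =>
    intro U hn
    by_cases hU : Thick Ω U
    · exact ⟨{U}, Set.finite_singleton _, by simpa using hU, fun ω _ hωU => ⟨U, rfl, hωU⟩⟩
    · unfold Thick at hU
      push Not at hU
      obtain ⟨𝒰, hfin, hcov, hno⟩ := hU
      have h1 : ∀ U' ∈ 𝒰, ∃ 𝒯 : Set (Submodule L E), 𝒯.Finite ∧ (∀ T ∈ 𝒯, Thick Ω T) ∧
          ∀ ω ∈ Ω, ω ∈ U ⊓ U' → ∃ T ∈ 𝒯, ω ∈ T := by
        intro U' hU'
        have hlt : U ⊓ U' < U := by
          refine lt_of_le_of_ne inf_le_left fun h => hno U' hU' ?_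
          rw [← h]; exact inf_le_right
        exact ih _ (by rw [← hn]; exact Submodule.finrank_lt_finrank_of_lt hlt) (U ⊓ U') rfl
      choose! 𝒯 h𝒯fin h𝒯thick h𝒯cov using h1
      refine ⟨⋃ U' ∈ 𝒰, 𝒯 U', hfin.biUnion fun U' hU' => h𝒯fin U' hU', ?_, ?_⟩
      · intro T hT
        simp only [Set.mem_iUnion] at hT
        obtain ⟨U', hU', hT⟩ := hT
        exact h𝒯thick U' hU' T hT
      · intro ω hω hωU
        obtain ⟨U', hU', hωU'⟩ := hcov ω hω hωU
        obtain ⟨T, hT, hωT⟩ := h𝒯cov U' hU' ω hω ⟨hωU, hωU'⟩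
        refine ⟨T, ?_, hωT⟩
        simp only [Set.mem_iUnion]
        exact ⟨U', hU', hT⟩

end

section

variable {V : Type*} [AddCommGroup V] [Module L V]

/-- finite-class version of `Good.of_amb` for entries -/
theorem entry_Spn {n : Type*} [Fintype n] [DecidableEq n] [Finite A] (T : A → Matrix n n L)
    (R : Set L) (hR : R.Finite)
    (hcl : ∀ p q w κ, PW T Set.univ p w q κ → ∃ c : K, ∃ r ∈ R, κ = algebraMap K L c * r)
    (C k : ℕ) (hamb : ∀ w p q, cntM T w p q ≤ C * (w.length + 1) ^ k) (p0 qf : n) :
    (fun w => (w.map T).prod p0 qf) ∈ Spn K L A := by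
  classical
  -- the class `1`
  obtain ⟨k0, r0, hr0, h0⟩ := hcl p0 p0 [] 1 (PW.nil p0)
  have : Fintype R := hR.fintype
  let e : R ≃ Fin (Fintype.card R) := Fintype.equivFin R
  let en : n ≃ Fin (Fintype.card n) := Fintype.equivFin n
  -- choice of representatives
  let P : L → Prop := fun t => ∃ c : K, ∃ r ∈ R, t = algebraMap K L c * r
  have hch : ∀ t : L, ∃ c : K, ∃ r : R, (P t → t = algebraMap K L c * (r : L)) ∧
      (t = 0 → c = 0) := by
    intro t
    by_cases ht : t = 0
    · exact ⟨0, ⟨r0, hr0⟩, fun _ => by rw [ht]; simp, fun _ => rfl⟩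
    · by_cases hP : P t
      · obtain ⟨c, r, hr, h⟩ := hP
        exact ⟨c, ⟨r, hr⟩, fun _ => h, fun h => absurd h ht⟩
      · exact ⟨0, ⟨r0, hr0⟩, fun h => absurd h hP, fun _ => rfl⟩
  choose cf rf hcr hcz using hch
  let X : R → WAut K A (n × R) := fun s =>
    { init := fun x => if x = (p0, ⟨r0, hr0⟩) then k0 else 0
      tr := fun a => Matrix.of fun x y => if y.2 = rf ((x.2 : L) * T a x.1 y.1) then
        cf ((x.2 : L) * T a x.1 y.1) else 0
      fin := fun x => if x = (qf, s) then 1 else 0 }
  have good : ∀ w (x : n × R), (∃ u κ, PW T Set.univ p0 u x.1 κ ∧ ∃ c : K, c ≠ 0 ∧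
      κ = algebraMap K L c * (x.2 : L)) →
      ∑ s, algebraMap K L ((X s).vec w x) * (s : L) = (x.2 : L) * (w.map T).prod x.1 qf := by
    intro w
    induction w with
    | nil =>
      rintro ⟨q, r⟩ _
      simp only [WAut.vec_nil, X, List.map_nil, List.prod_nil, Prod.mk.injEq]
      by_cases hq : q = qf
      · subst hq
        rw [Finset.sum_eq_single r]
        · simp
        · intro s _ hs
          simp [Ne.symm hs]
        · simp
      · simp [hq, Matrix.one_apply_ne hq]
    | cons a w ih =>
      rintro ⟨q, r⟩ ⟨u, κ, hu, c, hc, hκ⟩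
      have hr0' : (r : L) ≠ 0 := by
        intro h
        apply hu.ne_zero
        rw [hκ]
        simp [h]
      have step : ∀ q' : n, ∑ s, algebraMap K L
          (∑ r' : R, (X s).tr a (q, r) (q', r') * (X s).vec w (q', r')) * (s : L) =
          (r : L) * T a q q' * (w.map T).prod q' qf := by
        intro q'
        have e1 : ∀ s : R, ∑ r' : R, (X s).tr a (q, r) (q', r') * (X s).vec w (q', r') =
            cf ((r : L) * T a q q') * (X s).vec w (q', rf ((r : L) * T a q q')) := by
          intro s
          rw [Finset.sum_eq_single (rf ((r : L) * T a q q'))]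
          · simp [X]
          · intro r' _ hr'
            simp [X, hr']
          · simp
        simp only [e1]
        by_cases ht : T a q q' = 0
        · simp [ht, hcz 0 rfl]
        · have hPW : PW T Set.univ p0 (u ++ [a]) q' (κ * T a q q') :=
            hu.append (PW.single q q' a ht)
          obtain ⟨c', r', hr', h'⟩ := hcl _ _ _ _ hPW
          have hcL : algebraMap K L c ≠ 0 := by rw [Ne, map_eq_zero]; exact hc
          have hPt : P ((r : L) * T a q q') := by
            refine ⟨c⁻¹ * c', r', hr', ?_⟩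
            rw [map_mul, map_inv₀, mul_assoc, ← h', hκ]
            field_simp
          have e3 := hcr _ hPt
          have hcf : cf ((r : L) * T a q q') ≠ 0 := by
            intro h
            rw [h, map_zero, zero_mul] at e3
            exact (mul_ne_zero hr0' ht) e3
          have e4 := ih (q', rf ((r : L) * T a q q')) ⟨u ++ [a], κ * T a q q', hPW,
            c * cf ((r : L) * T a q q'), mul_ne_zero hc hcf, by
              rw [hκ, map_mul, mul_assoc, mul_assoc, ← e3]⟩
          simp only at e4
          simp only [map_mul, mul_assoc]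
          rw [← Finset.mul_sum]
          have e5 : ∑ i : R, algebraMap K L ((X i).vec w (q', rf ((r : L) * T a q q'))) *
              (i : L) = (rf ((r : L) * T a q q') : L) * (w.map T).prod q' qf := e4
          rw [e5, ← mul_assoc, ← e3, mul_assoc]
      have e6 : ∀ s : R, (X s).vec (a :: w) (q, r) =
          ∑ q', ∑ r' : R, (X s).tr a (q, r) (q', r') * (X s).vec w (q', r') := by
        intro s
        rw [WAut.vec_cons, Matrix.mulVec, dotProduct, Fintype.sum_prod_type]
      simp only [e6, map_sum, Finset.sum_mul]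
      rw [Finset.sum_comm]
      rw [List.map_cons, List.prod_cons, Matrix.mul_apply, Finset.mul_sum]
      refine Finset.sum_congr rfl fun q' _ => ?_
      have e7 := step q'
      simp only [map_sum, Finset.sum_mul] at e7
      rw [e7]
      ring
  have hcnt : ∀ (s : R) w (x : n × R), (X s).supp.vec w x ≤ cntM T w x.1 qf := by
    intro s w
    induction w with
    | nil =>
      rintro ⟨q, r⟩
      by_cases hq : q = qf
      · subst hq
        refine (ind_le_one _).trans ?_
        simp [cntM]
      · have : (X s).supp.vec [] (q, r) = 0 := by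
          simp [WAut.supp, X, hq]
        rw [this]
        exact Nat.zero_le _
    | cons a w ih =>
      rintro ⟨q, r⟩
      rw [WAut.vec_cons, Matrix.mulVec, dotProduct, Fintype.sum_prod_type, cntM_cons]
      refine Finset.sum_le_sum fun q' _ => ?_
      rw [Finset.sum_eq_single (rf ((r : L) * T a q q'))]
      · refine Nat.mul_le_mul ?_ (ih _)
        by_cases ht : T a q q' = 0
        · have e2 : cf ((r : L) * T a q q') = 0 := hcz _ (by rw [ht, mul_zero])
          simp [WAut.supp, X, e2]
        · rw [ind_of_ne ht]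
          exact ind_le_one _
      · intro r' _ hr'
        simp [WAut.supp, X, hr']
      · simp
  have hPA : ∀ s : R, PA (X s).val := by
    intro s
    let en : n × R ≃ Fin (Fintype.card (n × R)) := Fintype.equivFin (n × R)
    let Y : WAut K A (Fin (Fintype.card (n × R))) :=
      ⟨fun i => (X s).init (en.symm i), fun a => ((X s).tr a).submatrix en.symm en.symm,
        fun i => (X s).fin (en.symm i)⟩
    have hv : ∀ w i, Y.vec w i = (X s).vec w (en.symm i) := by
      intro w
      induction w with
      | nil => intro i; rfl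
      | cons a w ih =>
        intro i
        rw [WAut.vec_cons, WAut.vec_cons, Matrix.mulVec, Matrix.mulVec, dotProduct,
          dotProduct]
        refine Fintype.sum_equiv en.symm _ _ fun j => ?_
        rw [ih]
        rfl
    have hs : ∀ w i, Y.supp.vec w i = (X s).supp.vec w (en.symm i) := by
      intro w
      induction w with
      | nil => intro i; rfl
      | cons a w ih =>
        intro i
        rw [WAut.vec_cons, WAut.vec_cons, Matrix.mulVec, Matrix.mulVec, dotProduct,
          dotProduct]
        refine Fintype.sum_equiv en.symm _ _ fun j => ?_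
        rw [ih]
        rfl
    refine ⟨Fin (Fintype.card (n × R)), inferInstance, Y, fun w => ?_, C, k, fun w => ?_⟩
    · rw [WAut.val, WAut.val, dotProduct, dotProduct]
      refine Fintype.sum_equiv en.symm _ _ fun j => ?_
      rw [hv]
    · have h1 : Y.supp.val w = (X s).supp.val w := by
        rw [WAut.val, WAut.val, dotProduct, dotProduct]
        refine Fintype.sum_equiv en.symm _ _ fun j => ?_
        rw [hs]
        rfl
      rw [h1, WAut.val, dotProduct, Finset.sum_eq_single (p0, ⟨r0, hr0⟩)]
      · calc _ ≤ 1 * cntM T w p0 qf := Nat.mul_le_mul (ind_le_one _) (hcnt s w _)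
          _ ≤ C * (w.length + 1) ^ k := by rw [one_mul]; exact hamb w p0 qf
      · intro x _ hx
        simp [WAut.supp, X, hx]
      · simp
  have hk0 : k0 ≠ 0 := by
    rintro rfl
    rw [map_zero, zero_mul] at h0
    exact one_ne_zero h0
  have fin1 : (fun w => (w.map T).prod p0 qf) =
      ∑ s : R, (s : L) • fun w => algebraMap K L ((X s).val w) := by
    funext w
    have h1 := good w (p0, ⟨r0, hr0⟩) ⟨[], 1, PW.nil p0, k0, hk0, h0⟩
    have h2 : ∀ s : R, (X s).val w = k0 * (X s).vec w (p0, ⟨r0, hr0⟩) := by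
      intro s
      rw [WAut.val, dotProduct, Finset.sum_eq_single (p0, ⟨r0, hr0⟩)]
      · simp [X]
      · intro x _ hx
        simp [X, hx]
      · simp
    simp only [Finset.sum_apply, Pi.smul_apply, smul_eq_mul, h2, map_mul]
    have h3 : (w.map T).prod p0 qf = algebraMap K L k0 * (r0 * (w.map T).prod p0 qf) := by
      rw [← mul_assoc, ← h0, one_mul]
    simp only at h1
    rw [h3, ← h1, Finset.mul_sum]
    exact Finset.sum_congr rfl fun s _ => by ring
  rw [fin1]
  exact Submodule.sum_mem _ fun s _ => Submodule.smul_mem _ _ (Spn.of_PA (hPA s))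

end

section

variable {E : Type*} [AddCommGroup E] [Module L E]

/-- linear version of the right action of words -/
def rl (ρ : A → End L E) : List A → End L E
  | [] => 1
  | a :: w => rl ρ w * ρ a

@[simp] lemma rl_nil (ρ : A → End L E) : rl ρ [] = 1 := rfl
lemma rl_cons (ρ : A → End L E) (a : A) (w : List A) : rl ρ (a :: w) = rl ρ w * ρ a := rfl
lemma rl_append (ρ : A → End L E) (u w : List A) : rl ρ (u ++ w) = rl ρ w * rl ρ u := by
  induction u with
  | nil => simp
  | cons a u ih => rw [List.cons_append, rl_cons, ih, rl_cons, mul_assoc]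

lemma exists_basis_restrict [FiniteDimensional L E] (T : Submodule L E) (C : Set (E →ₗ[L] L))
    (hC : Submodule.span L C = ⊤) : ∃ (m : ℕ) (β : Basis (Fin m) L (T →ₗ[L] L)),
      ∀ i, ∃ c ∈ C, β i = c.comp T.subtype := by
  classical
  let φ : (E →ₗ[L] L) →ₗ[L] (T →ₗ[L] L) :=
    { toFun := fun c => c.comp T.subtype
      map_add' := fun z z' => rfl
      map_smul' := fun c z => rfl }
  have hsurj : Function.Surjective φ := by
    intro f
    obtain ⟨g, hg⟩ := LinearMap.exists_extend f
    exact ⟨g, hg⟩
  have hspan : Submodule.span L (φ '' C) = ⊤ := by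
    rw [← Submodule.map_span, hC, Submodule.map_top, LinearMap.range_eq_top]
    exact hsurj
  obtain ⟨b, hb, hbs, hbl⟩ := exists_linearIndependent L (φ '' C)
  have hfin : b.Finite := hbl.setFinite
  have : Fintype b := hfin.fintype
  let B : Basis b L (T →ₗ[L] L) := Basis.mk hbl (by rw [Subtype.range_coe, hbs, hspan])
  refine ⟨Fintype.card b, B.reindex (Fintype.equivFin b), fun i => ?_⟩
  rw [Basis.reindex_apply, Basis.mk_apply]
  obtain ⟨c, hc, h⟩ := hb ((Fintype.equivFin b).symm i).2
  exact ⟨c, hc, h.symm⟩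

end

end Pool.Agent.Helper68.WA
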