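import Pool.Agent.Helper68.WA.Polya

set_option autoImplicit false
set_option linter.unusedSectionVars false

/-!
# Shifts, and irreducible representations with one controlled coefficient function
-/

namespace Pool.Agent.Helper68.WA

open Matrix Module

universe u v

variable {K : Type u} {L : Type v} {A : Type*} [Field K] [Field L] [Algebra K L]

lemma ind_sum_le {ι : Type*} (s : Finset ι) (f : ι → K) : ind (∑ i ∈ s, f i) ≤ ∑ i ∈ s, ind (f i) := by
  classical
  by_cases h : ∃ i ∈ s, f i ≠ 0
  · obtain ⟨i, hi, hfi⟩ := h
    calc ind (∑ i ∈ s, f i) ≤ 1 := ind_le_one _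
      _ = ind (f i) := (ind_of_ne hfi).symm
      _ ≤ ∑ i ∈ s, ind (f i) := Finset.single_le_sum (f := fun i => ind (f i))
          (fun _ _ => Nat.zero_le _) hi
  · push Not at h
    rw [Finset.sum_eq_zero h, ind_zero]
    exact Nat.zero_le _

lemma PA.shift {f : List A → K} (hf : PA f) (a : A) : PA (fun w => f (a :: w)) := by
  obtain ⟨Q, _, X, hX, C, k, hC⟩ := hf
  have hv : ∀ w, (⟨X.init ᵥ* X.tr a, X.tr, X.fin⟩ : WAut K A Q).vec w = X.vec w := by
    intro w
    induction w with
    | nil => rfl
    | cons b w ih => rw [WAut.vec_cons, ih]; rfl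
  have hs : ∀ w, (⟨X.init ᵥ* X.tr a, X.tr, X.fin⟩ : WAut K A Q).supp.vec w =
      X.supp.vec w := by
    intro w
    induction w with
    | nil => rfl
    | cons b w ih => rw [WAut.vec_cons, ih]; rfl
  refine ⟨Q, inferInstance, ⟨X.init ᵥ* X.tr a, X.tr, X.fin⟩, fun w => ?_, C * 2 ^ k, k,
    fun w => ?_⟩
  · change _ = f (a :: w)
    rw [← hX, WAut.val, hv, WAut.val, WAut.vec_cons]
    exact (Matrix.dotProduct_mulVec _ _ _).symm
  · have h1 : (⟨X.init ᵥ* X.tr a, X.tr, X.fin⟩ : WAut K A Q).supp.val w ≤
        X.supp.val (a :: w) := by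
      rw [WAut.val, WAut.val, hs, WAut.vec_cons, Matrix.dotProduct_mulVec, dotProduct,
        dotProduct]
      refine Finset.sum_le_sum fun q _ => Nat.mul_le_mul_right _ ?_
      change ind ((X.init ᵥ* X.tr a) q) ≤ (X.supp.init ᵥ* X.supp.tr a) q
      rw [Matrix.vecMul, Matrix.vecMul, dotProduct, dotProduct]
      refine (ind_sum_le _ _).trans (le_of_eq ?_)
      exact Finset.sum_congr rfl fun p _ => ind_mul _ _
    refine h1.trans ((hC _).trans ?_)
    rw [List.length_cons, mul_assoc, ← mul_pow]
    exact Nat.mul_le_mul_left _ (Nat.pow_le_pow_left (by omega) _)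

lemma Spn.shift {f : List A → L} (hf : f ∈ Spn K L A) (a : A) :
    (fun w => f (a :: w)) ∈ Spn K L A := by
  unfold Spn at hf
  induction hf using Submodule.span_induction with
  | mem f h =>
    obtain ⟨f0, hf0, rfl⟩ := h
    exact Spn.of_PA (hf0.shift a)
  | zero => exact Submodule.zero_mem _
  | add f g _ _ ih ih' => exact Submodule.add_mem _ ih ih'
  | smul c f _ ih => exact Submodule.smul_mem _ c ih

lemma Spn.shift_left {f : List A → L} (hf : f ∈ Spn K L A) (u : List A) :
    (fun w => f (u ++ w)) ∈ Spn K L A := by
  induction u generalizing f with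
  | nil => exact hf
  | cons a u ih => exact ih (Spn.shift hf a)

lemma Spn.shift_right {f : List A → L} (hf : f ∈ Spn K L A) (v : List A) :
    (fun w => f (w ++ v)) ∈ Spn K L A := by
  have h1 := Spn.reverse (Spn.shift_left (Spn.reverse hf) v.reverse)
  have h2 : (fun w : List A => f (v.reverse ++ w.reverse).reverse) = fun w => f (w ++ v) := by
    funext w
    simp
  rwa [h2] at h1

variable {V : Type*} [AddCommGroup V] [Module L V]

lemma rl_eq_act (D : A → End L V) (w : List A) : rl D w = act D w.reverse := by
  induction w with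
  | nil => rfl
  | cons a w ih => rw [rl_cons, ih, List.reverse_cons, act_append]; simp [act]

/-- rows span -/
lemma rows_span [FiniteDimensional L V] (D : A → End L V)
    (hirr : ∀ U : Submodule L V, Stable D U → U = ⊥ ∨ U = ⊤) (lam : V →ₗ[L] L) (hlam : lam ≠ 0) :
    Submodule.span L (Set.range fun u => lam.comp (act D u)) = ⊤ := by
  by_contra hne
  obtain ⟨f, hf, hle⟩ := Submodule.exists_le_ker_of_lt_top _ (lt_top_iff_ne_top.mpr hne)
  obtain ⟨z, hz⟩ := (Module.bijective_dual_eval L V).2 f
  let U : Submodule L V := ⨅ u : List A, LinearMap.ker (lam.comp (act D u))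
  have hU : ∀ y, y ∈ U ↔ ∀ u, lam (act D u y) = 0 := by
    intro y
    simp [U, Submodule.mem_iInf]
  have hst : Stable D U := by
    intro a y hy
    rw [hU] at hy ⊢
    intro u
    have h1 := hy (u ++ [a])
    rw [act_append] at h1
    simpa [act] using h1
  rcases hirr U hst with h | h
  · have hzU : z ∈ U := by
      rw [hU]
      intro u
      have h1 := hle (Submodule.subset_span ⟨u, rfl⟩)
      rw [LinearMap.mem_ker, ← hz] at h1
      exact h1
    rw [h, Submodule.mem_bot] at hzU
    apply hf
    rw [← hz, hzU, map_zero]
  · apply hlam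
    apply LinearMap.ext
    intro y
    have hy : y ∈ U := by rw [h]; trivial
    rw [hU] at hy
    simpa using hy []

/-- one controlled coefficient function suffices -/
theorem Good.of_coeff [FiniteDimensional L V] (D : A → End L V)
    (hirr : ∀ U : Submodule L V, Stable D U → U = ⊥ ∨ U = ⊤)
    (lam : V →ₗ[L] L) (hlam : lam ≠ 0) (x : V) (hx : x ≠ 0)
    (h : (fun w => lam (act D w x)) ∈ Spn K L A) : Good K D := by
  have hcols : Submodule.span L (Set.range fun v => act D v x) = ⊤ := by
    rcases hirr (Submodule.span L (Set.range fun v => act D v x)) (by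
      intro a y hy
      induction hy using Submodule.span_induction with
      | mem y hy =>
        obtain ⟨v, rfl⟩ := hy
        exact Submodule.subset_span ⟨a :: v, by simp [act_cons]⟩
      | zero => rw [map_zero]; exact Submodule.zero_mem _
      | add y z _ _ ih ih' => rw [map_add]; exact Submodule.add_mem _ ih ih'
      | smul c y _ ih => rw [map_smul]; exact Submodule.smul_mem _ c ih) with h1 | h1
    · exfalso
      apply hx
      have h2 : x ∈ Submodule.span L (Set.range fun v => act D v x) :=
        Submodule.subset_span ⟨[], by simp⟩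
      rw [h1, Submodule.mem_bot] at h2
      exact h2
    · exact h1
  have hrows := rows_span D hirr lam hlam
  intro y μ
  have hμ : μ ∈ Submodule.span L (Set.range fun u => lam.comp (act D u)) := by
    rw [hrows]; trivial
  have hy : y ∈ Submodule.span L (Set.range fun v => act D v x) := by rw [hcols]; trivial
  induction hμ using Submodule.span_induction with
  | mem μ hm =>
    obtain ⟨u, rfl⟩ := hm
    induction hy using Submodule.span_induction with
    | mem y hy =>
      obtain ⟨v, rfl⟩ := hy
      have h1 := Spn.shift_right (Spn.shift_left h u) v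
      have h2 : (fun w => lam (act D (u ++ (w ++ v)) x)) =
          fun w => (lam.comp (act D u)) (act D w (act D v x)) := by
        funext w
        rw [act_append, act_append]
        rfl
      rwa [h2] at h1
    | zero =>
      have h1 : (fun w => (lam.comp (act D u)) (act D w 0)) = 0 := by
        funext w; simp
      rw [h1]
      exact Submodule.zero_mem _
    | add y z _ _ ih ih' =>
      have h1 : (fun w => (lam.comp (act D u)) (act D w (y + z))) =
          (fun w => (lam.comp (act D u)) (act D w y)) +
            fun w => (lam.comp (act D u)) (act D w z) := by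
        funext w; simp
      rw [h1]
      exact Submodule.add_mem _ ih ih'
    | smul c y _ ih =>
      have h1 : (fun w => (lam.comp (act D u)) (act D w (c • y))) =
          c • fun w => (lam.comp (act D u)) (act D w y) := by
        funext w; simp
      rw [h1]
      exact Submodule.smul_mem _ c ih
  | zero => exact Submodule.zero_mem _
  | add μ ν _ _ ih ih' => exact Submodule.add_mem _ ih ih'
  | smul c μ _ ih => exact Submodule.smul_mem _ c ih

/-- an irreducible representation with a nonzero coefficient function with values in a set with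
the unit equation property is good -/
theorem Good.of_unitEq [Finite A] [FiniteDimensional L V] (D : A → End L V)
    (hirr : ∀ U : Submodule L V, Stable D U → U = ⊥ ∨ U = ⊤)
    (G : Set L) (hG : EigIn D G) (R1 : Set L) (hR1 : R1.Finite)
    (hGR : ∀ g ∈ G, ∃ c : K, ∃ r ∈ R1, g = algebraMap K L c * r)
    (Γ : Set L) (hU : UnitEq Γ)
    (lam : V →ₗ[L] L) (hlam : lam ≠ 0) (x : V) (hx : x ≠ 0)
    (hF : ∀ w, lam (act D w x) ∈ Γ) : Good K D := by
  refine Good.of_coeff D hirr lam hlam x hx ?_
  have h1 := polya (K := K) D G (by
      intro w μ ω hω hw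
      rw [rl_eq_act] at hw
      exact hG _ μ ω hω hw) R1 hR1 hGR Γ hU lam x (by
      intro w
      rw [rl_eq_act]
      exact hF _) (by
      rw [eq_top_iff, ← rows_span D hirr lam hlam]
      apply Submodule.span_mono
      rintro _ ⟨u, rfl⟩
      exact ⟨u.reverse, by simp only [rl_eq_act, List.reverse_reverse]⟩)
  have h2 := Spn.reverse h1
  have h3 : (fun w : List A => lam (rl D w.reverse x)) = fun w => lam (act D w x) := by
    funext w
    rw [rl_eq_act, List.reverse_reverse]
  rwa [h3] at h2

end Pool.Agent.Helper68.WA
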