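import Pool.Agent.Helper68.WA.Trans

set_option autoImplicit false
set_option linter.unusedSectionVars false

/-!
# The unit equation in rank one over the complex numbers
-/

namespace Pool.Agent.Helper68.WA

open Matrix Module

/-- `{0} ∪ Φ g^ℤ` -/
def Gam (Φ : Set ℂ) (g : ℂ) : Set ℂ := {z | z = 0 ∨ ∃ ζ ∈ Φ, ∃ m : ℤ, z = ζ * g ^ m}

lemma finite_zpow (t : ℝ) (ht : 1 < t) (c1 c2 κ : ℝ) (hc1 : 0 < c1) (hκ : 0 < κ) :
    {m : ℤ | c1 ≤ κ * t ^ m ∧ κ * t ^ m ≤ c2}.Finite := by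
  obtain ⟨N, hN⟩ := pow_unbounded_of_one_lt (c2 / κ) ht
  obtain ⟨N', hN'⟩ := pow_unbounded_of_one_lt (κ / c1) ht
  refine (Set.finite_Icc (-(N' : ℤ)) (N : ℤ)).subset ?_
  rintro m ⟨h1, h2⟩
  have ht0 : 0 < t := by linarith
  constructor
  · by_contra h
    push Not at h
    have h3 : t ^ m ≤ t ^ (-(N' : ℤ)) := zpow_le_zpow_right₀ ht.le h.le
    have h4 : κ * t ^ (-(N' : ℤ)) < c1 := by
      rw [_root_.zpow_neg, zpow_natCast, ← div_eq_mul_inv, div_lt_iff₀ (by positivity)]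
      rw [div_lt_iff₀ hc1] at hN'
      linarith
    have h5 : κ * t ^ m ≤ κ * t ^ (-(N' : ℤ)) := mul_le_mul_of_nonneg_left h3 hκ.le
    linarith
  · by_contra h
    push Not at h
    have h3 : t ^ (N : ℤ) ≤ t ^ m := zpow_le_zpow_right₀ ht.le h.le
    rw [zpow_natCast] at h3
    have h4 : c2 < κ * t ^ N := by
      rw [div_lt_iff₀ hκ] at hN
      linarith
    have h5 : κ * t ^ N ≤ κ * t ^ m := mul_le_mul_of_nonneg_left h3 hκ.le
    linarith

lemma finite_annulus {Φ : Set ℂ} (hΦ : Φ.Finite) (hΦ0 : (0 : ℂ) ∉ Φ) {g : ℂ} (hg : 1 < ‖g‖)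
    (c1 c2 : ℝ) (hc1 : 0 < c1) : {z | z ∈ Gam Φ g ∧ c1 ≤ ‖z‖ ∧ ‖z‖ ≤ c2}.Finite := by
  have h1 : {z | z ∈ Gam Φ g ∧ c1 ≤ ‖z‖ ∧ ‖z‖ ≤ c2} ⊆ ⋃ ζ ∈ Φ, (fun m : ℤ => ζ * g ^ m) ''
      {m : ℤ | c1 ≤ ‖ζ‖ * ‖g‖ ^ m ∧ ‖ζ‖ * ‖g‖ ^ m ≤ c2} := by
    rintro z ⟨hz, h1, h2⟩
    rcases hz with rfl | ⟨ζ, hζ, m, rfl⟩
    · rw [norm_zero] at h1; linarith
    · rw [norm_mul, norm_zpow] at h1 h2
      exact Set.mem_biUnion hζ ⟨m, ⟨h1, h2⟩, rfl⟩
  refine Set.Finite.subset (hΦ.biUnion fun ζ hζ => Set.Finite.image _ ?_) h1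
  exact finite_zpow _ hg _ _ _ hc1 (norm_pos_iff.mpr fun h => hΦ0 (h ▸ hζ))

lemma exists_gap {Φ : Set ℂ} (hΦ : Φ.Finite) (hΦ0 : (0 : ℂ) ∉ Φ) {g : ℂ} (hg : 1 < ‖g‖)
    (a : ℂ) (ha : a ≠ 0) : ∃ δ : ℝ, 0 < δ ∧ ∀ z ∈ Gam Φ g, z ≠ a → δ ≤ ‖z - a‖ := by
  have ha' : 0 < ‖a‖ := norm_pos_iff.mpr ha
  set F := {z | z ∈ Gam Φ g ∧ ‖a‖ / 2 ≤ ‖z‖ ∧ ‖z‖ ≤ 2 * ‖a‖} \ {a} with hF
  have hFf : F.Finite := (finite_annulus hΦ hΦ0 hg _ _ (by positivity)).subset Set.sdiff_subset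
  have haF : a ∈ Fᶜ := fun h => h.2 rfl
  obtain ⟨ε, hε, hball⟩ := Metric.isOpen_iff.mp hFf.isClosed.isOpen_compl a haF
  refine ⟨min ε (‖a‖ / 2), by positivity, fun z hz hza => ?_⟩
  by_contra h
  push Not at h
  rw [lt_min_iff] at h
  have h1 : z ∈ Fᶜ := hball (by rw [Metric.mem_ball, dist_eq_norm]; exact h.1)
  apply h1
  refine ⟨⟨hz, ?_, ?_⟩, hza⟩
  · have h2 : ‖a‖ ≤ ‖z‖ + ‖z - a‖ := by
      have : a = z - (z - a) := by ring
      calc ‖a‖ = ‖z - (z - a)‖ := by rw [← this]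
        _ ≤ _ := norm_sub_le _ _
    linarith [h.2]
  · have h2 : ‖z‖ ≤ ‖a‖ + ‖z - a‖ := by
      have : z = a + (z - a) := by ring
      calc ‖z‖ = ‖a + (z - a)‖ := by rw [← this]
        _ ≤ _ := norm_add_le _ _
    linarith [h.2]

/-- quotients -/
def Quo (Φ : Set ℂ) : Set ℂ := (fun p : ℂ × ℂ => p.1 / p.2) '' (Φ ×ˢ Φ)

lemma div_mem_Quo {Φ : Set ℂ} (hΦ0 : (0 : ℂ) ∉ Φ) {g : ℂ} (hg : 1 < ‖g‖) {z z' : ℂ}
    (hz : z ∈ Gam Φ g) (hz' : z' ∈ Gam Φ g) (hz0 : z' ≠ 0) : z / z' ∈ Gam (Quo Φ) g := by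
  have hg0 : g ≠ 0 := by
    rintro rfl
    rw [norm_zero] at hg
    linarith
  rcases hz' with rfl | ⟨ζ', hζ', m', rfl⟩
  · exact absurd rfl hz0
  rcases hz with rfl | ⟨ζ, hζ, m, rfl⟩
  · left; simp
  · right
    refine ⟨ζ / ζ', ⟨(ζ, ζ'), ⟨hζ, hζ'⟩, rfl⟩, m - m', ?_⟩
    have h1 : ζ' ≠ 0 := fun h => hΦ0 (h ▸ hζ')
    rw [zpow_sub₀ hg0]
    have h2 : g ^ m' ≠ 0 := zpow_ne_zero _ hg0
    field_simp

theorem unitEq_rank_one {Φ : Set ℂ} (hΦ : Φ.Finite) (hΦ0 : (0 : ℂ) ∉ Φ) {g : ℂ}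
    (hg : 1 < ‖g‖) : UnitEq (Gam Φ g) := by
  classical
  intro m a i j hij hai haj
  have hQ : (Quo Φ).Finite := (hΦ.prod hΦ).image _
  have hQ0 : (0 : ℂ) ∉ Quo Φ := by
    rintro ⟨⟨p, q⟩, ⟨hp, hq⟩, h⟩
    simp only at h
    rcases div_eq_zero_iff.mp h with h | h
    · exact hΦ0 (h ▸ hp)
    · exact hΦ0 (h ▸ hq)
  set J : Finset (Fin m) := Finset.univ.filter fun l => a l ≠ 0 with hJ
  -- gaps
  have hgap : ∀ l : Fin m, ∃ δ : ℝ, 0 < δ ∧ (a l ≠ 0 → ∀ z ∈ Gam (Quo Φ) g, z ≠ a l →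
      δ ≤ ‖z - a l‖) := by
    intro l
    by_cases h : a l = 0
    · exact ⟨1, one_pos, fun h' => absurd h h'⟩
    · obtain ⟨δ, hδ, h2⟩ := exists_gap hQ hQ0 hg (a l) h
      exact ⟨δ, hδ, fun _ => h2⟩
  choose δ hδ hδ' using hgap
  set M : ℝ := ∑ l, ‖a l‖ with hM
  have hMpos : 0 < M := by
    refine lt_of_lt_of_le (norm_pos_iff.mpr hai) ?_
    exact Finset.single_le_sum (f := fun l => ‖a l‖) (fun _ _ => norm_nonneg _)
      (Finset.mem_univ i)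
  let RR : Set ℂ := ⋃ l : Fin m, {z | z ∈ Gam (Quo Φ) g ∧ δ l / M ≤ ‖z‖ ∧ ‖z‖ ≤ 1}
  have hRR : RR.Finite := Set.finite_iUnion fun l =>
    finite_annulus hQ hQ0 hg _ _ (div_pos (hδ l) hMpos)
  let UA : Finset (Fin m) → Submodule ℂ (Fin m → ℂ) := fun I =>
    LinearMap.ker (∑ l ∈ I, a l • (LinearMap.proj l : (Fin m → ℂ) →ₗ[ℂ] ℂ))
  let UB : Fin m × Fin m × ℂ → Submodule ℂ (Fin m → ℂ) := fun t =>
    LinearMap.ker ((LinearMap.proj t.1 : (Fin m → ℂ) →ₗ[ℂ] ℂ) -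
      t.2.2 • (LinearMap.proj t.2.1 : (Fin m → ℂ) →ₗ[ℂ] ℂ))
  refine ⟨(UA '' {I | I.Nonempty ∧ I ⊆ J}) ∪
    (UB '' {t | t.1 ≠ t.2.1 ∧ t.2.2 ∈ RR}), ?_, ?_, ?_⟩
  · refine Set.Finite.union (Set.Finite.image _ (Set.toFinite _)) (Set.Finite.image _ ?_)
    refine ((Set.finite_univ (α := Fin m)).prod ((Set.finite_univ (α := Fin m)).prod
      hRR)).subset ?_
    rintro ⟨l, k, r⟩ ⟨_, h⟩
    exact ⟨trivial, trivial, h⟩
  · rintro U (⟨I, ⟨⟨l, hl⟩, hIJ⟩, rfl⟩ | ⟨⟨l, k, r⟩, ⟨hlk, _⟩, rfl⟩) htop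
    · have h1 : (Pi.single l 1 : Fin m → ℂ) ∈ UA I := by rw [htop]; trivial
      simp only [UA, LinearMap.mem_ker, LinearMap.sum_apply, LinearMap.smul_apply,
        LinearMap.proj_apply, smul_eq_mul, Pi.single_apply, mul_ite, mul_one, mul_zero,
        Finset.sum_ite_eq', hl, if_true] at h1
      have h2 := hIJ hl
      rw [hJ, Finset.mem_filter] at h2
      exact h2.2 h1
    · have h1 : (Pi.single l 1 : Fin m → ℂ) ∈ UB (l, k, r) := by rw [htop]; trivial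
      simp only at hlk
      simp [UB, LinearMap.mem_ker, Pi.single_apply, Ne.symm hlk] at h1
  · intro x hx hy
    by_contra hno
    push Not at hno
    have hA : ∀ I : Finset (Fin m), I.Nonempty → I ⊆ J → ∑ l ∈ I, a l * x l ≠ 0 := by
      intro I hI hIJ h
      refine hno (UA I) (Or.inl ⟨I, ⟨hI, hIJ⟩, rfl⟩) ?_
      simp only [UA, LinearMap.mem_ker, LinearMap.sum_apply, LinearMap.smul_apply,
        LinearMap.proj_apply, smul_eq_mul]
      exact h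
    have hx0 : ∀ l ∈ J, x l ≠ 0 := by
      intro l hl h
      exact hA {l} (Finset.singleton_nonempty _) (by simpa using hl) (by simp [h])
    have hiJ : i ∈ J := by simp [hJ, hai]
    have hjJ : j ∈ J := by simp [hJ, haj]
    obtain ⟨l0, hl0, hmax⟩ := Finset.exists_max_image J (fun l => ‖x l‖) ⟨i, hiJ⟩
    have hne : (J.erase l0).Nonempty := by
      by_cases h : i = l0
      · exact ⟨j, Finset.mem_erase.mpr ⟨by rw [← h]; exact hij.symm, hjJ⟩⟩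
      · exact ⟨i, Finset.mem_erase.mpr ⟨h, hiJ⟩⟩
    have hs := hA (J.erase l0) hne (Finset.erase_subset _ _)
    have hsum : ∑ l, a l * x l = a l0 * x l0 + ∑ l ∈ J.erase l0, a l * x l := by
      rw [Finset.add_sum_erase J (fun l => a l * x l) hl0]
      symm
      refine Finset.sum_subset (Finset.subset_univ _) fun l _ hl => ?_
      have : a l = 0 := by
        by_contra h
        exact hl (by simp [hJ, h])
      rw [this, zero_mul]
    have hx00 := hx0 l0 hl0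
    have hquo := div_mem_Quo hΦ0 hg hy (hx l0) hx00
    have e1 : (∑ l, a l * x l) / x l0 = a l0 + (∑ l ∈ J.erase l0, a l * x l) / x l0 := by
      rw [hsum]; field_simp
    have hne2 : (∑ l, a l * x l) / x l0 ≠ a l0 := by
      rw [e1]
      intro h
      have h2 : (∑ l ∈ J.erase l0, a l * x l) / x l0 = 0 := by linear_combination h
      rcases div_eq_zero_iff.mp h2 with h3 | h3
      · exact hs h3
      · exact hx00 h3
    have hal0 : a l0 ≠ 0 := by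
      rw [hJ, Finset.mem_filter] at hl0; exact hl0.2
    have h3 := hδ' l0 hal0 _ hquo hne2
    have e2 : (∑ l, a l * x l) / x l0 - a l0 = ∑ l ∈ J.erase l0, a l * (x l / x l0) := by
      rw [e1, add_sub_cancel_left, Finset.sum_div]
      exact Finset.sum_congr rfl fun l _ => mul_div_assoc _ _ _
    rw [e2] at h3
    -- some ratio is not small
    obtain ⟨l, hl, hlbig⟩ : ∃ l ∈ J.erase l0, δ l0 / M ≤ ‖x l / x l0‖ := by
      by_contra hcon
      push Not at hcon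
      have h4 : ‖∑ l ∈ J.erase l0, a l * (x l / x l0)‖ < δ l0 := by
        calc ‖∑ l ∈ J.erase l0, a l * (x l / x l0)‖
            ≤ ∑ l ∈ J.erase l0, ‖a l‖ * ‖x l / x l0‖ := by
              refine (norm_sum_le _ _).trans (le_of_eq ?_)
              exact Finset.sum_congr rfl fun l _ => norm_mul _ _
          _ < ∑ l ∈ J.erase l0, ‖a l‖ * (δ l0 / M) := by
              refine Finset.sum_lt_sum_of_nonempty hne fun l hl => ?_
              have hal : a l ≠ 0 := by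
                have := (Finset.mem_erase.mp hl).2
                rw [hJ, Finset.mem_filter] at this
                exact this.2
              exact mul_lt_mul_of_pos_left (hcon l hl) (norm_pos_iff.mpr hal)
          _ = (∑ l ∈ J.erase l0, ‖a l‖) * (δ l0 / M) := by rw [Finset.sum_mul]
          _ ≤ M * (δ l0 / M) := by
              refine mul_le_mul_of_nonneg_right ?_ (div_pos (hδ l0) hMpos).le
              exact Finset.sum_le_sum_of_subset_of_nonneg (Finset.subset_univ _)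
                fun _ _ _ => norm_nonneg _
          _ = δ l0 := by field_simp
      linarith
    have hlJ := (Finset.mem_erase.mp hl).2
    have hlne := (Finset.mem_erase.mp hl).1
    have hle1 : ‖x l / x l0‖ ≤ 1 := by
      rw [norm_div, div_le_one (norm_pos_iff.mpr hx00)]
      exact hmax l hlJ
    refine hno (UB (l, l0, x l / x l0)) (Or.inr ⟨(l, l0, x l / x l0), ⟨hlne, ?_⟩, rfl⟩) ?_
    · exact Set.mem_iUnion.mpr ⟨l0, div_mem_Quo hΦ0 hg (hx l) (hx l0) hx00, hlbig, hle1⟩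
    · simp only [UB, LinearMap.mem_ker, LinearMap.sub_apply, LinearMap.smul_apply,
        LinearMap.proj_apply, smul_eq_mul]
      field_simp
      ring

end Pool.Agent.Helper68.WA
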